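import Pool.Agent.Helper49_Pauli.Interface4

/-!
# From trial states to the self-energy
-/

open MeasureTheory Complex

namespace Pool.Agent.Helper49_Pauli

section

variable {D : Type} [NormedAddCommGroup D] [InnerProductSpace ℂ D] {cut L : ℝ}

lemma inner_fieldEnergy_nonneg (F : Bosons (Mode cut L) D) (v : D) :
    0 ≤ (inner ℂ v (fieldEnergy F v)).re := by
  rw [fieldEnergy, inner_sum, Complex.re_sum]
  refine Finset.sum_nonneg fun m _ => ?_
  rw [inner_smul_right]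
  have h : inner ℂ v (F.ad m (F.a m v)) = ((‖F.a m v‖ ^ 2 : ℝ) : ℂ) := by
    rw [← inner_conj_symm, F.adj, inner_self_eq_norm_sq_to_K]
    simp
  rw [h, ← Complex.ofReal_mul, Complex.ofReal_re]
  have : 0 ≤ freq L m.1 := Real.sqrt_nonneg _
  positivity

lemma energy_nonneg (hS : SymmStatement) (hL : 0 < L) (P : Polarization L) {alpha : ℝ}
    (ha : 0 ≤ alpha) (F : Bosons (Mode cut L) D) {psi : X3 → Fin 2 → D} (h : IsState psi) :
    0 ≤ energy alpha F P psi := by
  rw [hS cut L hL P alpha ha D F psi h]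
  have h1 : 0 ≤ ∫ x, ∑ s, ‖dirac alpha F P psi x s‖ ^ 2 :=
    integral_nonneg fun x => Finset.sum_nonneg fun s _ => by positivity
  have h2 : 0 ≤ ∫ x, ∑ s, (inner ℂ (psi x s) (fieldEnergy F (psi x s))).re :=
    integral_nonneg fun x => Finset.sum_nonneg fun s _ => inner_fieldEnergy_nonneg F _
  linarith

omit [InnerProductSpace ℂ D] in
lemma normSq_nonneg (psi : X3 → Fin 2 → D) : 0 ≤ normSq psi :=
  integral_nonneg fun x => Finset.sum_nonneg fun s _ => by positivity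

lemma selfEnergy_nonneg (hS : SymmStatement) (hL : 0 < L) (P : Polarization L) {alpha : ℝ}
    (ha : 0 ≤ alpha) (F : Bosons (Mode cut L) D) : 0 ≤ selfEnergy alpha F P := by
  refine Real.sInf_nonneg ?_
  rintro E ⟨psi, h1, h2, rfl⟩
  exact div_nonneg (energy_nonneg hS hL P ha F h1) (normSq_nonneg psi)

lemma selfEnergy_le (hS : SymmStatement) (hL : 0 < L) (P : Polarization L) {alpha : ℝ}
    (ha : 0 ≤ alpha) (F : Bosons (Mode cut L) D) {M : ℝ} {psi : X3 → Fin 2 → D} (h : IsState psi)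
    (hn : 0 < normSq psi) (hM : energy alpha F P psi ≤ M * normSq psi) :
    selfEnergy alpha F P ≤ M := by
  have h1 : energy alpha F P psi / normSq psi ≤ M := by
    rw [div_le_iff₀ hn]
    exact hM
  refine le_trans (csInf_le ⟨0, ?_⟩ ⟨psi, h, hn.ne', rfl⟩) h1
  rintro E ⟨psi', h3, h4, rfl⟩
  exact div_nonneg (energy_nonneg hS hL P ha F h3) (normSq_nonneg psi')

end

/-- The upper bound. -/
def UpperStatement (s : ℝ) : Prop :=
  ∀ alpha : ℝ, 0 < alpha → ∃ C : ℝ, 0 < C ∧ ∀ cut L : ℝ, 1 ≤ cut → 1 ≤ L →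
    ∀ (P : Polarization L) (D : Type) [NormedAddCommGroup D] [InnerProductSpace ℂ D]
      (F : Bosons (Mode cut L) D),
      0 ≤ selfEnergy alpha F P ∧ selfEnergy alpha F P ≤ C * cut ^ s

theorem upper_of_core (hS : SymmStatement) {s : ℝ}
    (hcore : ∀ alpha : ℝ, 0 < alpha → ∃ C : ℝ, 0 < C ∧ ∀ cut L : ℝ, 1 ≤ cut → 1 ≤ L →
      ∀ (P : Polarization L) (D : Type) [NormedAddCommGroup D] [InnerProductSpace ℂ D]
        (F : Bosons (Mode cut L) D), ∃ psi : X3 → Fin 2 → D, IsState psi ∧ 0 < normSq psi ∧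
          energy alpha F P psi ≤ C * cut ^ s * normSq psi) : UpperStatement s := by
  intro alpha ha
  obtain ⟨C, hC, h⟩ := hcore alpha ha
  refine ⟨C, hC, fun cut L hcut hL P D _ _ F => ?_⟩
  obtain ⟨psi, h1, h2, h3⟩ := h cut L hcut hL P D F
  exact ⟨selfEnergy_nonneg hS (by linarith) P ha.le F,
    selfEnergy_le hS (by linarith) P ha.le F h1 h2 h3⟩

/-- The failure of the lower bound `c cut^(3/2)`, even in the limit of large boxes. -/
theorem disproof_of_upper (hFR : FockRepStatement) (hPol : PolStatement) {s : ℝ} (hs : s < 3 / 2)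
    (hU : UpperStatement s) (alpha : ℝ) (halpha : 0 < alpha) :
    ¬ ∃ c : ℝ, 0 < c ∧ ∃ cut₀ : ℝ, ∀ cut : ℝ, cut₀ ≤ cut → ∃ L₀ : ℝ, ∀ L : ℝ, L₀ ≤ L →
      ∀ (P : Polarization L) (D : Type) [NormedAddCommGroup D] [InnerProductSpace ℂ D]
        (F : Bosons (Mode cut L) D), F.Cyclic →
        c * cut ^ ((3 / 2) : ℝ) ≤ selfEnergy alpha F P := by
  rintro ⟨c, hc, cut₀, h⟩
  obtain ⟨C, hC, hU⟩ := hU alpha halpha
  obtain ⟨cut, h1, h2, h3⟩ : ∃ cut : ℝ, cut₀ ≤ cut ∧ 1 ≤ cut ∧ C * cut ^ s < c * cut ^ ((3 / 2) : ℝ) := by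
    have ht : Filter.Tendsto (fun x : ℝ => x ^ (3 / 2 - s)) Filter.atTop Filter.atTop :=
      tendsto_rpow_atTop (by linarith)
    have he := ht.eventually_gt_atTop (C / c)
    obtain ⟨cut, h1, h2⟩ := (he.and (Filter.eventually_ge_atTop (max cut₀ 1))).exists
    refine ⟨cut, le_trans (le_max_left _ _) h2, le_trans (le_max_right _ _) h2, ?_⟩
    have hpos : 0 < cut := lt_of_lt_of_le one_pos (le_trans (le_max_right _ _) h2)
    have e : cut ^ ((3 / 2) : ℝ) = cut ^ s * cut ^ (3 / 2 - s) := by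
      rw [← Real.rpow_add hpos]
      congr 1
      ring
    rw [e]
    have h5 : C < c * cut ^ (3 / 2 - s) := by
      rw [div_lt_iff₀ hc] at h1
      linarith
    have h6 : 0 < cut ^ s := Real.rpow_pos_of_pos hpos _
    calc C * cut ^ s < (c * cut ^ (3 / 2 - s)) * cut ^ s := by gcongr
      _ = _ := by ring
  obtain ⟨L₀, hL₀⟩ := h cut h1
  obtain ⟨P⟩ := hPol (max L₀ 1) (lt_of_lt_of_le one_pos (le_max_right _ _))
  obtain ⟨D, i1, i2, F, hF⟩ := hFR (Mode cut (max L₀ 1))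
  have h7 := hL₀ (max L₀ 1) (le_max_left _ _) P D F hF
  have h8 := (hU cut (max L₀ 1) h2 (le_max_right _ _) P D F).2
  linarith

end Pool.Agent.Helper49_Pauli
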