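import Pool.Agent.Helper49_Pauli.Spin

/-!
# The dressed wave function and the Dirac operator acting on it
-/

open MeasureTheory Complex

namespace Pool.Agent.Helper49_Pauli

/-- The unit vector `e_j`. -/
noncomputable abbrev ee (j : Fin 3) : X3 := Pi.single j 1

lemma cov_eq (A : X3 → X3) (j : Fin 3) (phi : X3 → S2) (x : X3) (h : DifferentiableAt ℝ phi x) :
    cov A j phi x = (-I) • fderiv ℝ phi x (ee j) + (A x j : ℂ) • phi x := by
  ext s
  rw [cov, Pi.add_apply, Pi.smul_apply, Pi.smul_apply, smul_eq_mul, smul_eq_mul, fderiv_apply h]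
  rfl

/-- `vt t w = (1 - exp(-t w)) / w`. -/
noncomputable def vt (t w : ℝ) : ℝ := (1 - Real.exp (-(t * w))) / w

lemma vt_mul {t w : ℝ} (hw : w ≠ 0) : vt t w * w = 1 - Real.exp (-(t * w)) := by
  rw [vt, div_mul_cancel₀ _ hw]

section fields

variable {ι : Type} [Fintype ι] (k c : ι → X3) (θ : ι → ℝ) (t : ℝ) (Q : ι → ℝ)

/-- The phase `k_i . x - theta_i`. -/
def ph (x : X3) (i : ι) : ℝ := dot (k i) x - θ i

/-- The vector field `sum Q_i cos(k_i . x - theta_i) c_i`. -/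
noncomputable def fA (x : X3) : X3 := fun n => ∑ i, Q i * Real.cos (ph k θ x i) * c i n

/-- The low frequency part. -/
noncomputable def fAl (x : X3) : X3 := fun n =>
  ∑ i, Q i * Real.exp (-(t * sq (k i))) * Real.cos (ph k θ x i) * c i n

/-- `Theta` applied to a spinor. -/
noncomputable def Th (x : X3) (u : S2) : S2 :=
  ∑ i, (((Q i * vt t (sq (k i)) * Real.sin (ph k θ x i) : ℝ) : ℂ) * I) • sl (k i) (sl (c i) u)

/-- The low frequency part of `Theta`. -/
noncomputable def Thl (x : X3) (u : S2) : S2 :=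
  ∑ i, (((Q i * vt t (sq (k i)) * Real.exp (-(t * sq (k i))) * Real.sin (ph k θ x i) : ℝ) : ℂ) * I) •
    sl (k i) (sl (c i) u)

/-- The second order dressing field. -/
noncomputable def Th2 (x : X3) (l : Fin 3) (u : S2) : S2 :=
  ∑ i, ((Q i * vt t (sq (k i)) ^ 2 * Real.cos (ph k θ x i) : ℝ) : ℂ) •
    sl (k i) (sg l (sl (k i) (sl (c i) u)))

lemma hasFDerivAt_dot (v x : X3) : HasFDerivAt (fun y => dot v y)
    (∑ j, v j • (ContinuousLinearMap.proj j : X3 →L[ℝ] ℝ)) x := by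
  have h : (fun y => dot v y) = ⇑(∑ j, v j • (ContinuousLinearMap.proj j : X3 →L[ℝ] ℝ)) := by
    ext y
    simp [dot]
  rw [h]
  exact ContinuousLinearMap.hasFDerivAt _

omit [Fintype ι] in
lemma hasFDerivAt_ph (x : X3) (i : ι) : HasFDerivAt (fun y => ph k θ y i)
    (∑ j, k i j • (ContinuousLinearMap.proj j : X3 →L[ℝ] ℝ)) x :=
  (hasFDerivAt_dot (k i) x).sub_const _

lemma proj_sum_apply (v : X3) (j : Fin 3) :
    (∑ j, v j • (ContinuousLinearMap.proj j : X3 →L[ℝ] ℝ)) (ee j) = v j := by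
  simp [Pi.single_apply]

/-- `L : EndS` as a real continuous linear map. -/
noncomputable def toR (L : EndS) : S2 →L[ℝ] S2 :=
  LinearMap.toContinuousLinearMap (L.restrictScalars ℝ)

lemma toR_apply (L : EndS) (u : S2) : toR L u = L u := rfl

lemma hasFDerivAt_term {f : X3 → ℝ} {f' : X3 →L[ℝ] ℝ} {v : X3 → S2} {x : X3} (z : ℂ) (L : EndS)
    (hf : HasFDerivAt f f' x) (hv : DifferentiableAt ℝ v x) :
    ∃ F' : X3 →L[ℝ] S2, HasFDerivAt (fun y => (((f y : ℝ) : ℂ) * z) • L (v y)) F' x ∧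
      ∀ w, F' w = (((f' w : ℝ) : ℂ) * z) • L (v x) + (((f x : ℝ) : ℂ) * z) • L (fderiv ℝ v x w) := by
  have h1 : HasFDerivAt (fun y => toR L (v y)) ((toR L).comp (fderiv ℝ v x)) x :=
    (toR L).hasFDerivAt.comp x hv.hasFDerivAt
  have h2 : HasFDerivAt (fun y => z • toR L (v y)) (z • ((toR L).comp (fderiv ℝ v x))) x :=
    h1.const_smul z
  have h3 := hf.smul h2
  have h4 : (fun y => (((f y : ℝ) : ℂ) * z) • L (v y)) = fun y => f y • (z • toR L (v y)) := by
    ext y s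
    simp [toR_apply, mul_assoc]
  rw [h4]
  refine ⟨_, h3, fun w => ?_⟩
  ext s
  simp [toR_apply, mul_assoc]
  ring

omit [Fintype ι] in
lemma hasFDerivAt_sin_ph (x : X3) (i : ι) : HasFDerivAt (fun y => Real.sin (ph k θ y i))
    (Real.cos (ph k θ x i) • ∑ j, k i j • (ContinuousLinearMap.proj j : X3 →L[ℝ] ℝ)) x :=
  (hasFDerivAt_ph k θ x i).sin

omit [Fintype ι] in
lemma hasFDerivAt_cos_ph (x : X3) (i : ι) : HasFDerivAt (fun y => Real.cos (ph k θ y i))
    (-Real.sin (ph k θ x i) • ∑ j, k i j • (ContinuousLinearMap.proj j : X3 →L[ℝ] ℝ)) x :=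
  (hasFDerivAt_ph k θ x i).cos

/-- Derivative of `Theta v`. -/
lemma Th_deriv {v : X3 → S2} {x : X3} (hv : DifferentiableAt ℝ v x) :
    DifferentiableAt ℝ (fun y => Th k c θ t Q y (v y)) x ∧
    ∀ j, (-I) • fderiv ℝ (fun y => Th k c θ t Q y (v y)) x (ee j) =
      (∑ i, ((Q i * vt t (sq (k i)) * Real.cos (ph k θ x i) * k i j : ℝ) : ℂ) •
        sl (k i) (sl (c i) (v x))) + Th k c θ t Q x ((-I) • fderiv ℝ v x (ee j)) := by
  have hterm : ∀ i, ∃ F' : X3 →L[ℝ] S2, HasFDerivAt (fun y =>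
      (((Q i * vt t (sq (k i)) * Real.sin (ph k θ y i) : ℝ) : ℂ) * I) •
        (sl (k i) * sl (c i)) (v y)) F' x ∧ ∀ w, F' w =
      ((((Q i * vt t (sq (k i))) * (Real.cos (ph k θ x i) *
        ((∑ j, k i j • (ContinuousLinearMap.proj j : X3 →L[ℝ] ℝ)) w)) : ℝ) : ℂ) * I) •
        (sl (k i) * sl (c i)) (v x) +
      (((Q i * vt t (sq (k i)) * Real.sin (ph k θ x i) : ℝ) : ℂ) * I) •
        (sl (k i) * sl (c i)) (fderiv ℝ v x w) := by
    intro i
    obtain ⟨F', h1, h2⟩ := hasFDerivAt_term I (sl (k i) * sl (c i))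
      ((hasFDerivAt_sin_ph k θ x i).const_mul (Q i * vt t (sq (k i)))) hv
    refine ⟨F', h1, fun w => ?_⟩
    rw [h2 w]
    simp
  choose F hF hF' using hterm
  have hs : HasFDerivAt (fun y => Th k c θ t Q y (v y)) (∑ i, F i) x := by
    have := HasFDerivAt.fun_sum (u := Finset.univ) fun i _ => hF i
    exact this
  refine ⟨hs.differentiableAt, fun j => ?_⟩
  rw [hs.fderiv]
  have e1 : (∑ i, F i) (ee j) = ∑ i, F i (ee j) := by
    simp
  rw [e1, Th, Finset.smul_sum, ← Finset.sum_add_distrib]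
  refine Finset.sum_congr rfl fun i _ => ?_
  rw [hF' i, proj_sum_apply, smul_add]
  congr 1
  · rw [smul_smul]
    congr 1
    have : (I * I) = -1 := I_mul_I
    push_cast
    linear_combination (-(Q i * vt t (sq (k i)) * Complex.cos (ph k θ x i) * k i j) : ℂ) * this
  · simp only [map_smul, Module.End.mul_apply]
    rw [smul_smul, smul_smul, mul_comm]

/-- Derivative of `Theta2 v`. -/
lemma Th2_deriv {v : X3 → S2} {x : X3} (l : Fin 3) (hv : DifferentiableAt ℝ v x) :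
    DifferentiableAt ℝ (fun y => Th2 k c θ t Q y l (v y)) x ∧
    ∀ j, (-I) • fderiv ℝ (fun y => Th2 k c θ t Q y l (v y)) x (ee j) =
      (∑ i, (((Q i * vt t (sq (k i)) ^ 2 * Real.sin (ph k θ x i) * k i j : ℝ) : ℂ) * I) •
        sl (k i) (sg l (sl (k i) (sl (c i) (v x))))) +
        Th2 k c θ t Q x l ((-I) • fderiv ℝ v x (ee j)) := by
  have hterm : ∀ i, ∃ F' : X3 →L[ℝ] S2, HasFDerivAt (fun y =>
      (((Q i * vt t (sq (k i)) ^ 2 * Real.cos (ph k θ y i) : ℝ) : ℂ) * 1) •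
        (sl (k i) * sg l * sl (k i) * sl (c i)) (v y)) F' x ∧ ∀ w, F' w =
      ((((Q i * vt t (sq (k i)) ^ 2) * (-Real.sin (ph k θ x i) *
        ((∑ j, k i j • (ContinuousLinearMap.proj j : X3 →L[ℝ] ℝ)) w)) : ℝ) : ℂ) * 1) •
        (sl (k i) * sg l * sl (k i) * sl (c i)) (v x) +
      (((Q i * vt t (sq (k i)) ^ 2 * Real.cos (ph k θ x i) : ℝ) : ℂ) * 1) •
        (sl (k i) * sg l * sl (k i) * sl (c i)) (fderiv ℝ v x w) := by
    intro i
    obtain ⟨F', h1, h2⟩ := hasFDerivAt_term 1 (sl (k i) * sg l * sl (k i) * sl (c i))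
      ((hasFDerivAt_cos_ph k θ x i).const_mul (Q i * vt t (sq (k i)) ^ 2)) hv
    refine ⟨F', h1, fun w => ?_⟩
    rw [h2 w]
    simp
  choose F hF hF' using hterm
  have hs : HasFDerivAt (fun y => Th2 k c θ t Q y l (v y)) (∑ i, F i) x := by
    have := HasFDerivAt.fun_sum (u := Finset.univ) fun i _ => hF i
    simp only [mul_one] at this
    exact this
  refine ⟨hs.differentiableAt, fun j => ?_⟩
  rw [hs.fderiv]
  have e1 : (∑ i, F i) (ee j) = ∑ i, F i (ee j) := by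
    simp
  rw [e1, Th2, Finset.smul_sum, ← Finset.sum_add_distrib]
  refine Finset.sum_congr rfl fun i _ => ?_
  rw [hF' i, proj_sum_apply, smul_add]
  congr 1
  · rw [smul_smul]
    congr 1
    push_cast
    ring
  · simp only [map_smul, Module.End.mul_apply, mul_one]
    rw [smul_smul, smul_smul, mul_comm]

omit [Fintype ι] in
lemma sum_sg_smul_sl (i : ι) (u : S2) :
    ∑ j, ((k i j : ℝ) : ℂ) • sg j (sl (k i) u) = ((sq (k i) : ℝ) : ℂ) • u := by
  rw [← sl_sl, sl_apply (k i) (sl (k i) u)]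

/-- `sigma . p` acting on `Theta v`. -/
lemma Th_dirac (hk : ∀ i, sq (k i) ≠ 0) {v : X3 → S2} {x : X3} (hv : DifferentiableAt ℝ v x) :
    ∑ j, sg j ((-I) • fderiv ℝ (fun y => Th k c θ t Q y (v y)) x (ee j)) =
      sl (fA k c θ Q x) (v x) - sl (fAl k c θ t Q x) (v x) +
        ∑ j, sg j (Th k c θ t Q x ((-I) • fderiv ℝ v x (ee j))) := by
  simp only [(Th_deriv k c θ t Q hv).2, map_add, Finset.sum_add_distrib]
  congr 1
  simp only [map_sum, map_smul]
  rw [Finset.sum_comm]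
  have h1 : ∀ i, ∑ j, ((Q i * vt t (sq (k i)) * Real.cos (ph k θ x i) * k i j : ℝ) : ℂ) •
      sg j (sl (k i) (sl (c i) (v x))) =
      ((Q i * (1 - Real.exp (-(t * sq (k i)))) * Real.cos (ph k θ x i) : ℝ) : ℂ) •
        sl (c i) (v x) := by
    intro i
    have : ∀ j, ((Q i * vt t (sq (k i)) * Real.cos (ph k θ x i) * k i j : ℝ) : ℂ) •
      sg j (sl (k i) (sl (c i) (v x))) =
      ((Q i * vt t (sq (k i)) * Real.cos (ph k θ x i) : ℝ) : ℂ) •
        (((k i j : ℝ) : ℂ) • sg j (sl (k i) (sl (c i) (v x)))) := by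
      intro j
      rw [smul_smul]
      push_cast
      rfl
    simp only [this]
    rw [← Finset.smul_sum, sum_sg_smul_sl, smul_smul, ← Complex.ofReal_mul]
    congr 2
    rw [← vt_mul (hk i)]
    ring
  simp only [h1]
  have h2 : ∀ w : ι → ℝ, ∀ x : X3, (fun n => ∑ i, w i * c i n) = ∑ i, w i • c i := by
    intro w x
    ext n
    simp
  have e1 : fA k c θ Q x = ∑ i, (Q i * Real.cos (ph k θ x i)) • c i := by
    ext n
    simp [fA]
  have e2 : fAl k c θ t Q x = ∑ i, (Q i * Real.exp (-(t * sq (k i))) * Real.cos (ph k θ x i)) • c i := by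
    ext n
    simp [fAl]
  rw [e1, e2, sl_sum, sl_sum, LinearMap.sum_apply, LinearMap.sum_apply, ← Finset.sum_sub_distrib]
  refine Finset.sum_congr rfl fun i _ => ?_
  rw [sl_smul, sl_smul, LinearMap.smul_apply, LinearMap.smul_apply, ← sub_smul,
    ← Complex.ofReal_sub]
  congr 2
  ring

/-- `sigma . p` acting on `Theta2 v`. -/
lemma Th2_dirac (hk : ∀ i, sq (k i) ≠ 0) {v : X3 → S2} {x : X3} (l : Fin 3)
    (hv : DifferentiableAt ℝ v x) :
    ∑ j, sg j ((-I) • fderiv ℝ (fun y => Th2 k c θ t Q y l (v y)) x (ee j)) =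
      sg l (Th k c θ t Q x (v x)) - sg l (Thl k c θ t Q x (v x)) +
        ∑ j, sg j (Th2 k c θ t Q x l ((-I) • fderiv ℝ v x (ee j))) := by
  simp only [(Th2_deriv k c θ t Q l hv).2, map_add, Finset.sum_add_distrib]
  congr 1
  simp only [map_sum, map_smul]
  rw [Finset.sum_comm]
  have h1 : ∀ i, ∑ j, (((Q i * vt t (sq (k i)) ^ 2 * Real.sin (ph k θ x i) * k i j : ℝ) : ℂ) * I) •
      sg j (sl (k i) (sg l (sl (k i) (sl (c i) (v x))))) =
      (((Q i * vt t (sq (k i)) * (1 - Real.exp (-(t * sq (k i)))) * Real.sin (ph k θ x i) : ℝ) : ℂ)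
        * I) • sg l (sl (k i) (sl (c i) (v x))) := by
    intro i
    have : ∀ j, (((Q i * vt t (sq (k i)) ^ 2 * Real.sin (ph k θ x i) * k i j : ℝ) : ℂ) * I) •
      sg j (sl (k i) (sg l (sl (k i) (sl (c i) (v x))))) =
      (((Q i * vt t (sq (k i)) ^ 2 * Real.sin (ph k θ x i) : ℝ) : ℂ) * I) •
        (((k i j : ℝ) : ℂ) • sg j (sl (k i) (sg l (sl (k i) (sl (c i) (v x)))))) := by
      intro j
      rw [smul_smul]
      congr 1
      push_cast
      ring
    simp only [this]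
    rw [← Finset.smul_sum, sum_sg_smul_sl, smul_smul]
    congr 1
    rw [← vt_mul (hk i)]
    push_cast
    ring
  simp only [h1]
  rw [← map_sub, Th, Thl, ← Finset.sum_sub_distrib, map_sum]
  refine Finset.sum_congr rfl fun i _ => ?_
  rw [← sub_smul, map_smul]
  congr 1
  push_cast
  ring

lemma Th_smul (x : X3) (z : ℂ) (u : S2) :
    Th k c θ t Q x (z • u) = z • Th k c θ t Q x u := by
  simp only [Th, map_smul, Finset.smul_sum]
  exact Finset.sum_congr rfl fun i _ => smul_comm _ _ _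

lemma Th_sub (x : X3) (u v : S2) :
    Th k c θ t Q x (u - v) = Th k c θ t Q x u - Th k c θ t Q x v := by
  simp only [Th, map_sub, smul_sub, Finset.sum_sub_distrib]

lemma Th2_smul (x : X3) (l : Fin 3) (z : ℂ) (u : S2) :
    Th2 k c θ t Q x l (z • u) = z • Th2 k c θ t Q x l u := by
  simp only [Th2, map_smul, Finset.smul_sum]
  exact Finset.sum_congr rfl fun i _ => smul_comm _ _ _

lemma Th2_sub (x : X3) (l : Fin 3) (u v : S2) :
    Th2 k c θ t Q x l (u - v) = Th2 k c θ t Q x l u - Th2 k c θ t Q x l v := by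
  simp only [Th2, map_sub, smul_sub, Finset.sum_sub_distrib]

/-- The dressed spinor field. -/
noncomputable def dr (a : ℝ) (A : X3 → X3) (phi : X3 → S2) (x : X3) : S2 :=
  phi x - (Real.sqrt a : ℂ) • Th k c θ t Q x (phi x) +
    (Real.sqrt a : ℂ) • ∑ l, Th2 k c θ t Q x l (cov A l phi x)

lemma cov_differentiable {A : X3 → X3} {phi : X3 → S2} (hA : ContDiff ℝ (⊤ : ℕ∞) A)
    (hphi : ContDiff ℝ (⊤ : ℕ∞) phi) (l : Fin 3) : ContDiff ℝ (⊤ : ℕ∞) (cov A l phi) := by
  have h1 : cov A l phi = fun x => (-I) • fderiv ℝ phi x (ee l) + (A x l : ℂ) • phi x := by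
    ext1 x
    exact cov_eq A l phi x (hphi.differentiable (by simp)).differentiableAt
  rw [h1]
  have h2 : ContDiff ℝ (⊤ : ℕ∞) fun x => fderiv ℝ phi x (ee l) :=
    (hphi.fderiv_right (m := (⊤ : ℕ∞)) (by simp)).clm_apply contDiff_const
  have h3 : ContDiff ℝ (⊤ : ℕ∞) fun x => ((A x l : ℝ) : ℂ) :=
    Complex.ofRealCLM.contDiff.comp ((contDiff_apply ℝ ℝ l).comp hA)
  exact (h2.const_smul (-I)).add (h3.smul hphi)

/-- The Dirac operator on the dressed field. -/
theorem dirac_dr (hk : ∀ i, sq (k i) ≠ 0) (a : ℝ) {A : X3 → X3} {phi : X3 → S2}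
    (hA : ContDiff ℝ (⊤ : ℕ∞) A) (hphi : ContDiff ℝ (⊤ : ℕ∞) phi) (V : X3 → X3) (x E : X3)
    (hV : V x = A x + E + Real.sqrt a • fA k c θ Q x) :
    ∑ j, sg j (cov V j (dr k c θ t Q a A phi) x) =
      ∑ j, sg j (cov A j phi x) + (Real.sqrt a : ℂ) • sl (fAl k c θ t Q x) (phi x)
      - (Real.sqrt a : ℂ) • ∑ l, sg l (Thl k c θ t Q x (cov A l phi x))
      + (Real.sqrt a : ℂ) • ∑ l, ∑ j, sg j (Th2 k c θ t Q x l (cov A j (cov A l phi) x))
      + (Real.sqrt a : ℂ) • sl (fA k c θ Q x) (-((Real.sqrt a : ℂ) • Th k c θ t Q x (phi x)) +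
          (Real.sqrt a : ℂ) • ∑ l, Th2 k c θ t Q x l (cov A l phi x))
      + sl E (dr k c θ t Q a A phi x) := by
  have hd : DifferentiableAt ℝ phi x := (hphi.differentiable (by simp)).differentiableAt
  have hcd : ∀ l, DifferentiableAt ℝ (cov A l phi) x := fun l =>
    ((cov_differentiable hA hphi l).differentiable (by simp)).differentiableAt
  have hT := Th_deriv k c θ t Q hd
  have hT2 := fun l => Th2_deriv k c θ t Q l (hcd l)
  have h1 : HasFDerivAt (fun y => phi y - (Real.sqrt a : ℂ) • Th k c θ t Q y (phi y) +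
        (Real.sqrt a : ℂ) • ∑ l, Th2 k c θ t Q y l (cov A l phi y))
        (fderiv ℝ phi x - (Real.sqrt a : ℂ) • fderiv ℝ (fun y => Th k c θ t Q y (phi y)) x +
          (Real.sqrt a : ℂ) • ∑ l, fderiv ℝ (fun y => Th2 k c θ t Q y l (cov A l phi y)) x) x := by
    have e1 := hT.1.hasFDerivAt.fun_const_smul (Real.sqrt a : ℂ)
    have e2 := (HasFDerivAt.fun_sum (u := Finset.univ)
      fun l _ => (hT2 l).1.hasFDerivAt).fun_const_smul (Real.sqrt a : ℂ)
    exact (hd.hasFDerivAt.fun_sub e1).fun_add e2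
  have hdr : DifferentiableAt ℝ (dr k c θ t Q a A phi) x := h1.differentiableAt
  have hfd : ∀ j, (-I) • fderiv ℝ (dr k c θ t Q a A phi) x (ee j) =
      (-I) • fderiv ℝ phi x (ee j) -
      (Real.sqrt a : ℂ) • ((-I) • fderiv ℝ (fun y => Th k c θ t Q y (phi y)) x (ee j)) +
      (Real.sqrt a : ℂ) • ∑ l, ((-I) • fderiv ℝ (fun y => Th2 k c θ t Q y l (cov A l phi y)) x
        (ee j)) := by
    intro j
    have h2 : fderiv ℝ (dr k c θ t Q a A phi) x = _ := h1.fderiv
    rw [h2]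
    have e3 : (∑ l, fderiv ℝ (fun y => Th2 k c θ t Q y l (cov A l phi y)) x) (ee j) =
      ∑ l, fderiv ℝ (fun y => Th2 k c θ t Q y l (cov A l phi y)) x (ee j) := by simp
    rw [show ∀ (f g h : X3 →L[ℝ] S2), (f - g + h) (ee j) = f (ee j) - g (ee j) + h (ee j) from
      fun f g h => rfl]
    rw [show ∀ (z : ℂ) (f : X3 →L[ℝ] S2), (z • f) (ee j) = z • f (ee j) from fun z f => rfl,
      show ∀ (z : ℂ) (f : X3 →L[ℝ] S2), (z • f) (ee j) = z • f (ee j) from fun z f => rfl, e3]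
    rw [smul_add, smul_sub, smul_comm (-I), smul_comm (-I) (Real.sqrt a : ℂ) (∑ l, _),
      Finset.smul_sum (s := Finset.univ) (r := -I)]
  have hcov0 : ∀ j, (-I) • fderiv ℝ phi x (ee j) = cov A j phi x - (A x j : ℂ) • phi x := by
    intro j
    rw [cov_eq A j phi x hd]
    abel
  have hcov1 : ∀ l j, (-I) • fderiv ℝ (fun y => cov A l phi y) x (ee j) =
      cov A j (cov A l phi) x - (A x j : ℂ) • cov A l phi x := by
    intro l j
    rw [cov_eq A j (cov A l phi) x (hcd l)]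
    abel
  have hA1 : ∀ X : S2, ∑ j, sg j ((A x j : ℂ) • X) = sl (A x) X := by
    intro X
    rw [sl_apply]
    exact Finset.sum_congr rfl fun j _ => map_smul _ _ _
  have hV1 : ∀ X : S2, ∑ j, sg j ((V x j : ℂ) • X) = sl (A x) X + sl E X +
      (Real.sqrt a : ℂ) • sl (fA k c θ Q x) X := by
    intro X
    have : ∑ j, sg j ((V x j : ℂ) • X) = sl (V x) X := by
      rw [sl_apply]
      exact Finset.sum_congr rfl fun j _ => map_smul _ _ _
    rw [this, hV, sl_add, sl_add, sl_smul]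
    rfl
  -- left hand side
  have hL : ∑ j, sg j (cov V j (dr k c θ t Q a A phi) x) =
      ∑ j, sg j ((-I) • fderiv ℝ (dr k c θ t Q a A phi) x (ee j)) +
        ∑ j, sg j ((V x j : ℂ) • dr k c θ t Q a A phi x) := by
    rw [← Finset.sum_add_distrib]
    refine Finset.sum_congr rfl fun j _ => ?_
    rw [← map_add, cov_eq V j _ x hdr]
  have hP0 : ∑ j, sg j ((-I) • fderiv ℝ phi x (ee j)) =
      ∑ j, sg j (cov A j phi x) - sl (A x) (phi x) := by
    rw [← hA1 (phi x), ← Finset.sum_sub_distrib]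
    exact Finset.sum_congr rfl fun j _ => by rw [hcov0, map_sub]
  have hP1 : ∑ j, sg j ((-I) • fderiv ℝ (fun y => Th k c θ t Q y (phi y)) x (ee j)) =
      sl (fA k c θ Q x) (phi x) - sl (fAl k c θ t Q x) (phi x) +
        (∑ j, sg j (Th k c θ t Q x (cov A j phi x)) - sl (A x) (Th k c θ t Q x (phi x))) := by
    rw [Th_dirac k c θ t Q hk hd]
    congr 1
    rw [← hA1 (Th k c θ t Q x (phi x)), ← Finset.sum_sub_distrib]
    refine Finset.sum_congr rfl fun j _ => ?_
    rw [hcov0, Th_sub, map_sub, Th_smul]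
  have hP2 : ∀ l, ∑ j, sg j ((-I) • fderiv ℝ (fun y => Th2 k c θ t Q y l (cov A l phi y)) x (ee j)) =
      sg l (Th k c θ t Q x (cov A l phi x)) - sg l (Thl k c θ t Q x (cov A l phi x)) +
        (∑ j, sg j (Th2 k c θ t Q x l (cov A j (cov A l phi) x)) -
          sl (A x) (Th2 k c θ t Q x l (cov A l phi x))) := by
    intro l
    rw [Th2_dirac k c θ t Q hk l (hcd l)]
    congr 1
    rw [← hA1 (Th2 k c θ t Q x l (cov A l phi x)), ← Finset.sum_sub_distrib]
    refine Finset.sum_congr rfl fun j _ => ?_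
    rw [← map_sub, ← Th2_smul, ← Th2_sub]
    rw [← hcov1 l j]
  have hS : ∑ j, sg j ((-I) • fderiv ℝ (dr k c θ t Q a A phi) x (ee j)) =
      ∑ j, sg j ((-I) • fderiv ℝ phi x (ee j)) - (Real.sqrt a : ℂ) •
        (∑ j, sg j ((-I) • fderiv ℝ (fun y => Th k c θ t Q y (phi y)) x (ee j))) +
      (Real.sqrt a : ℂ) • ∑ l, ∑ j, sg j ((-I) •
        fderiv ℝ (fun y => Th2 k c θ t Q y l (cov A l phi y)) x (ee j)) := by
    rw [Finset.sum_comm, Finset.smul_sum, Finset.smul_sum, ← Finset.sum_sub_distrib,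
      ← Finset.sum_add_distrib]
    refine Finset.sum_congr rfl fun j _ => ?_
    rw [hfd j, map_add, map_sub, map_smul (sg j) (Real.sqrt a : ℂ),
      map_smul (sg j) (Real.sqrt a : ℂ), map_sum]
  rw [hL, hV1, hS, hP0, hP1]
  simp only [hP2, Finset.sum_add_distrib, Finset.sum_sub_distrib]
  have e6 : sl (A x) (dr k c θ t Q a A phi x) = sl (A x) (phi x) -
      (Real.sqrt a : ℂ) • sl (A x) (Th k c θ t Q x (phi x)) +
      (Real.sqrt a : ℂ) • ∑ l, sl (A x) (Th2 k c θ t Q x l (cov A l phi x)) := by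
    rw [dr, map_add, map_sub, map_smul, map_smul, map_sum]
  have e7 : sl (fA k c θ Q x) (dr k c θ t Q a A phi x) = sl (fA k c θ Q x) (phi x) +
      sl (fA k c θ Q x) (-((Real.sqrt a : ℂ) • Th k c θ t Q x (phi x)) +
          (Real.sqrt a : ℂ) • ∑ l, Th2 k c θ t Q x l (cov A l phi x)) := by
    rw [← map_add, dr]
    congr 1
    abel
  rw [e6, e7]
  module

end fields

end Pool.Agent.Helper49_Pauli
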