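import Pool.Agent.Helper49_Pauli.Dress

/-!
# Pointwise bounds for the Dirac operator on the dressed wave function
-/

open MeasureTheory Complex

namespace Pool.Agent.Helper49_Pauli

section fields

variable {ι : Type} [Fintype ι] (k c : ι → X3) (θ : ι → ℝ) (t : ℝ) (Q : ι → ℝ)

/-- First order field components. -/
noncomputable def fB (x : X3) (p n : Fin 3) : ℝ :=
  ∑ i, Q i * vt t (sq (k i)) * k i p * Real.sin (ph k θ x i) * c i n

/-- First order field components, low frequency part. -/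
noncomputable def fBl (x : X3) (p n : Fin 3) : ℝ :=
  ∑ i, Q i * vt t (sq (k i)) * Real.exp (-(t * sq (k i))) * k i p * Real.sin (ph k θ x i) * c i n

/-- Second order field components. -/
noncomputable def fD (x : X3) (p q n : Fin 3) : ℝ :=
  ∑ i, Q i * vt t (sq (k i)) ^ 2 * (k i p * k i q) * Real.cos (ph k θ x i) * c i n

/-- Sums of squares of field components. -/
noncomputable def sA (x : X3) : ℝ := ∑ n, fA k c θ Q x n ^ 2
/-- Sums of squares of field components. -/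
noncomputable def sAl (x : X3) : ℝ := ∑ n, fAl k c θ t Q x n ^ 2
/-- Sums of squares of field components. -/
noncomputable def sB (x : X3) : ℝ := ∑ p, ∑ n, fB k c θ t Q x p n ^ 2
/-- Sums of squares of field components. -/
noncomputable def sBl (x : X3) : ℝ := ∑ p, ∑ n, fBl k c θ t Q x p n ^ 2
/-- Sums of squares of field components. -/
noncomputable def sD (x : X3) : ℝ := ∑ p, ∑ q, ∑ n, fD k c θ t Q x p q n ^ 2

lemma sA_nonneg (x : X3) : 0 ≤ sA k c θ Q x := Finset.sum_nonneg fun _ _ => sq_nonneg _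
lemma sAl_nonneg (x : X3) : 0 ≤ sAl k c θ t Q x := Finset.sum_nonneg fun _ _ => sq_nonneg _
lemma sB_nonneg (x : X3) : 0 ≤ sB k c θ t Q x :=
  Finset.sum_nonneg fun _ _ => Finset.sum_nonneg fun _ _ => sq_nonneg _
lemma sBl_nonneg (x : X3) : 0 ≤ sBl k c θ t Q x :=
  Finset.sum_nonneg fun _ _ => Finset.sum_nonneg fun _ _ => sq_nonneg _
lemma sD_nonneg (x : X3) : 0 ≤ sD k c θ t Q x :=
  Finset.sum_nonneg fun _ _ => Finset.sum_nonneg fun _ _ => Finset.sum_nonneg fun _ _ => sq_nonneg _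

lemma sum_sq_le3 (f : Fin 3 → ℝ) : (∑ i, f i) ^ 2 ≤ 3 * ∑ i, f i ^ 2 := by
  rw [Fin.sum_univ_three, Fin.sum_univ_three]
  nlinarith [sq_nonneg (f 0 - f 1), sq_nonneg (f 0 - f 2), sq_nonneg (f 1 - f 2)]

lemma norm_sl_sq (v : X3) (u : S2) : ‖sl v u‖ ^ 2 ≤ 3 * sq v * ‖u‖ ^ 2 := by
  have h := norm_sl_apply_le v u
  have h1 : (∑ j, |v j|) ^ 2 ≤ 3 * sq v := by
    refine (sum_sq_le3 _).trans (le_of_eq ?_)
    simp [sq, sq_abs]
  calc ‖sl v u‖ ^ 2 ≤ ((∑ j, |v j|) * ‖u‖) ^ 2 := by gcongr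
    _ = (∑ j, |v j|) ^ 2 * ‖u‖ ^ 2 := by ring
    _ ≤ 3 * sq v * ‖u‖ ^ 2 := by gcongr

lemma sum9 (f : Fin 3 → Fin 3 → ℝ) : (∑ i, ∑ j, f i j) ^ 2 ≤ 9 * ∑ i, ∑ j, f i j ^ 2 := by
  calc (∑ i, ∑ j, f i j) ^ 2 ≤ 3 * ∑ i, (∑ j, f i j) ^ 2 := sum_sq_le3 _
    _ ≤ 3 * ∑ i, 3 * ∑ j, f i j ^ 2 := by
        gcongr with i _
        exact sum_sq_le3 _
    _ = 9 * ∑ i, ∑ j, f i j ^ 2 := by rw [← Finset.mul_sum]; ring

lemma sum27 (f : Fin 3 → Fin 3 → Fin 3 → ℝ) :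
    (∑ i, ∑ j, ∑ l, f i j l) ^ 2 ≤ 27 * ∑ i, ∑ j, ∑ l, f i j l ^ 2 := by
  calc (∑ i, ∑ j, ∑ l, f i j l) ^ 2 ≤ 3 * ∑ i, (∑ j, ∑ l, f i j l) ^ 2 := sum_sq_le3 _
    _ ≤ 3 * ∑ i, 9 * ∑ j, ∑ l, f i j l ^ 2 := by
        gcongr with i _
        exact sum9 _
    _ = 27 * ∑ i, ∑ j, ∑ l, f i j l ^ 2 := by rw [← Finset.mul_sum]; ring

lemma sum_nine {E : Type*} [AddCommMonoid E] [Module ℂ E] (r : ι → ℂ) (a b : ι → X3)
    (f : Fin 3 → Fin 3 → E) :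
    ∑ i, r i • ∑ p, ∑ n, (((a i p : ℝ) : ℂ) * ((b i n : ℝ) : ℂ)) • f p n =
      ∑ p, ∑ n, (∑ i, r i * a i p * b i n) • f p n := by
  simp only [Finset.smul_sum, Finset.sum_smul, smul_smul]
  rw [Finset.sum_comm]
  refine Finset.sum_congr rfl fun p _ => ?_
  rw [Finset.sum_comm]
  refine Finset.sum_congr rfl fun n _ => Finset.sum_congr rfl fun i _ => ?_
  rw [mul_assoc]

omit [Fintype ι] in
lemma sl2_expand (i : ι) (u : S2) : sl (k i) (sl (c i) u) =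
      ∑ p, ∑ n, (((k i p : ℝ) : ℂ) * ((c i n : ℝ) : ℂ)) • sg p (sg n u) := by
  rw [sl_apply (k i)]
  refine Finset.sum_congr rfl fun p _ => ?_
  rw [sl_apply (c i), map_sum, Finset.smul_sum]
  refine Finset.sum_congr rfl fun n _ => ?_
  rw [map_smul, smul_smul]

omit [Fintype ι] in
lemma sl4_expand (i : ι) (l : Fin 3) (u : S2) : sl (k i) (sg l (sl (k i) (sl (c i) u))) =
      ∑ p, ∑ q, ∑ n, (((k i p : ℝ) : ℂ) * (((k i q : ℝ) : ℂ) * ((c i n : ℝ) : ℂ))) •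
        sg p (sg l (sg q (sg n u))) := by
  rw [sl_apply (k i)]
  refine Finset.sum_congr rfl fun p _ => ?_
  rw [sl2_expand, map_sum, map_sum, Finset.smul_sum]
  refine Finset.sum_congr rfl fun q _ => ?_
  rw [map_sum, map_sum, Finset.smul_sum]
  refine Finset.sum_congr rfl fun n _ => ?_
  rw [map_smul, map_smul, smul_smul]

lemma Th_eq (x : X3) (u : S2) :
    Th k c θ t Q x u = ∑ p, ∑ n, (((fB k c θ t Q x p n : ℝ) : ℂ) * I) • sg p (sg n u) := by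
  simp only [Th, sl2_expand]
  rw [sum_nine]
  refine Finset.sum_congr rfl fun p _ => Finset.sum_congr rfl fun n _ => ?_
  congr 1
  rw [fB, Complex.ofReal_sum, Finset.sum_mul]
  refine Finset.sum_congr rfl fun i _ => ?_
  push_cast
  ring

lemma Thl_eq (x : X3) (u : S2) :
    Thl k c θ t Q x u = ∑ p, ∑ n, (((fBl k c θ t Q x p n : ℝ) : ℂ) * I) • sg p (sg n u) := by
  simp only [Thl, sl2_expand]
  rw [sum_nine]
  refine Finset.sum_congr rfl fun p _ => Finset.sum_congr rfl fun n _ => ?_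
  congr 1
  rw [fBl, Complex.ofReal_sum, Finset.sum_mul]
  refine Finset.sum_congr rfl fun i _ => ?_
  push_cast
  ring

lemma Th2_eq (x : X3) (l : Fin 3) (u : S2) :
    Th2 k c θ t Q x l u = ∑ p, ∑ q, ∑ n, ((fD k c θ t Q x p q n : ℝ) : ℂ) •
      sg p (sg l (sg q (sg n u))) := by
  simp only [Th2, sl4_expand, Finset.smul_sum, smul_smul]
  rw [Finset.sum_comm]
  refine Finset.sum_congr rfl fun p _ => ?_
  rw [Finset.sum_comm]
  refine Finset.sum_congr rfl fun q _ => ?_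
  rw [Finset.sum_comm]
  refine Finset.sum_congr rfl fun n _ => ?_
  rw [← Finset.sum_smul, fD, Complex.ofReal_sum]
  congr 1
  refine Finset.sum_congr rfl fun i _ => ?_
  push_cast
  ring

lemma norm_sum9_le (f : Fin 3 → Fin 3 → ℝ) (v : Fin 3 → Fin 3 → S2) (w : ℝ) (z : ℂ) (hz : ‖z‖ = 1)
    (h : ∀ p n, ‖v p n‖ = w) :
    ‖∑ p, ∑ n, (((f p n : ℝ) : ℂ) * z) • v p n‖ ^ 2 ≤ 9 * (∑ p, ∑ n, f p n ^ 2) * w ^ 2 := by
  have h1 : ‖∑ p, ∑ n, (((f p n : ℝ) : ℂ) * z) • v p n‖ ≤ (∑ p, ∑ n, |f p n|) * w := by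
    rw [Finset.sum_mul]
    refine (norm_sum_le _ _).trans (Finset.sum_le_sum fun p _ => ?_)
    rw [Finset.sum_mul]
    refine (norm_sum_le _ _).trans (Finset.sum_le_sum fun n _ => ?_)
    rw [norm_smul, h, norm_mul, hz, mul_one]
    simp
  calc _ ≤ ((∑ p, ∑ n, |f p n|) * w) ^ 2 := by gcongr
    _ = (∑ p, ∑ n, |f p n|) ^ 2 * w ^ 2 := by ring
    _ ≤ (9 * ∑ p, ∑ n, |f p n| ^ 2) * w ^ 2 := by
        gcongr
        exact sum9 _
    _ = _ := by simp [sq_abs]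

lemma norm_Th_sq (x : X3) (u : S2) : ‖Th k c θ t Q x u‖ ^ 2 ≤ 9 * sB k c θ t Q x * ‖u‖ ^ 2 := by
  rw [Th_eq]
  exact norm_sum9_le _ _ _ I (by simp) fun p n => by rw [norm_sg_apply, norm_sg_apply]

lemma norm_Thl_sq (x : X3) (u : S2) : ‖Thl k c θ t Q x u‖ ^ 2 ≤ 9 * sBl k c θ t Q x * ‖u‖ ^ 2 := by
  rw [Thl_eq]
  exact norm_sum9_le _ _ _ I (by simp) fun p n => by rw [norm_sg_apply, norm_sg_apply]

lemma norm_Th2_sq (x : X3) (l : Fin 3) (u : S2) :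
    ‖Th2 k c θ t Q x l u‖ ^ 2 ≤ 27 * sD k c θ t Q x * ‖u‖ ^ 2 := by
  have h1 : ‖Th2 k c θ t Q x l u‖ ≤ (∑ p, ∑ q, ∑ n, |fD k c θ t Q x p q n|) * ‖u‖ := by
    rw [Th2_eq, Finset.sum_mul]
    refine (norm_sum_le _ _).trans (Finset.sum_le_sum fun p _ => ?_)
    rw [Finset.sum_mul]
    refine (norm_sum_le _ _).trans (Finset.sum_le_sum fun q _ => ?_)
    rw [Finset.sum_mul]
    refine (norm_sum_le _ _).trans (Finset.sum_le_sum fun n _ => ?_)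
    rw [norm_smul, norm_sg_apply, norm_sg_apply, norm_sg_apply, norm_sg_apply]
    simp
  calc _ ≤ ((∑ p, ∑ q, ∑ n, |fD k c θ t Q x p q n|) * ‖u‖) ^ 2 := by gcongr
    _ = (∑ p, ∑ q, ∑ n, |fD k c θ t Q x p q n|) ^ 2 * ‖u‖ ^ 2 := by ring
    _ ≤ (27 * ∑ p, ∑ q, ∑ n, |fD k c θ t Q x p q n| ^ 2) * ‖u‖ ^ 2 := by
        gcongr
        exact sum27 _
    _ = _ := by simp [sq_abs, sD]

end fields

end Pool.Agent.Helper49_Pauli
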