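import Pool.Agent.Helper49_Pauli.Interface2

/-!
# Pointwise bounds for the Dirac operator on the dressed wave function, part 2
-/

open MeasureTheory Complex

namespace Pool.Agent.Helper49_Pauli

section fields

variable {ι : Type} [Fintype ι] (k c : ι → X3) (θ : ι → ℝ) (t : ℝ) (Q : ι → ℝ)

lemma norm_add_sq_le {E : Type*} [SeminormedAddCommGroup E] (a b : E) :
    ‖a + b‖ ^ 2 ≤ 2 * ‖a‖ ^ 2 + 2 * ‖b‖ ^ 2 := by
  have := norm_add_le a b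
  nlinarith [norm_nonneg a, norm_nonneg b, norm_nonneg (a + b), sq_nonneg (‖a‖ - ‖b‖)]

lemma norm_sum3_sq_le {E : Type*} [SeminormedAddCommGroup E] (f : Fin 3 → E) :
    ‖∑ i, f i‖ ^ 2 ≤ 3 * ∑ i, ‖f i‖ ^ 2 := by
  calc ‖∑ i, f i‖ ^ 2 ≤ (∑ i, ‖f i‖) ^ 2 := by
        gcongr
        exact norm_sum_le _ _
    _ ≤ _ := sum_sq_le3 _

lemma norm_six_sq_le {E : Type*} [SeminormedAddCommGroup E] (a b c d e f : E) :
    ‖a + b - c + d + e + f‖ ^ 2 ≤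
      6 * (‖a‖ ^ 2 + ‖b‖ ^ 2 + ‖c‖ ^ 2 + ‖d‖ ^ 2 + ‖e‖ ^ 2 + ‖f‖ ^ 2) := by
  have h : ‖a + b - c + d + e + f‖ ≤ ‖a‖ + ‖b‖ + ‖c‖ + ‖d‖ + ‖e‖ + ‖f‖ := by
    refine (norm_add_le _ _).trans ?_
    gcongr
    refine (norm_add_le _ _).trans ?_
    gcongr
    refine (norm_add_le _ _).trans ?_
    gcongr
    refine (norm_sub_le _ _).trans ?_
    gcongr
    exact norm_add_le _ _
  calc ‖a + b - c + d + e + f‖ ^ 2 ≤ (‖a‖ + ‖b‖ + ‖c‖ + ‖d‖ + ‖e‖ + ‖f‖) ^ 2 := by gcongr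
    _ ≤ _ := by
      nlinarith [sq_nonneg (‖a‖ - ‖b‖), sq_nonneg (‖a‖ - ‖c‖), sq_nonneg (‖a‖ - ‖d‖),
        sq_nonneg (‖a‖ - ‖e‖), sq_nonneg (‖a‖ - ‖f‖), sq_nonneg (‖b‖ - ‖c‖), sq_nonneg (‖b‖ - ‖d‖),
        sq_nonneg (‖b‖ - ‖e‖), sq_nonneg (‖b‖ - ‖f‖), sq_nonneg (‖c‖ - ‖d‖), sq_nonneg (‖c‖ - ‖e‖),
        sq_nonneg (‖c‖ - ‖f‖), sq_nonneg (‖d‖ - ‖e‖), sq_nonneg (‖d‖ - ‖f‖), sq_nonneg (‖e‖ - ‖f‖)]

lemma norm_sqrt_smul_sq {E : Type*} [SeminormedAddCommGroup E] [NormedSpace ℂ E] {a : ℝ}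
    (ha : 0 ≤ a) (u : E) : ‖(Real.sqrt a : ℂ) • u‖ ^ 2 = a * ‖u‖ ^ 2 := by
  rw [norm_smul, mul_pow, Complex.norm_real, Real.norm_eq_abs, sq_abs, Real.sq_sqrt ha]

/-- Bound for the corrections in the dressed field. -/
lemma norm_corr_sq {a : ℝ} (ha : 0 ≤ a) (A : X3 → X3) (phi : X3 → S2) (x : X3) :
    ‖-((Real.sqrt a : ℂ) • Th k c θ t Q x (phi x)) +
          (Real.sqrt a : ℂ) • ∑ l, Th2 k c θ t Q x l (cov A l phi x)‖ ^ 2 ≤
      18 * a * sB k c θ t Q x * nsq (phi x) +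
        162 * a * sD k c θ t Q x * ∑ l, nsq (cov A l phi x) := by
  have h1 : ‖Th k c θ t Q x (phi x)‖ ^ 2 ≤ 9 * sB k c θ t Q x * nsq (phi x) :=
    (norm_Th_sq k c θ t Q x _).trans (mul_le_mul_of_nonneg_left (norm_sq_le_nsq _)
      (by have := sB_nonneg k c θ t Q x; positivity))
  have h2 : ‖∑ l, Th2 k c θ t Q x l (cov A l phi x)‖ ^ 2 ≤
      81 * sD k c θ t Q x * ∑ l, nsq (cov A l phi x) := by
    refine (norm_sum3_sq_le _).trans ?_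
    rw [Finset.mul_sum, Finset.mul_sum]
    refine Finset.sum_le_sum fun l _ => ?_
    have h3 := norm_Th2_sq k c θ t Q x l (cov A l phi x)
    have h4 := mul_le_mul_of_nonneg_left (norm_sq_le_nsq (cov A l phi x))
      (by have := sD_nonneg k c θ t Q x; positivity : 0 ≤ 27 * sD k c θ t Q x)
    calc 3 * ‖Th2 k c θ t Q x l (cov A l phi x)‖ ^ 2
        ≤ 3 * (27 * sD k c θ t Q x * nsq (cov A l phi x)) := by
          gcongr
          exact h3.trans h4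
      _ = 81 * sD k c θ t Q x * nsq (cov A l phi x) := by ring
  calc _ ≤ 2 * ‖-((Real.sqrt a : ℂ) • Th k c θ t Q x (phi x))‖ ^ 2 +
        2 * ‖(Real.sqrt a : ℂ) • ∑ l, Th2 k c θ t Q x l (cov A l phi x)‖ ^ 2 := norm_add_sq_le _ _
    _ = 2 * (a * ‖Th k c θ t Q x (phi x)‖ ^ 2) +
        2 * (a * ‖∑ l, Th2 k c θ t Q x l (cov A l phi x)‖ ^ 2) := by
        rw [norm_neg, norm_sqrt_smul_sq ha, norm_sqrt_smul_sq ha]
    _ ≤ 2 * (a * (9 * sB k c θ t Q x * nsq (phi x))) +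
        2 * (a * (81 * sD k c θ t Q x * ∑ l, nsq (cov A l phi x))) := by gcongr
    _ = _ := by ring

lemma norm_dr_sq {a : ℝ} (ha : 0 ≤ a) (A : X3 → X3) (phi : X3 → S2) (x : X3) :
    ‖dr k c θ t Q a A phi x‖ ^ 2 ≤ 2 * nsq (phi x) +
      36 * a * sB k c θ t Q x * nsq (phi x) +
        324 * a * sD k c θ t Q x * ∑ l, nsq (cov A l phi x) := by
  have h : dr k c θ t Q a A phi x = phi x + (-((Real.sqrt a : ℂ) • Th k c θ t Q x (phi x)) +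
          (Real.sqrt a : ℂ) • ∑ l, Th2 k c θ t Q x l (cov A l phi x)) := by
    rw [dr]; abel
  rw [h]
  refine (norm_add_sq_le _ _).trans ?_
  have h1 := norm_corr_sq k c θ t Q ha A phi x
  have h2 := norm_sq_le_nsq (phi x)
  linarith

lemma combineAll (n n1 n2 n3 n4 n5 n6 a sA sAl sB sBl sD p0 p1 p2 D0 e : ℝ)
    (h6 : n ≤ 6 * (n1 + n2 + n3 + n4 + n5 + n6)) (t1 : n1 ≤ D0) (t2 : n2 ≤ a * (3 * sAl * p0))
    (t3 : n3 ≤ a * (27 * sBl * p1)) (t4 : n4 ≤ a * (243 * sD * p2))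
    (t5 : n5 ≤ a * (3 * sA * (18 * a * sB * p0 + 162 * a * sD * p1)))
    (t6 : n6 ≤ 3 * e * (2 * p0 + 36 * a * sB * p0 + 324 * a * sD * p1))
    (ha : 0 ≤ a) (hA : 0 ≤ sA) (hAl : 0 ≤ sAl) (hB : 0 ≤ sB) (hBl : 0 ≤ sBl) (hD : 0 ≤ sD)
    (hp0 : 0 ≤ p0) (hp1 : 0 ≤ p1) (hp2 : 0 ≤ p2) (hD0 : 0 ≤ D0) (he : 0 ≤ e) :
    2 * n ≤ 20000 * (D0 + a * sAl * p0 + a * sBl * p1 + a * sD * p2 + a ^ 2 * (sA * sB) * p0 +
      a ^ 2 * (sA * sD) * p1 + e * (p0 + a * sB * p0 + a * sD * p1)) := by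
  have q2 : 0 ≤ a * sAl * p0 := by positivity
  have q3 : 0 ≤ a * sBl * p1 := by positivity
  have q4 : 0 ≤ a * sD * p2 := by positivity
  have q5 : 0 ≤ a ^ 2 * (sA * sB) * p0 := by positivity
  have q6 : 0 ≤ a ^ 2 * (sA * sD) * p1 := by positivity
  have q7 : 0 ≤ e * p0 := by positivity
  have q8 : 0 ≤ e * (a * sB * p0) := by positivity
  have q9 : 0 ≤ e * (a * sD * p1) := by positivity
  nlinarith

lemma bound_sl {a : ℝ} (ha : 0 ≤ a) (v : X3) (w : S2) (s : ℝ) (hs : sq v = s) :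
    ‖(Real.sqrt a : ℂ) • sl v w‖ ^ 2 ≤ a * (3 * s * nsq w) := by
  rw [norm_sqrt_smul_sq ha]
  refine mul_le_mul_of_nonneg_left ((norm_sl_sq _ _).trans ?_) ha
  rw [hs]
  refine mul_le_mul_of_nonneg_left (norm_sq_le_nsq _) ?_
  rw [← hs]
  have : 0 ≤ sq v := Finset.sum_nonneg fun _ _ => sq_nonneg _
  linarith

lemma bound_Thl {a : ℝ} (ha : 0 ≤ a) (x : X3) (w : Fin 3 → S2) :
    ‖(Real.sqrt a : ℂ) • ∑ l, sg l (Thl k c θ t Q x (w l))‖ ^ 2 ≤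
      a * (27 * sBl k c θ t Q x * ∑ l, nsq (w l)) := by
  rw [norm_sqrt_smul_sq ha]
  refine mul_le_mul_of_nonneg_left ((norm_sum3_sq_le _).trans ?_) ha
  rw [Finset.mul_sum, Finset.mul_sum]
  refine Finset.sum_le_sum fun l _ => ?_
  rw [norm_sg_apply]
  have h3 := norm_Thl_sq k c θ t Q x (w l)
  have h4 := mul_le_mul_of_nonneg_left (norm_sq_le_nsq (w l))
    (mul_nonneg (by norm_num) (sBl_nonneg k c θ t Q x) : 0 ≤ 9 * sBl k c θ t Q x)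
  have h5 := h3.trans h4
  linarith

lemma bound_Th2_aux (x : X3) (l : Fin 3) (w : Fin 3 → S2) :
    ‖∑ j, sg j (Th2 k c θ t Q x l (w j))‖ ^ 2 ≤ 81 * sD k c θ t Q x * (∑ j, nsq (w j)) := by
  refine (norm_sum3_sq_le _).trans ?_
  rw [Finset.mul_sum, Finset.mul_sum]
  refine Finset.sum_le_sum fun j _ => ?_
  rw [norm_sg_apply]
  have h3 := norm_Th2_sq k c θ t Q x l (w j)
  have h4 := mul_le_mul_of_nonneg_left (norm_sq_le_nsq (w j))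
    (mul_nonneg (by norm_num) (sD_nonneg k c θ t Q x) : 0 ≤ 27 * sD k c θ t Q x)
  have h5 := h3.trans h4
  linarith

lemma bound_Th2 {a : ℝ} (ha : 0 ≤ a) (x : X3) (w : Fin 3 → Fin 3 → S2) :
    ‖(Real.sqrt a : ℂ) • ∑ l, ∑ j, sg j (Th2 k c θ t Q x l (w l j))‖ ^ 2 ≤
      a * (243 * sD k c θ t Q x * (∑ l, ∑ j, nsq (w l j))) := by
  rw [norm_sqrt_smul_sq ha]
  refine mul_le_mul_of_nonneg_left ((norm_sum3_sq_le _).trans ?_) ha
  rw [Finset.mul_sum, Finset.mul_sum]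
  refine Finset.sum_le_sum fun l _ => ?_
  have h5 := bound_Th2_aux k c θ t Q x l (w l)
  linarith

/-- The main pointwise bound. -/
theorem nsq_dop_le (hk : ∀ i, sq (k i) ≠ 0) {a : ℝ} (ha : 0 ≤ a) {A : X3 → X3} {phi : X3 → S2}
    (hA : ContDiff ℝ (⊤ : ℕ∞) A) (hphi : ContDiff ℝ (⊤ : ℕ∞) phi) (V : X3 → X3) (x E : X3)
    (hV : V x = A x + E + Real.sqrt a • fA k c θ Q x) :
    nsq (dop V (dr k c θ t Q a A phi) x) ≤ 20000 * (nsq (∑ j, sg j (cov A j phi x)) +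
      a * sAl k c θ t Q x * nsq (phi x) +
      a * sBl k c θ t Q x * (∑ l, nsq (cov A l phi x)) +
      a * sD k c θ t Q x * (∑ l, ∑ j, nsq (cov A j (cov A l phi) x)) +
      a ^ 2 * (sA k c θ Q x * sB k c θ t Q x) * nsq (phi x) +
      a ^ 2 * (sA k c θ Q x * sD k c θ t Q x) * (∑ l, nsq (cov A l phi x)) +
      sq E * (nsq (phi x) + a * sB k c θ t Q x * nsq (phi x) +
        a * sD k c θ t Q x * (∑ l, nsq (cov A l phi x)))) := by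
  have key := dirac_dr k c θ t Q hk a hA hphi V x E hV
  refine (nsq_le _).trans ?_
  rw [dop, key]
  have t5 : ‖(Real.sqrt a : ℂ) • sl (fA k c θ Q x) (-((Real.sqrt a : ℂ) • Th k c θ t Q x (phi x)) +
          (Real.sqrt a : ℂ) • ∑ l, Th2 k c θ t Q x l (cov A l phi x))‖ ^ 2 ≤
      a * (3 * sA k c θ Q x * (18 * a * sB k c θ t Q x * nsq (phi x) +
        162 * a * sD k c θ t Q x * ∑ l, nsq (cov A l phi x))) := by
    rw [norm_sqrt_smul_sq ha]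
    refine mul_le_mul_of_nonneg_left ((norm_sl_sq _ _).trans ?_) ha
    exact mul_le_mul_of_nonneg_left (norm_corr_sq k c θ t Q ha A phi x)
      (mul_nonneg (by norm_num) (sA_nonneg k c θ Q x))
  have t6 : ‖sl E (dr k c θ t Q a A phi x)‖ ^ 2 ≤ 3 * sq E * (2 * nsq (phi x) +
      36 * a * sB k c θ t Q x * nsq (phi x) +
        324 * a * sD k c θ t Q x * ∑ l, nsq (cov A l phi x)) := by
    refine (norm_sl_sq _ _).trans ?_
    exact mul_le_mul_of_nonneg_left (norm_dr_sq k c θ t Q ha A phi x)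
      (mul_nonneg (by norm_num) (Finset.sum_nonneg fun _ _ => sq_nonneg _))
  exact combineAll _ _ _ _ _ _ _ _ _ _ _ _ _ _ _ _ _ _ (norm_six_sq_le _ _ _ _ _ _)
    (norm_sq_le_nsq _) (bound_sl ha _ _ _ rfl) (bound_Thl k c θ t Q ha x _)
    (bound_Th2 k c θ t Q ha x _) t5 t6 ha (sA_nonneg k c θ Q x) (sAl_nonneg k c θ t Q x)
    (sB_nonneg k c θ t Q x) (sBl_nonneg k c θ t Q x) (sD_nonneg k c θ t Q x) (nsq_nonneg _)
    (Finset.sum_nonneg fun _ _ => nsq_nonneg _)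
    (Finset.sum_nonneg fun _ _ => Finset.sum_nonneg fun _ _ => nsq_nonneg _) (nsq_nonneg _)
    (Finset.sum_nonneg fun _ _ => sq_nonneg _)

end fields

end Pool.Agent.Helper49_Pauli
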