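import Pool.Agent.Helper49_Pauli.Trial

/-!
# CONT: joint continuity
-/

open MeasureTheory Complex

set_option linter.unusedSectionVars false

namespace Pool.Agent.Helper49_Pauli

namespace Par

variable {ι : Type} [Fintype ι] (p : Par ι)

lemma cont_ph (i : ι) : Continuous fun z : (ι → ℝ) × X3 => ph p.k p.θ z.2 i := by
  unfold ph dot
  fun_prop

lemma cont_qof (i : ι) : Continuous fun z : (ι → ℝ) × X3 => qof p.k z.1 i := by
  unfold qof
  fun_prop

lemma cont_fsA : Continuous fun z : (ι → ℝ) × X3 => p.fsA z.1 z.2 := by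
  unfold fsA sA fA
  have h1 := p.cont_ph
  have h2 := p.cont_qof
  fun_prop

lemma cont_fsAl : Continuous fun z : (ι → ℝ) × X3 => p.fsAl z.1 z.2 := by
  unfold fsAl sAl fAl
  have h1 := p.cont_ph
  have h2 := p.cont_qof
  fun_prop

lemma cont_fsB : Continuous fun z : (ι → ℝ) × X3 => p.fsB z.1 z.2 := by
  unfold fsB sB fB
  have h1 := p.cont_ph
  have h2 := p.cont_qof
  fun_prop

lemma cont_fsBl : Continuous fun z : (ι → ℝ) × X3 => p.fsBl z.1 z.2 := by
  unfold fsBl sBl fBl
  have h1 := p.cont_ph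
  have h2 := p.cont_qof
  fun_prop

lemma cont_fsD : Continuous fun z : (ι → ℝ) × X3 => p.fsD z.1 z.2 := by
  unfold fsD sD fD
  have h1 := p.cont_ph
  have h2 := p.cont_qof
  fun_prop

lemma cont_nsq : Continuous nsq := by
  unfold nsq
  fun_prop

lemma cont_phi : Continuous p.phi := p.hphi.continuous

lemma cont_covphi (l : Fin 3) : Continuous (cov p.A l p.phi) := (p.covphi_contDiff l).continuous

lemma cont_covcovphi (j l : Fin 3) : Continuous (cov p.A j (cov p.A l p.phi)) :=
  (cov_differentiable p.A_contDiff (p.covphi_contDiff l) j).continuous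

lemma cont_w : Continuous p.w := by
  unfold w
  have : Continuous sq := sq_contDiff.continuous
  fun_prop

lemma cont_p0 : Continuous p.p0 := cont_nsq.comp p.cont_phi

lemma cont_p1 : Continuous p.p1 := by
  unfold p1
  exact continuous_finsetSum _ fun l _ => cont_nsq.comp (p.cont_covphi l)

lemma cont_p2 : Continuous p.p2 := by
  unfold p2
  exact continuous_finsetSum _ fun l _ => continuous_finsetSum _ fun j _ =>
    cont_nsq.comp (p.cont_covcovphi j l)

lemma cont_sg (j : Fin 3) : Continuous fun u : S2 => sg j u := (toR (sg j)).continuous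

lemma cont_pd : Continuous p.pd := by
  unfold pd
  exact cont_nsq.comp (continuous_finsetSum _ fun j _ => (cont_sg j).comp (p.cont_covphi j))

lemma cont_E : Continuous fun x => sq (p.E x) := by
  have h0 : Continuous sq := sq_contDiff.continuous
  have h1 : Continuous p.E := by
    unfold E
    refine continuous_pi fun j => ?_
    have h2 : Continuous fun x => fA p.k p.c p.θ (qof p.k p.η) x j := by
      unfold fA ph dot
      fun_prop
    have h3 : Continuous fun x => fderiv ℝ p.g x (Pi.single j 1) :=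
      (p.hg.continuous_fderiv (by simp)).clm_apply continuous_const
    have h4 : Continuous fun x => p.A x j := (continuous_apply j).comp p.A_contDiff.continuous
    exact ((continuous_const.mul h2).sub h3).sub h4
  exact h0.comp h1

lemma cont_Th {v : X3 → S2} (hv : Continuous v) :
    Continuous fun z : (ι → ℝ) × X3 => Th p.k p.c p.θ p.t (qof p.k z.1) z.2 (v z.2) := by
  unfold Th
  refine continuous_finsetSum _ fun i _ => ?_
  have h1 := p.cont_ph i
  have h2 := p.cont_qof i
  have h3 : Continuous fun z : (ι → ℝ) × X3 => sl (p.k i) (sl (p.c i) (v z.2)) :=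
    ((toR (sl (p.k i) * sl (p.c i))).continuous.comp hv).comp continuous_snd
  have h4 : Continuous fun z : (ι → ℝ) × X3 =>
      (((qof p.k z.1 i * vt p.t (sq (p.k i)) * Real.sin (ph p.k p.θ z.2 i) : ℝ) : ℂ) * I) := by
    fun_prop
  exact h4.smul h3

lemma cont_Th2 (l : Fin 3) {v : X3 → S2} (hv : Continuous v) :
    Continuous fun z : (ι → ℝ) × X3 => Th2 p.k p.c p.θ p.t (qof p.k z.1) z.2 l (v z.2) := by
  unfold Th2
  refine continuous_finsetSum _ fun i _ => ?_
  have h1 := p.cont_ph i
  have h2 := p.cont_qof i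
  have h3 : Continuous fun z : (ι → ℝ) × X3 => sl (p.k i) (sg l (sl (p.k i) (sl (p.c i) (v z.2)))) :=
    ((toR (sl (p.k i) * sg l * sl (p.k i) * sl (p.c i))).continuous.comp hv).comp continuous_snd
  have h4 : Continuous fun z : (ι → ℝ) × X3 =>
      ((qof p.k z.1 i * vt p.t (sq (p.k i)) ^ 2 * Real.cos (ph p.k p.θ z.2 i) : ℝ) : ℂ) := by
    fun_prop
  exact h4.smul h3

lemma cont_dl : Continuous fun z : (ι → ℝ) × X3 => p.dl z.1 z.2 := by
  unfold dl
  refine ((p.cont_Th p.cont_phi).const_smul (Real.sqrt p.a : ℂ)).neg.add ?_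
  exact (continuous_finsetSum _ fun l _ => p.cont_Th2 l (p.cont_covphi l)).const_smul
    (Real.sqrt p.a : ℂ)

lemma cont_bd : Continuous fun z : (ι → ℝ) × X3 => p.bd z.1 z.2 := by
  have h1 := p.cont_fsA
  have h2 := p.cont_fsAl
  have h3 := p.cont_fsB
  have h4 := p.cont_fsBl
  have h5 := p.cont_fsD
  have h6 : Continuous fun z : (ι → ℝ) × X3 => p.p0 z.2 := p.cont_p0.comp continuous_snd
  have h7 : Continuous fun z : (ι → ℝ) × X3 => p.p1 z.2 := p.cont_p1.comp continuous_snd
  have h8 : Continuous fun z : (ι → ℝ) × X3 => p.p2 z.2 := p.cont_p2.comp continuous_snd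
  have h9 : Continuous fun z : (ι → ℝ) × X3 => p.pd z.2 := p.cont_pd.comp continuous_snd
  have h10 : Continuous fun z : (ι → ℝ) × X3 => sq (p.E z.2) := p.cont_E.comp continuous_snd
  unfold bd
  fun_prop

lemma nsq_zero' : nsq (0 : S2) = 0 := by simp [nsq]

lemma covcov_zero {j l : Fin 3} {x : X3} (hx : x ∉ tsupport p.phi) :
    cov p.A j (cov p.A l p.phi) x = 0 := by
  refine cov_zero_of_notMem (fun h => hx ?_) (p.covphi_contDiff l)
  have hsub : tsupport (cov p.A l p.phi) ⊆ tsupport p.phi := by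
    refine closure_minimal (fun y hy => ?_) (isClosed_tsupport _)
    by_contra hne
    exact hy (cov_zero_of_notMem hne p.hphi)
  exact hsub h

lemma comp_p0 : HasCompactSupport p.p0 := HasCompactSupport.intro p.hphic fun x hx => by
  rw [p0, image_eq_zero_of_notMem_tsupport hx, nsq_zero']

lemma comp_p1 : HasCompactSupport p.p1 := HasCompactSupport.intro p.hphic fun x hx => by
  simp [p1, cov_zero_of_notMem hx p.hphi, nsq_zero']

lemma comp_p2 : HasCompactSupport p.p2 := HasCompactSupport.intro p.hphic fun x hx => by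
  simp [p2, p.covcov_zero hx, nsq_zero']

lemma comp_pd : HasCompactSupport p.pd := HasCompactSupport.intro p.hphic fun x hx => by
  simp [pd, cov_zero_of_notMem hx p.hphi, nsq_zero']

lemma dl_add (y z : ι → ℝ) (x : X3) : p.dl (y + z) x = p.dl y x + p.dl z x := by
  classical
  rw [p.dl_eq_sum, p.dl_eq_sum y, p.dl_eq_sum z, ← Finset.sum_add_distrib]
  refine Finset.sum_congr rfl fun i _ => ?_
  rw [← add_smul, Pi.add_apply, Complex.ofReal_add]

lemma dl_smul (r : ℝ) (y : ι → ℝ) (x : X3) : p.dl (r • y) x = (r : ℂ) • p.dl y x := by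
  classical
  rw [p.dl_eq_sum, p.dl_eq_sum y, Finset.smul_sum]
  refine Finset.sum_congr rfl fun i _ => ?_
  rw [smul_smul, Pi.smul_apply, smul_eq_mul, Complex.ofReal_mul]

lemma dl_zero (x : X3) : p.dl (0 : ι → ℝ) x = 0 := by
  classical
  rw [p.dl_eq_sum]
  simp

end Par

theorem contS : ContStatement := by
  intro ι _ p
  exact ⟨p.cont_bd, p.cont_dl, p.cont_fsB, p.cont_fsD, p.cont_fsBl, p.cont_fsAl, p.cont_fsA,
    p.cont_w, p.cont_p0, p.cont_p1, p.cont_p2, p.cont_pd, p.cont_E, p.comp_p0, p.comp_p1,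
    p.comp_p2, p.comp_pd, p.dl_zero, p.dl_add, p.dl_smul⟩

end Pool.Agent.Helper49_Pauli
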