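import Mathlib

/-!
# The Pauli-Fierz Hamiltonian of one free spin 1/2 electron in a periodic photon box

Statement level definitions for MP_8cfbae_mp.  Units: hbar = c = 1, bare mass 1.

* `wave L n` is the photon momentum `k = (2 pi / L) n`, `freq L n = |k|`;
* `momenta cut L` is the set of all `n` with `0 < |k| < cut`;
* a mode is a pair (momentum, polarization index in `Fin 2`);
* `Bosons M D` : annihilation and creation operators for the modes `M` on the complex
  pre-Hilbert space `D`, with the canonical commutation relations, adjointness, and a vacuum;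
* `Bosons.Cyclic`: the creation operators generate all of `D` from the vacuum, i.e. `D` is the
  space of finite particle vectors of the bosonic Fock space;
* `potential`, `fieldEnergy`, `dirac`, `hamiltonian` are `A(x)`, `H_f`, `sigma . (p + sqrt(a) A(x))`
  and `H = (1/2) (sigma . (p + sqrt(a) A(x)))^2 + H_f`.
-/

open MeasureTheory Complex

namespace Pool.Agent.Helper49_Pauli

/-- Position space. -/
abbrev X3 := Fin 3 → ℝ

/-- The photon momentum `k = (2 pi / L) n`. -/
noncomputable def wave (L : ℝ) (n : Fin 3 → ℤ) : X3 := fun j => 2 * Real.pi / L * (n j : ℝ)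

/-- The scalar product of two vectors. -/
def dot (k x : X3) : ℝ := ∑ j, k j * x j

/-- The square of the Euclidean length. -/
def sq (x : X3) : ℝ := ∑ j, x j ^ 2

/-- The photon energy `|k|`. -/
noncomputable def freq (L : ℝ) (n : Fin 3 → ℤ) : ℝ := Real.sqrt (sq (wave L n))

open Classical in
/-- The photon momenta `0 < |k| < cut` in the box of side `L` (a finite set for `L > 0`). -/
noncomputable def momenta (cut L : ℝ) : Finset (Fin 3 → ℤ) :=
  if h : {n : Fin 3 → ℤ | n ≠ 0 ∧ freq L n < cut}.Finite then h.toFinset else ∅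

/-- Mode-polarization pairs. -/
abbrev Mode (cut L : ℝ) := {n : Fin 3 → ℤ // n ∈ momenta cut L} × Fin 2

/-- Annihilation and creation operators of a family of bosonic modes, with a vacuum. -/
structure Bosons (M D : Type) [DecidableEq M] [NormedAddCommGroup D] [InnerProductSpace ℂ D] where
  /-- annihilation operators -/
  a : M → D →ₗ[ℂ] D
  /-- creation operators -/
  ad : M → D →ₗ[ℂ] D
  adj : ∀ m u v, inner ℂ (ad m u) v = inner ℂ u (a m v)
  ccr : ∀ m n v, a m (ad n v) - ad n (a m v) = if m = n then v else 0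
  ccr' : ∀ m n v, a m (a n v) = a n (a m v)
  /-- the vacuum -/
  vac : D
  norm_vac : ‖vac‖ = 1
  a_vac : ∀ m, a m vac = 0

/-- The vacuum is cyclic: `D` is spanned by creation operators applied to the vacuum. -/
def Bosons.Cyclic {M D : Type} [DecidableEq M] [NormedAddCommGroup D] [InnerProductSpace ℂ D]
    (F : Bosons M D) : Prop :=
  ∀ W : Submodule ℂ D, F.vac ∈ W → (∀ m v, v ∈ W → F.ad m v ∈ W) → W = ⊤

/-- Polarization vectors: for each momentum `n ≠ 0` two real vectors which are orthonormal and
orthogonal to `k`. -/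
structure Polarization (L : ℝ) where
  /-- the polarization vectors -/
  e : (Fin 3 → ℤ) → Fin 2 → X3
  orthonormal : ∀ n, n ≠ 0 → ∀ l m, dot (e n l) (e n m) = if l = m then 1 else 0
  transverse : ∀ n, n ≠ 0 → ∀ l, dot (wave L n) (e n l) = 0

section operators

variable {D : Type} [NormedAddCommGroup D] [InnerProductSpace ℂ D] {cut L : ℝ}

/-- The component `j` of the cutoff vector potential `A(x)`, as an operator on Fock space:
`sum over k, l of (e_l(k))_j / sqrt(2 V |k|) (e^(i k x) a_l(k) + e^(-i k x) a*_l(k))`,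
with `V = L^3`. -/
noncomputable def potential (F : Bosons (Mode cut L) D) (P : Polarization L) (x : X3) (j : Fin 3)
    (v : D) : D :=
  ∑ m : Mode cut L, ((P.e m.1 m.2 j / Real.sqrt (2 * L ^ 3 * freq L m.1) : ℝ) : ℂ) •
    (cexp (I * (dot (wave L m.1) x : ℂ)) • F.a m v + cexp (-(I * (dot (wave L m.1) x : ℂ))) • F.ad m v)

/-- The field energy `H_f = sum over k, l of |k| a*_l(k) a_l(k)`. -/
noncomputable def fieldEnergy (F : Bosons (Mode cut L) D) (v : D) : D :=
  ∑ m : Mode cut L, (freq L m.1 : ℂ) • F.ad m (F.a m v)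

/-- `sigma . w = sigma_1 w_1 + sigma_2 w_2 + sigma_3 w_3` for the Pauli matrices. -/
noncomputable def pauliDot (w : Fin 3 → Fin 2 → D) : Fin 2 → D :=
  ![w 0 1 - I • w 1 1 + w 2 0, w 0 0 + I • w 1 0 - w 2 1]

/-- The operator `sigma . (p + sqrt(alpha) A(x))`, where `p = -i grad`. -/
noncomputable def dirac (alpha : ℝ) (F : Bosons (Mode cut L) D) (P : Polarization L)
    (psi : X3 → Fin 2 → D) (x : X3) : Fin 2 → D :=
  pauliDot fun j s => (-I) • fderiv ℝ (fun y => psi y s) x (Pi.single j 1) +
    (Real.sqrt alpha : ℂ) • potential F P x j (psi x s)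

/-- The Pauli Hamiltonian `H = (1/2) (sigma . (p + sqrt(alpha) A(x)))^2 + H_f`. -/
noncomputable def hamiltonian (alpha : ℝ) (F : Bosons (Mode cut L) D) (P : Polarization L)
    (psi : X3 → Fin 2 → D) (x : X3) (s : Fin 2) : D :=
  (1 / 2 : ℂ) • dirac alpha F P (dirac alpha F P psi) x s + fieldEnergy F (psi x s)

/-- The wave functions: smooth, compactly supported in the electron position, with values in a
finite dimensional subspace of (finite particle) Fock space. -/
def IsState (psi : X3 → Fin 2 → D) : Prop :=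
  (∀ s, ContDiff ℝ (⊤ : ℕ∞) fun x => psi x s) ∧ (∀ s, HasCompactSupport fun x => psi x s) ∧
    ∃ W : Submodule ℂ D, FiniteDimensional ℂ W ∧ ∀ x s, psi x s ∈ W

/-- `‖psi‖^2`. -/
noncomputable def normSq (psi : X3 → Fin 2 → D) : ℝ := ∫ x, ∑ s, ‖psi x s‖ ^ 2

/-- The expectation value `⟨psi, H psi⟩`. -/
noncomputable def energy (alpha : ℝ) (F : Bosons (Mode cut L) D) (P : Polarization L)
    (psi : X3 → Fin 2 → D) : ℝ :=
  ∫ x, ∑ s, (inner ℂ (psi x s) (hamiltonian alpha F P psi x s)).re

/-- The self-energy `E_0 = inf ⟨psi, H psi⟩ / ‖psi‖^2`. -/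
noncomputable def selfEnergy (alpha : ℝ) (F : Bosons (Mode cut L) D) (P : Polarization L) : ℝ :=
  sInf {E : ℝ | ∃ psi, IsState psi ∧ normSq psi ≠ 0 ∧
    E = energy alpha F P psi / normSq psi}

end operators

end Pool.Agent.Helper49_Pauli
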