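import Pool.Agent.Helper49_Pauli.Interface3

/-!
# TRIAL: the trial function
-/

open MeasureTheory Complex

set_option linter.unusedSectionVars false

namespace Pool.Agent.Helper49_Pauli

lemma nsq_smul' (z : ℂ) (u : S2) : nsq (z • u) = ‖z‖ ^ 2 * nsq u := by
  simp only [nsq, Pi.smul_apply, smul_eq_mul, norm_mul, mul_pow, Finset.mul_sum]

namespace Par

variable {ι : Type} [Fintype ι] (p : Par ι)

lemma norm_ex (x : X3) : ‖p.ex x‖ = 1 := by
  rw [ex, Complex.norm_exp]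
  simp

lemma ex_contDiff : ContDiff ℝ (⊤ : ℕ∞) p.ex := by
  have h1 : ContDiff ℝ (⊤ : ℕ∞) fun x => ((p.g x : ℝ) : ℂ) := Complex.ofRealCLM.contDiff.comp p.hg
  exact (contDiff_const.mul h1).neg.cexp

lemma sq_zero_iff' {v : X3} : sq v = 0 ↔ v = 0 := by
  constructor
  · intro h
    rw [sq, Finset.sum_eq_zero_iff_of_nonneg (fun _ _ => sq_nonneg _)] at h
    ext j
    exact pow_eq_zero_iff (two_ne_zero) |>.1 (h j (Finset.mem_univ _))
  · rintro rfl
    simp [sq]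

lemma sq_contDiff : ContDiff ℝ (⊤ : ℕ∞) sq := by
  unfold sq
  exact ContDiff.sum fun j _ => (contDiff_apply ℝ ℝ j).pow 2

lemma trapA_contDiff : ContDiff ℝ (⊤ : ℕ∞) trapA := by
  rw [contDiff_pi]
  intro j
  have h1 : ContDiff ℝ (⊤ : ℕ∞) fun x : X3 => (1 + sq x)⁻¹ := by
    refine (contDiff_const.add sq_contDiff).inv fun x => ?_
    have : 0 ≤ sq x := Finset.sum_nonneg fun _ _ => sq_nonneg _
    positivity
  have hj : ∀ i : Fin 3, ContDiff ℝ (⊤ : ℕ∞) fun x : X3 => x i := fun i => contDiff_apply ℝ ℝ i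
  have h2 : ContDiff ℝ (⊤ : ℕ∞) fun x : X3 => (![-x 1, x 0, 0] : X3) j := by
    fin_cases j
    · simpa using (hj 1).neg
    · simpa using hj 0
    · simpa using contDiff_const
  unfold trapA
  exact (contDiff_const.mul (h1.pow 2)).mul ((((contDiff_const.sub sq_contDiff).mul
    contDiff_const).add ((contDiff_const.mul (hj 2)).mul (hj j))).add (contDiff_const.mul h2))

lemma trapR_contDiff (R : ℝ) : ContDiff ℝ (⊤ : ℕ∞) (trapR R) :=
  (trapA_contDiff.comp (contDiff_id.const_smul R⁻¹)).const_smul R⁻¹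

lemma A_contDiff : ContDiff ℝ (⊤ : ℕ∞) p.A := trapR_contDiff p.R

lemma Th_contDiff (Q : ι → ℝ) {v : X3 → S2} (hv : ContDiff ℝ (⊤ : ℕ∞) v) :
    ContDiff ℝ (⊤ : ℕ∞) fun x => Th p.k p.c p.θ p.t Q x (v x) := by
  unfold Th
  refine ContDiff.sum fun i _ => ?_
  have h1 : ContDiff ℝ (⊤ : ℕ∞) fun x => toR (sl (p.k i) * sl (p.c i)) (v x) :=
    (toR (sl (p.k i) * sl (p.c i))).contDiff.comp hv
  have h2 : ContDiff ℝ (⊤ : ℕ∞) fun x : X3 => ph p.k p.θ x i := by
    unfold ph dot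
    exact (ContDiff.sum fun j _ => contDiff_const.mul (contDiff_apply ℝ ℝ j)).sub contDiff_const
  have h3 : ContDiff ℝ (⊤ : ℕ∞) fun x : X3 =>
      (((Q i * vt p.t (sq (p.k i)) * Real.sin (ph p.k p.θ x i) : ℝ) : ℂ) * I) :=
    (Complex.ofRealCLM.contDiff.comp (contDiff_const.mul h2.sin)).mul contDiff_const
  exact h3.smul h1

lemma Th2_contDiff (Q : ι → ℝ) (l : Fin 3) {v : X3 → S2} (hv : ContDiff ℝ (⊤ : ℕ∞) v) :
    ContDiff ℝ (⊤ : ℕ∞) fun x => Th2 p.k p.c p.θ p.t Q x l (v x) := by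
  unfold Th2
  refine ContDiff.sum fun i _ => ?_
  have h1 : ContDiff ℝ (⊤ : ℕ∞) fun x => toR (sl (p.k i) * sg l * sl (p.k i) * sl (p.c i)) (v x) :=
    (toR (sl (p.k i) * sg l * sl (p.k i) * sl (p.c i))).contDiff.comp hv
  have h2 : ContDiff ℝ (⊤ : ℕ∞) fun x : X3 => ph p.k p.θ x i := by
    unfold ph dot
    exact (ContDiff.sum fun j _ => contDiff_const.mul (contDiff_apply ℝ ℝ j)).sub contDiff_const
  have h3 : ContDiff ℝ (⊤ : ℕ∞) fun x : X3 =>
      ((Q i * vt p.t (sq (p.k i)) ^ 2 * Real.cos (ph p.k p.θ x i) : ℝ) : ℂ) :=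
    Complex.ofRealCLM.contDiff.comp (contDiff_const.mul h2.cos)
  exact h3.smul h1

lemma covphi_contDiff (l : Fin 3) : ContDiff ℝ (⊤ : ℕ∞) (cov p.A l p.phi) :=
  cov_differentiable p.A_contDiff p.hphi l

lemma dl_contDiff (y : ι → ℝ) : ContDiff ℝ (⊤ : ℕ∞) (p.dl y) := by
  unfold dl
  refine ((p.Th_contDiff _ p.hphi).const_smul (Real.sqrt p.a : ℂ)).neg.add ?_
  exact (ContDiff.sum fun l _ => p.Th2_contDiff _ l (p.covphi_contDiff l)).const_smul
    (Real.sqrt p.a : ℂ)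

lemma Th_zero (Q : ι → ℝ) (x : X3) : Th p.k p.c p.θ p.t Q x 0 = 0 := by
  simp [Th]

lemma Th2_zero (Q : ι → ℝ) (x : X3) (l : Fin 3) : Th2 p.k p.c p.θ p.t Q x l 0 = 0 := by
  simp [Th2]

lemma cov_zero_of_notMem {A : X3 → X3} {l : Fin 3} {phi : X3 → S2} {x : X3}
    (h : x ∉ tsupport phi) (hphi : ContDiff ℝ (⊤ : ℕ∞) phi) : cov A l phi x = 0 := by
  have h0 : phi x = 0 := image_eq_zero_of_notMem_tsupport h
  have h1 : fderiv ℝ phi x = 0 := by
    have := support_fderiv_subset ℝ (f := phi)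
    by_contra hne
    exact h (this hne)
  rw [cov_eq A l phi x (hphi.differentiable (by simp)).differentiableAt, h0, h1]
  simp

lemma dl_zero_of_notMem (y : ι → ℝ) {x : X3} (h : x ∉ tsupport p.phi) : p.dl y x = 0 := by
  have h0 : p.phi x = 0 := image_eq_zero_of_notMem_tsupport h
  simp only [dl, h0, cov_zero_of_notMem h p.hphi, Th_zero, Th2_zero]
  simp

lemma compact_of_zero {f : X3 → S2} (h : ∀ x, x ∉ tsupport p.phi → f x = 0) :
    HasCompactSupport f := HasCompactSupport.intro p.hphic (fun x hx => h x hx)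

lemma u_contDiff [DecidableEq ι] (i : ι) : ContDiff ℝ (⊤ : ℕ∞) (p.u i) :=
  p.ex_contDiff.smul (p.dl_contDiff _)

lemma u0_contDiff [DecidableEq ι] : ContDiff ℝ (⊤ : ℕ∞) p.u0 :=
  p.ex_contDiff.smul (p.hphi.sub (ContDiff.sum fun i _ => (p.dl_contDiff _).const_smul (p.η i : ℂ)))

lemma u_compact [DecidableEq ι] (i : ι) : HasCompactSupport (p.u i) :=
  p.compact_of_zero fun x hx => by rw [u, p.dl_zero_of_notMem _ hx, smul_zero]

lemma u0_compact [DecidableEq ι] : HasCompactSupport p.u0 :=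
  p.compact_of_zero fun x hx => by
    have h0 : p.phi x = 0 := image_eq_zero_of_notMem_tsupport hx
    simp [u0, p.dl_zero_of_notMem _ hx, h0]

/-- The basic dressing vectors. -/
lemma dl_eq_sum [DecidableEq ι] (y : ι → ℝ) (x : X3) :
    p.dl y x = ∑ i, (y i : ℂ) • p.dl (Pi.single i 1) x := by
  have hq : ∀ i j, qof p.k (Pi.single i 1) j =
      if j = i then 1 / Real.sqrt (2 * Real.sqrt (sq (p.k i))) else 0 := by
    intro i j
    rw [qof, Pi.single_apply]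
    split_ifs with h
    · rw [h]
    · simp
  have hT : ∀ v : S2, Th p.k p.c p.θ p.t (qof p.k y) x v =
      ∑ i, (y i : ℂ) • Th p.k p.c p.θ p.t (qof p.k (Pi.single i 1)) x v := by
    intro v
    unfold Th
    refine Finset.sum_congr rfl fun i _ => ?_
    rw [Finset.sum_eq_single i]
    · rw [hq, if_pos rfl, smul_smul, qof]
      congr 1
      push_cast
      ring
    · intro j _ hj
      rw [hq, if_neg hj]
      simp
    · intro h; exact absurd (Finset.mem_univ _) h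
  have hT2 : ∀ l, ∀ v : S2, Th2 p.k p.c p.θ p.t (qof p.k y) x l v =
      ∑ i, (y i : ℂ) • Th2 p.k p.c p.θ p.t (qof p.k (Pi.single i 1)) x l v := by
    intro l v
    unfold Th2
    refine Finset.sum_congr rfl fun i _ => ?_
    rw [Finset.sum_eq_single i]
    · rw [hq, if_pos rfl, smul_smul, qof]
      congr 1
      push_cast
      ring
    · intro j _ hj
      rw [hq, if_neg hj]
      simp
    · intro h; exact absurd (Finset.mem_univ _) h
  unfold dl
  simp only [smul_add, Finset.sum_add_distrib]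
  congr 1
  · rw [hT, Finset.smul_sum, ← Finset.sum_neg_distrib]
    refine Finset.sum_congr rfl fun i _ => ?_
    rw [smul_neg, smul_comm]
  · simp only [hT2]
    rw [Finset.sum_comm, Finset.smul_sum]
    refine Finset.sum_congr rfl fun i _ => ?_
    rw [← Finset.smul_sum, smul_comm]

lemma wf_eq [DecidableEq ι] (y : ι → ℝ) (x : X3) :
    wf p.u0 p.u y x = p.ex x • (p.phi x + p.dl (fun i => y i - p.η i) x) := by
  rw [wf, u0, p.dl_eq_sum (fun i => y i - p.η i)]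
  have h1 : ∀ i, (y i : ℂ) • p.u i x = p.ex x • ((y i : ℂ) • p.dl (Pi.single i 1) x) := by
    intro i
    rw [u, smul_comm]
  simp only [h1]
  rw [← Finset.smul_sum, ← smul_add]
  congr 1
  have h2 : ∀ i, ((y i - p.η i : ℝ) : ℂ) • p.dl (Pi.single i 1) x =
      (y i : ℂ) • p.dl (Pi.single i 1) x - (p.η i : ℂ) • p.dl (Pi.single i 1) x := by
    intro i
    rw [Complex.ofReal_sub, sub_smul]
  simp only [h2, Finset.sum_sub_distrib]
  abel

lemma dr_eq (y : ι → ℝ) (x : X3) :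
    dr p.k p.c p.θ p.t (qof p.k y) p.a p.A p.phi x = p.phi x + p.dl y x := by
  rw [dr, dl]
  abel

/-- Gauge transformation. -/
lemma cov_gauge (V : X3 → X3) (j : Fin 3) {f : X3 → S2} (hf : ContDiff ℝ (⊤ : ℕ∞) f) (x : X3) :
    cov V j (fun x => p.ex x • f x) x =
      p.ex x • cov (fun x => fun j => V x j - fderiv ℝ p.g x (Pi.single j 1)) j f x := by
  have hfd : DifferentiableAt ℝ f x := (hf.differentiable (by simp)).differentiableAt
  have hgd : DifferentiableAt ℝ p.g x := (p.hg.differentiable (by simp)).differentiableAt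
  have hex : HasFDerivAt p.ex (p.ex x • (-(I • (Complex.ofRealCLM.comp (fderiv ℝ p.g x))))) x := by
    have h1 : HasFDerivAt (fun x => ((p.g x : ℝ) : ℂ)) (Complex.ofRealCLM.comp (fderiv ℝ p.g x)) x :=
      Complex.ofRealCLM.hasFDerivAt.comp x hgd.hasFDerivAt
    have h2 : HasFDerivAt (fun x => -(I * ((p.g x : ℝ) : ℂ)))
        (-(I • (Complex.ofRealCLM.comp (fderiv ℝ p.g x)))) x := (h1.const_mul I).neg
    exact h2.cexp
  have hprod : HasFDerivAt (fun x => p.ex x • f x) (p.ex x • fderiv ℝ f x +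
      (p.ex x • (-(I • (Complex.ofRealCLM.comp (fderiv ℝ p.g x))))).smulRight (f x)) x :=
    hex.smul hfd.hasFDerivAt
  rw [cov_eq V j _ x hprod.differentiableAt, cov_eq _ j f x hfd, hprod.fderiv]
  ext s
  simp only [Pi.add_apply, Pi.smul_apply, smul_eq_mul, _root_.add_apply,
    _root_.smul_apply, ContinuousLinearMap.smulRight_apply, _root_.neg_apply,
    ContinuousLinearMap.comp_apply, Complex.ofRealCLM_apply, Complex.ofReal_sub]
  have : I * I = -1 := I_mul_I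
  linear_combination (p.ex x * (((fderiv ℝ p.g x) (Pi.single j 1) : ℝ) : ℂ) * f x s) * this

lemma dop_gauge (V : X3 → X3) {f : X3 → S2} (hf : ContDiff ℝ (⊤ : ℕ∞) f) (x : X3) :
    dop V (fun x => p.ex x • f x) x =
      p.ex x • dop (fun x => fun j => V x j - fderiv ℝ p.g x (Pi.single j 1)) f x := by
  unfold dop
  rw [Finset.smul_sum]
  refine Finset.sum_congr rfl fun j _ => ?_
  rw [p.cov_gauge V j hf x, map_smul]

lemma fA_add (Q Q' : ι → ℝ) (x : X3) :
    fA p.k p.c p.θ (fun i => Q i + Q' i) x = fA p.k p.c p.θ Q x + fA p.k p.c p.θ Q' x := by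
  ext n
  simp only [fA, Pi.add_apply, ← Finset.sum_add_distrib]
  exact Finset.sum_congr rfl fun i _ => by ring

lemma phi_dl_contDiff (y : ι → ℝ) : ContDiff ℝ (⊤ : ℕ∞) fun x => p.phi x + p.dl y x :=
  p.hphi.add (p.dl_contDiff y)

lemma nsq_dop_wf_le [DecidableEq ι] (y : ι → ℝ) (x : X3) :
    nsq (dop (vp p.a p.k p.c p.θ y) (wf p.u0 p.u y) x) ≤ p.bd (fun i => y i - p.η i) x := by
  have h1 : (wf p.u0 p.u y) = fun x => p.ex x • (p.phi x + p.dl (fun i => y i - p.η i) x) := by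
    ext1 x
    exact p.wf_eq y x
  rw [h1, p.dop_gauge _ (p.phi_dl_contDiff _), nsq_smul', p.norm_ex, one_pow, one_mul]
  have h2 : (fun x => p.phi x + p.dl (fun i => y i - p.η i) x) =
      dr p.k p.c p.θ p.t (qof p.k (fun i => y i - p.η i)) p.a p.A p.phi := by
    ext1 x
    rw [p.dr_eq]
  rw [h2]
  refine nsq_dop_le p.k p.c p.θ p.t (qof p.k (fun i => y i - p.η i)) (fun i => (p.hk i).ne') p.ha
    p.A_contDiff p.hphi _ x (p.E x) ?_
  ext j
  have h3 : (fun i => y i / Real.sqrt (2 * Real.sqrt (sq (p.k i)))) =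
      fun i => qof p.k p.η i + qof p.k (fun i => y i - p.η i) i := by
    ext1 i
    simp only [qof]
    ring
  simp only [vp, h3, Pi.add_apply, Pi.smul_apply, smul_eq_mul, E]
  rw [p.fA_add, Pi.add_apply]
  ring

lemma vt_nonneg {t w : ℝ} (ht : 0 ≤ t) (hw : 0 < w) : 0 ≤ vt t w := by
  refine div_nonneg ?_ hw.le
  have : Real.exp (-(t * w)) ≤ 1 := Real.exp_le_one_iff.2 (by nlinarith)
  linarith

lemma vt_le {t w : ℝ} (hw : 0 < w) : vt t w ≤ t := by
  rw [vt, div_le_iff₀ hw]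
  have := Real.add_one_le_exp (-(t * w))
  linarith

lemma vt_mul_le {t w : ℝ} (hw : 0 < w) : vt t w * w ≤ 1 := by
  rw [vt_mul hw.ne']
  have := Real.exp_pos (-(t * w))
  linarith

/-- `v^2 w ≤ t` -/
lemma vt_sq_mul_le {t w : ℝ} (ht : 0 ≤ t) (hw : 0 < w) : vt t w ^ 2 * w ≤ t := by
  have h1 := vt_mul_le (t := t) hw
  have h2 := vt_le (t := t) hw
  have h3 := vt_nonneg ht hw
  calc vt t w ^ 2 * w = vt t w * (vt t w * w) := by ring
    _ ≤ vt t w * 1 := by gcongr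
    _ ≤ t := by linarith

lemma vt_four_mul_le {t w : ℝ} (ht : 0 ≤ t) (hw : 0 < w) : vt t w ^ 4 * w ^ 2 ≤ t ^ 2 := by
  have h := vt_sq_mul_le ht hw
  have h0 : 0 ≤ vt t w ^ 2 * w := by positivity
  calc vt t w ^ 4 * w ^ 2 = (vt t w ^ 2 * w) ^ 2 := by ring
    _ ≤ t ^ 2 := by gcongr

lemma ht : 0 < p.t := lt_of_lt_of_le p.hτ p.hτt

lemma om_pos (i : ι) : 0 < p.om i := Real.sqrt_pos.2 (p.hk i)

lemma qof_single_sq [DecidableEq ι] (i : ι) :
    p.om i * (qof p.k (Pi.single i 1) i) ^ 2 = 1 / 2 := by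
  have h := p.om_pos i
  rw [qof, Pi.single_eq_same, div_pow, one_pow, Real.sq_sqrt (by unfold om at h; linarith)]
  unfold om at h ⊢
  field_simp

lemma sum_single_eq [DecidableEq ι] (i : ι) (f : ι → ℝ) :
    ∑ j, qof p.k (Pi.single i 1) j * f j = qof p.k (Pi.single i 1) i * f i := by
  rw [Finset.sum_eq_single i]
  · intro j _ hj
    rw [qof, Pi.single_eq_of_ne hj]
    simp
  · intro h; exact absurd (Finset.mem_univ _) h

lemma fsB_single [DecidableEq ι] (i : ι) (x : X3) :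
    p.om i * p.fsB (Pi.single i 1) x ≤ p.t / 2 * sq (p.c i) := by
  have h1 : ∀ a n, fB p.k p.c p.θ p.t (qof p.k (Pi.single i 1)) x a n =
      qof p.k (Pi.single i 1) i * (vt p.t (sq (p.k i)) * p.k i a *
        Real.sin (ph p.k p.θ x i) * p.c i n) := by
    intro a n
    rw [fB, ← p.sum_single_eq i (fun i => vt p.t (sq (p.k i)) * p.k i a *
        Real.sin (ph p.k p.θ x i) * p.c i n)]
    exact Finset.sum_congr rfl fun j _ => by ring
  have h2 : p.fsB (Pi.single i 1) x = (qof p.k (Pi.single i 1) i) ^ 2 *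
      ((vt p.t (sq (p.k i)) ^ 2 * sq (p.k i)) * Real.sin (ph p.k p.θ x i) ^ 2 * sq (p.c i)) := by
    rw [fsB, sB]
    simp only [h1]
    simp only [sq, Fin.sum_univ_three]
    ring
  rw [h2, ← mul_assoc, p.qof_single_sq]
  have h3 := vt_sq_mul_le p.ht.le (p.hk i)
  have h4 : Real.sin (ph p.k p.θ x i) ^ 2 ≤ 1 := Real.sin_sq_le_one _
  have h5 : 0 ≤ sq (p.c i) := Finset.sum_nonneg fun _ _ => sq_nonneg _
  have h6 : 0 ≤ vt p.t (sq (p.k i)) ^ 2 * sq (p.k i) := by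
    have := p.hk i
    positivity
  have h7 : vt p.t (sq (p.k i)) ^ 2 * sq (p.k i) * Real.sin (ph p.k p.θ x i) ^ 2 ≤ p.t * 1 :=
    mul_le_mul h3 h4 (sq_nonneg _) p.ht.le
  calc 1 / 2 * (vt p.t (sq (p.k i)) ^ 2 * sq (p.k i) * Real.sin (ph p.k p.θ x i) ^ 2 * sq (p.c i))
      ≤ 1 / 2 * (p.t * 1 * sq (p.c i)) := by gcongr
    _ = _ := by ring

lemma fsD_single [DecidableEq ι] (i : ι) (x : X3) :
    p.om i * p.fsD (Pi.single i 1) x ≤ p.t ^ 2 / 2 * sq (p.c i) := by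
  have h1 : ∀ a b n, fD p.k p.c p.θ p.t (qof p.k (Pi.single i 1)) x a b n =
      qof p.k (Pi.single i 1) i * (vt p.t (sq (p.k i)) ^ 2 * (p.k i a * p.k i b) *
        Real.cos (ph p.k p.θ x i) * p.c i n) := by
    intro a b n
    rw [fD, ← p.sum_single_eq i (fun i => vt p.t (sq (p.k i)) ^ 2 * (p.k i a * p.k i b) *
        Real.cos (ph p.k p.θ x i) * p.c i n)]
    exact Finset.sum_congr rfl fun j _ => by ring
  have h2 : p.fsD (Pi.single i 1) x = (qof p.k (Pi.single i 1) i) ^ 2 *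
      ((vt p.t (sq (p.k i)) ^ 4 * sq (p.k i) ^ 2) * Real.cos (ph p.k p.θ x i) ^ 2 * sq (p.c i)) := by
    rw [fsD, sD]
    simp only [h1]
    simp only [sq, Fin.sum_univ_three]
    ring
  rw [h2, ← mul_assoc, p.qof_single_sq]
  have h3 := vt_four_mul_le p.ht.le (p.hk i)
  have h4 : Real.cos (ph p.k p.θ x i) ^ 2 ≤ 1 := Real.cos_sq_le_one _
  have h5 : 0 ≤ sq (p.c i) := Finset.sum_nonneg fun _ _ => sq_nonneg _
  have h7 : vt p.t (sq (p.k i)) ^ 4 * sq (p.k i) ^ 2 * Real.cos (ph p.k p.θ x i) ^ 2 ≤ p.t ^ 2 * 1 :=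
    mul_le_mul h3 h4 (sq_nonneg _) (by positivity)
  calc 1 / 2 * (vt p.t (sq (p.k i)) ^ 4 * sq (p.k i) ^ 2 * Real.cos (ph p.k p.θ x i) ^ 2 * sq (p.c i))
      ≤ 1 / 2 * (p.t ^ 2 * 1 * sq (p.c i)) := by gcongr
    _ = _ := by ring

lemma norm_dl_sq (y : ι → ℝ) (x : X3) :
    ‖p.dl y x‖ ^ 2 ≤ 18 * p.a * p.fsB y x * p.p0 x + 162 * p.a * p.fsD y x * p.p1 x :=
  norm_corr_sq p.k p.c p.θ p.t (qof p.k y) p.ha p.A p.phi x

lemma p0_nonneg (x : X3) : 0 ≤ p.p0 x := nsq_nonneg _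
lemma p1_nonneg (x : X3) : 0 ≤ p.p1 x := Finset.sum_nonneg fun _ _ => nsq_nonneg _

lemma final_aux (om n B D a p0 p1 s t : ℝ) (hom : 0 < om) (hn : n ≤ 2 * (18 * a * B * p0 + 162 * a * D * p1))
    (hB : om * B ≤ t / 2 * s) (hD : om * D ≤ t ^ 2 / 2 * s) (ha : 0 ≤ a) (h0 : 0 ≤ p0) (h1 : 0 ≤ p1)
    (hs : 0 ≤ s) (ht : 0 ≤ t) :
    om * n ≤ 200 * a * t * s * (p0 + t * p1) := by
  have e1 : om * n ≤ 36 * (a * p0) * (om * B) + 324 * (a * p1) * (om * D) := by
    have := mul_le_mul_of_nonneg_left hn hom.le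
    linarith
  have e2 : 36 * (a * p0) * (om * B) ≤ 36 * (a * p0) * (t / 2 * s) := by gcongr
  have e3 : 324 * (a * p1) * (om * D) ≤ 324 * (a * p1) * (t ^ 2 / 2 * s) := by gcongr
  have e4 : 0 ≤ a * p0 * t * s := by positivity
  have e5 : 0 ≤ a * p1 * t ^ 2 * s := by positivity
  nlinarith

lemma sum_om_u_le [DecidableEq ι] (x : X3) : ∑ i, p.om i * nsq (p.u i x) ≤
      200 * p.a * p.t * (∑ i, sq (p.c i)) * (p.p0 x + p.t * p.p1 x) := by
  rw [Finset.mul_sum, Finset.sum_mul]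
  refine Finset.sum_le_sum fun i _ => ?_
  rw [u, nsq_smul', p.norm_ex, one_pow, one_mul]
  exact final_aux _ _ _ _ _ _ _ _ _ (p.om_pos i)
    ((nsq_le _).trans (mul_le_mul_of_nonneg_left (p.norm_dl_sq _ x) (by norm_num)))
    (p.fsB_single i x) (p.fsD_single i x) p.ha (p.p0_nonneg x) (p.p1_nonneg x)
    (Finset.sum_nonneg fun _ _ => sq_nonneg _) p.ht.le

end Par

theorem trial : TrialStatement := by
  intro ι _ _ p
  exact ⟨p.u0_contDiff, p.u0_compact, p.u_contDiff, p.u_compact, p.wf_eq, p.nsq_dop_wf_le,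
    p.norm_dl_sq, p.sum_om_u_le⟩

end Pool.Agent.Helper49_Pauli
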