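import Pool.Agent.Helper49_Pauli.Interface4
import Pool.Agent.Helper49_Pauli.Trial

/-!
# FINAL: combination of all modules
-/

open MeasureTheory Complex ProbabilityTheory

namespace Pool.Agent.Helper49_Pauli

/-- A field of amplitudes produced by scaling. -/
lemma E_eq_aux {ι : Type} [Fintype ι] (k c : ι → X3) (θ qq η : ι → ℝ) (hk : ∀ i, 0 < sq (k i))
    (hη : ∀ i, η i = Real.sqrt (2 * Real.sqrt (sq (k i))) * qq i) (x : X3) (j : Fin 3) :
    fA k c θ (qof k η) x j = ∑ i, qq i * Real.cos (dot (k i) x - θ i) * c i j := by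
  unfold fA
  refine Finset.sum_congr rfl fun i _ => ?_
  have h : Real.sqrt (2 * Real.sqrt (sq (k i))) ≠ 0 := by
    have := Real.sqrt_pos.2 (hk i)
    positivity
  rw [qof, hη, mul_div_cancel_left₀ _ h]
  rfl

lemma fderiv_scale (g : X3 → ℝ) (hg : ContDiff ℝ (⊤ : ℕ∞) g) (R : ℝ) (x : X3) (j : Fin 3) :
    fderiv ℝ (fun x => g (R⁻¹ • x)) x (Pi.single j 1) =
      R⁻¹ * fderiv ℝ g (R⁻¹ • x) (Pi.single j 1) := by
  have h1 : HasFDerivAt g (fderiv ℝ g (R⁻¹ • x)) (R⁻¹ • x) :=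
    (hg.differentiable (by simp)).differentiableAt.hasFDerivAt
  have h2 : HasFDerivAt (fun x : X3 => R⁻¹ • x) (R⁻¹ • ContinuousLinearMap.id ℝ X3) x :=
    (hasFDerivAt_id x).const_smul R⁻¹
  have h3 : HasFDerivAt (fun x => g (R⁻¹ • x)) ((fderiv ℝ g (R⁻¹ • x)).comp
    (R⁻¹ • ContinuousLinearMap.id ℝ X3)) x := h1.comp x h2
  rw [h3.fderiv]
  simp

lemma one_le_w {ι : Type} (p : Par ι) (x : X3) : 1 ≤ 1 + sq x / p.R ^ 2 := by
  have h : 0 ≤ sq x := Finset.sum_nonneg fun _ _ => sq_nonneg _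
  have := p.hR
  have : 0 ≤ sq x / p.R ^ 2 := by positivity
  linarith

lemma sq_nonneg'' (x : X3) : 0 ≤ sq x := Finset.sum_nonneg fun _ _ => sq_nonneg _

lemma int_mono_compact {f g : X3 → ℝ} (hf : Continuous f) (hfc : HasCompactSupport f)
    (hg : Continuous g) (hgc : HasCompactSupport g) (h : ∀ x, f x ≤ g x) :
    ∫ x, f x ≤ ∫ x, g x :=
  integral_mono (hf.integrable_of_hasCompactSupport hfc) (hg.integrable_of_hasCompactSupport hgc) h

/-- The bound of the error of the vector potential. -/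
lemma bound_e' {ι : Type} [Fintype ι] (hC : ContStatement) (p : Par ι) (C0 e CT δ : ℝ)
    (hgood : p.Good C0 e) (hCT : 0 ≤ CT) (hδ : 0 ≤ δ)
    (hE : ∀ x, sq (p.E x) ≤ CT * δ * (1 + sq x / p.R ^ 2)) :
    ∫ x, sq (p.E x) * (p.p0 x + p.bB * p.w x ^ 2 * p.p0 x + p.bD * p.w x ^ 2 * p.p1 x) ≤
      CT * δ * (C0 * (1 + p.bB + p.bD * p.R ^ (-2 : ℤ))) := by
  obtain ⟨-, -, -, -, -, -, -, hw, h0, h1, -, -, hsE, hc0, hc1, -, -, -, -, -⟩ := hC ι p
  have hbB : 0 ≤ p.bB := by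
    have := p.ha; have := p.hκ; have := p.hτ
    unfold Par.bB; positivity
  have hbD : 0 ≤ p.bD := by
    have := p.ha; have := p.hκ; have := p.ht
    unfold Par.bD; positivity
  have hw1 : ∀ x, 1 ≤ p.w x := one_le_w p
  have hcf : Continuous fun x => sq (p.E x) *
      (p.p0 x + p.bB * p.w x ^ 2 * p.p0 x + p.bD * p.w x ^ 2 * p.p1 x) := by fun_prop
  have hcg : Continuous fun x => CT * δ * ((1 + p.bB) * (p.w x ^ 4 * p.p0 x) +
      p.bD * (p.w x ^ 4 * p.p1 x)) := by fun_prop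
  have hz : ∀ x, x ∉ tsupport p.phi → p.p0 x = 0 ∧ p.p1 x = 0 := by
    intro x hx
    have e0 : p.phi x = 0 := image_eq_zero_of_notMem_tsupport hx
    constructor
    · simp [Par.p0, e0, nsq]
    · simp [Par.p1, Par.cov_zero_of_notMem hx p.hphi, nsq]
  have hsf : HasCompactSupport fun x => sq (p.E x) *
      (p.p0 x + p.bB * p.w x ^ 2 * p.p0 x + p.bD * p.w x ^ 2 * p.p1 x) :=
    HasCompactSupport.intro p.hphic fun x hx => by
      rw [(hz x hx).1, (hz x hx).2]; simp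
  have hsg : HasCompactSupport fun x => CT * δ * ((1 + p.bB) * (p.w x ^ 4 * p.p0 x) +
      p.bD * (p.w x ^ 4 * p.p1 x)) :=
    HasCompactSupport.intro p.hphic fun x hx => by
      rw [(hz x hx).1, (hz x hx).2]; simp
  refine (int_mono_compact hcf hsf hcg hsg fun x => ?_).trans ?_
  · have a1 := hE x
    have a2 := hw1 x
    have a3 := p.p0_nonneg x
    have a4 := p.p1_nonneg x
    have a5 := sq_nonneg'' (p.E x)
    have a6 : sq (p.E x) ≤ CT * δ * p.w x := a1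
    have hb1 : p.p0 x + p.bB * p.w x ^ 2 * p.p0 x + p.bD * p.w x ^ 2 * p.p1 x ≤
        (1 + p.bB) * (p.w x ^ 2 * p.p0 x) + p.bD * (p.w x ^ 2 * p.p1 x) := by
      have : p.p0 x ≤ p.w x ^ 2 * p.p0 x := by
        have : 1 ≤ p.w x ^ 2 := one_le_pow₀ a2
        nlinarith
      nlinarith
    have hb2 : p.w x * p.w x ^ 2 ≤ p.w x ^ 4 := by
      have : p.w x ^ 4 = p.w x * (p.w x * p.w x ^ 2) := by ring
      rw [this]
      have h0 : 0 ≤ p.w x * p.w x ^ 2 := by positivity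
      nlinarith
    have hn : 0 ≤ (1 + p.bB) * (p.w x ^ 2 * p.p0 x) + p.bD * (p.w x ^ 2 * p.p1 x) := by positivity
    calc sq (p.E x) * (p.p0 x + p.bB * p.w x ^ 2 * p.p0 x + p.bD * p.w x ^ 2 * p.p1 x)
        ≤ (CT * δ * p.w x) * ((1 + p.bB) * (p.w x ^ 2 * p.p0 x) + p.bD * (p.w x ^ 2 * p.p1 x)) := by
          refine mul_le_mul a6 hb1 ?_ (by positivity)
          positivity
      _ = CT * δ * ((1 + p.bB) * ((p.w x * p.w x ^ 2) * p.p0 x) +
          p.bD * ((p.w x * p.w x ^ 2) * p.p1 x)) := by ring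
      _ ≤ CT * δ * ((1 + p.bB) * (p.w x ^ 4 * p.p0 x) + p.bD * (p.w x ^ 4 * p.p1 x)) := by gcongr
  · have hi0 : Integrable fun x => p.w x ^ 4 * p.p0 x := by
      refine Continuous.integrable_of_hasCompactSupport (by fun_prop) ?_
      exact HasCompactSupport.intro p.hphic fun x hx => by rw [(hz x hx).1]; simp
    have hi1 : Integrable fun x => p.w x ^ 4 * p.p1 x := by
      refine Continuous.integrable_of_hasCompactSupport (by fun_prop) ?_
      exact HasCompactSupport.intro p.hphic fun x hx => by rw [(hz x hx).2]; simp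
    rw [integral_const_mul, integral_add (hi0.const_mul _) (hi1.const_mul _), integral_const_mul,
      integral_const_mul]
    obtain ⟨g0, g1, -, -⟩ := hgood
    have : (1 + p.bB) * ∫ x, p.w x ^ 4 * p.p0 x ≤ (1 + p.bB) * C0 := by gcongr
    have h2 : p.bD * ∫ x, p.w x ^ 4 * p.p1 x ≤ p.bD * (C0 * p.R ^ (-2 : ℤ)) := by gcongr
    have h3 : (1 + p.bB) * (∫ x, p.w x ^ 4 * p.p0 x) + p.bD * (∫ x, p.w x ^ 4 * p.p1 x) ≤
      C0 * (1 + p.bB + p.bD * p.R ^ (-2 : ℤ)) := by linarith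
    exact mul_le_mul_of_nonneg_left h3 (by positivity)


/-- The field energy sums of the trial state. -/
lemma sum_bounds {ι : Type} [Fintype ι] (p : Par ι) (cut L CL CG CK : ℝ) (hcut : 1 ≤ cut)
    (hL : 1 ≤ L) (hCK : 0 ≤ CK)
    (hkc : ∀ i, Real.sqrt (sq (p.k i)) < cut)
    (hsum : ∀ f : X3 → ℝ, (∀ q, f (-q) = f q) →
        ∑ i, sq (p.c i) * f (p.k i) = 4 / L ^ 3 * ∑ n ∈ momenta cut L, f (wave L n))
    (hcard : (momenta cut L).card / L ^ 3 ≤ CL * cut ^ 3)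
    (hgauss : 1 / L ^ 3 * ∑ n ∈ momenta cut L, Real.exp (-(p.t * sq (wave L n))) ≤
      CG * p.t ^ (-(3 / 2) : ℝ))
    (hτ : p.τ * cut ^ 2 ≤ 1)
    (hK : ∀ i, p.om i * p.K i i ≤ CK * p.R ^ 3 * (p.κ * Real.exp (2 * (p.τ * sq (p.k i))) +
      p.κ0 * Real.exp (-(p.t * sq (p.k i)))) * sq (p.c i)) :
    (∑ i, sq (p.c i) ≤ 4 * CL * cut ^ 3) ∧
    ∑ i, p.om i * p.K i i ≤ CK * (32 * CL + 4 * CG) *
      (p.R ^ 3 * (p.κ * cut ^ 3 + p.κ0 * p.t ^ (-(3 / 2) : ℝ))) := by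
  have hL3 : 0 < L ^ 3 := by positivity
  have e1 : ∑ i, sq (p.c i) = 4 / L ^ 3 * (momenta cut L).card := by
    have := hsum (fun _ => 1) (fun _ => rfl)
    simpa using this
  have e2 : ∑ i, sq (p.c i) * Real.exp (-(p.t * sq (p.k i))) =
      4 / L ^ 3 * ∑ n ∈ momenta cut L, Real.exp (-(p.t * sq (wave L n))) := by
    refine hsum (fun q => Real.exp (-(p.t * sq q))) fun q => ?_
    simp [sq]
  have b1 : ∑ i, sq (p.c i) ≤ 4 * CL * cut ^ 3 := by
    rw [e1]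
    calc 4 / L ^ 3 * ((momenta cut L).card : ℝ) = 4 * ((momenta cut L).card / L ^ 3) := by ring
      _ ≤ 4 * (CL * cut ^ 3) := by gcongr
      _ = _ := by ring
  have b2 : ∑ i, sq (p.c i) * Real.exp (-(p.t * sq (p.k i))) ≤ 4 * (CG * p.t ^ (-(3 / 2) : ℝ)) := by
    rw [e2]
    calc 4 / L ^ 3 * ∑ n ∈ momenta cut L, Real.exp (-(p.t * sq (wave L n))) =
        4 * (1 / L ^ 3 * ∑ n ∈ momenta cut L, Real.exp (-(p.t * sq (wave L n)))) := by ring
      _ ≤ _ := by gcongr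
  refine ⟨b1, ?_⟩
  have hR := p.hR
  have hκ := p.hκ
  have hκ0 := p.hκ0
  have b3 : ∀ i, Real.exp (2 * (p.τ * sq (p.k i))) ≤ 8 := by
    intro i
    have h1 : sq (p.k i) ≤ cut ^ 2 := by
      have := hkc i
      have h2 := Real.sq_sqrt (p.hk i).le
      have h3 := Real.sqrt_nonneg (sq (p.k i))
      nlinarith
    have h2 : p.τ * sq (p.k i) ≤ 1 := (mul_le_mul_of_nonneg_left h1 p.hτ.le).trans hτ
    calc Real.exp (2 * (p.τ * sq (p.k i))) ≤ Real.exp 2 := Real.exp_le_exp.2 (by linarith)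
      _ = Real.exp 1 ^ 2 := by rw [← Real.exp_nat_mul]; norm_num
      _ ≤ 8 := by
        have := Real.exp_one_lt_d9
        have h0 := Real.exp_pos 1
        nlinarith
  calc ∑ i, p.om i * p.K i i ≤ ∑ i, CK * p.R ^ 3 * (p.κ * 8 * sq (p.c i) +
        p.κ0 * (sq (p.c i) * Real.exp (-(p.t * sq (p.k i))))) := by
        refine Finset.sum_le_sum fun i _ => (hK i).trans ?_
        have hc : 0 ≤ sq (p.c i) := sq_nonneg'' _
        have h1 : p.κ * Real.exp (2 * (p.τ * sq (p.k i))) * sq (p.c i) ≤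
            p.κ * 8 * sq (p.c i) := by
          have := b3 i
          gcongr
        have h2 : 0 ≤ CK * p.R ^ 3 := by positivity
        calc CK * p.R ^ 3 * (p.κ * Real.exp (2 * (p.τ * sq (p.k i))) +
              p.κ0 * Real.exp (-(p.t * sq (p.k i)))) * sq (p.c i) =
            CK * p.R ^ 3 * (p.κ * Real.exp (2 * (p.τ * sq (p.k i))) * sq (p.c i) +
              p.κ0 * (sq (p.c i) * Real.exp (-(p.t * sq (p.k i))))) := by ring
          _ ≤ _ := by gcongr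
    _ = CK * p.R ^ 3 * (p.κ * 8 * (∑ i, sq (p.c i)) +
          p.κ0 * ∑ i, sq (p.c i) * Real.exp (-(p.t * sq (p.k i)))) := by
        rw [Finset.mul_sum, Finset.mul_sum, ← Finset.sum_add_distrib, Finset.mul_sum]
    _ ≤ CK * p.R ^ 3 * (p.κ * 8 * (4 * CL * cut ^ 3) +
          p.κ0 * (4 * (CG * p.t ^ (-(3 / 2) : ℝ)))) := by gcongr
    _ ≤ _ := by
        have ht := p.ht
        have hCL : 0 ≤ CL := by
          have h5 : 0 ≤ (momenta cut L).card / L ^ 3 := by positivity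
          by_contra hneg
          push Not at hneg
          have : CL * cut ^ 3 < 0 := mul_neg_of_neg_of_pos hneg (by positivity)
          linarith
        have hCG : 0 ≤ CG := by
          have h5 : 0 ≤ 1 / L ^ 3 * ∑ n ∈ momenta cut L, Real.exp (-(p.t * sq (wave L n))) := by
            have : 0 ≤ ∑ n ∈ momenta cut L, Real.exp (-(p.t * sq (wave L n))) :=
              Finset.sum_nonneg fun _ _ => (Real.exp_pos _).le
            positivity
          by_contra hneg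
          push Not at hneg
          have : CG * p.t ^ (-(3 / 2) : ℝ) < 0 := mul_neg_of_neg_of_pos hneg (by positivity)
          linarith
        have h6 : 0 ≤ p.t ^ (-(3 / 2) : ℝ) := by positivity
        have h7 : 0 ≤ CK * p.R ^ 3 := by positivity
        have h8 : p.κ * 8 * (4 * CL * cut ^ 3) + p.κ0 * (4 * (CG * p.t ^ (-(3 / 2) : ℝ))) ≤
          (32 * CL + 4 * CG) * (p.κ * cut ^ 3 + p.κ0 * p.t ^ (-(3 / 2) : ℝ)) := by
          have h9 : 0 ≤ CL * (p.κ0 * p.t ^ (-(3 / 2) : ℝ)) := by positivity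
          have h10 : 0 ≤ CG * (p.κ * cut ^ 3) := by positivity
          nlinarith
        calc CK * p.R ^ 3 * (p.κ * 8 * (4 * CL * cut ^ 3) +
              p.κ0 * (4 * (CG * p.t ^ (-(3 / 2) : ℝ)))) ≤ CK * p.R ^ 3 *
              ((32 * CL + 4 * CG) * (p.κ * cut ^ 3 + p.κ0 * p.t ^ (-(3 / 2) : ℝ))) := by gcongr
          _ = _ := by ring

/-- The displacement energy. -/
lemma eta_bound {ι : Type} [Fintype ι] (k : ι → X3) (qq η : ι → ℝ) (cut S : ℝ)
    (hk : ∀ i, 0 < sq (k i)) (hkc : ∀ i, Real.sqrt (sq (k i)) < cut)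
    (hη : ∀ i, η i = Real.sqrt (2 * Real.sqrt (sq (k i))) * qq i) (hS : ∑ i, qq i ^ 2 ≤ S) :
    ∑ i, Real.sqrt (sq (k i)) * η i ^ 2 ≤ 2 * cut ^ 2 * S := by
  calc ∑ i, Real.sqrt (sq (k i)) * η i ^ 2 ≤ ∑ i, 2 * cut ^ 2 * qq i ^ 2 := by
        refine Finset.sum_le_sum fun i _ => ?_
        have h1 := Real.sqrt_pos.2 (hk i)
        have h2 := hkc i
        rw [hη, mul_pow, Real.sq_sqrt (by positivity)]
        calc Real.sqrt (sq (k i)) * (2 * Real.sqrt (sq (k i)) * qq i ^ 2) =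
            2 * (Real.sqrt (sq (k i))) ^ 2 * qq i ^ 2 := by ring
          _ ≤ 2 * cut ^ 2 * qq i ^ 2 := by gcongr
    _ = 2 * cut ^ 2 * ∑ i, qq i ^ 2 := by rw [Finset.mul_sum]
    _ ≤ _ := by gcongr


lemma sq_smul_v (r : ℝ) (v : X3) : sq (r • v) = r ^ 2 * sq v := by
  simp only [sq, Pi.smul_apply, smul_eq_mul, mul_pow, Finset.mul_sum]

lemma dot_smul_smul_v (r s : ℝ) (v w : X3) : dot (r • v) (s • w) = r * s * dot v w := by
  simp only [dot, Pi.smul_apply, smul_eq_mul, Finset.mul_sum]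
  exact Finset.sum_congr rfl fun j _ => by ring

lemma transv_scale {A : X3 → X3} (hA : ∀ q, dot q (A q) = 0) {R : ℝ} (hR : 0 < R) (s : ℝ) (q : X3) :
    dot q (s • A (R • q)) = 0 := by
  have h := hA (R • q)
  have h2 : dot (R • q) ((1 : ℝ) • A (R • q)) = R * 1 * dot q (A (R • q)) := dot_smul_smul_v _ _ _ _
  rw [one_smul, h] at h2
  have h3 : dot q (A (R • q)) = 0 := by
    rcases mul_eq_zero.1 h2.symm with h4 | h4
    · nlinarith
    · exact h4
  have h5 : dot ((1 : ℝ) • q) (s • A (R • q)) = 1 * s * dot q (A (R • q)) := dot_smul_smul_v _ _ _ _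
  rw [one_smul, h3] at h5
  simpa using h5

/-- Combination of the bounds for the Dirac energy. -/
lemma comb1 (C1 C0 CT CP alpha X d S T : ℝ) (hC1 : 0 < C1) (hC0 : 0 < C0) (hCT : 0 < CT)
    (hX : 1 ≤ X) (q1 : d * S ≤ CP * X) (qS : S ≤ alpha * CP * X)
    (q2 : T ≤ CP * X) :
    C1 * (1 + CT * (d + 1) * (C0 * S) + C0 * T) ≤
      C1 * (1 + CT * C0 * (CP + alpha * CP) + C0 * CP) * X := by
  have e1 : CT * (d + 1) * (C0 * S) ≤ CT * C0 * (CP + alpha * CP) * X := by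
    have : CT * (d + 1) * (C0 * S) = CT * C0 * (d * S + S) := by ring
    rw [this]
    have h2 : d * S + S ≤ (CP + alpha * CP) * X := by linarith
    calc CT * C0 * (d * S + S) ≤ CT * C0 * ((CP + alpha * CP) * X) := by gcongr
      _ = _ := by ring
  have e2 : C0 * T ≤ C0 * (CP * X) := by gcongr
  have e3 : 1 + CT * (d + 1) * (C0 * S) + C0 * T ≤
      (1 + CT * C0 * (CP + alpha * CP) + C0 * CP) * X := by linarith
  calc _ ≤ C1 * ((1 + CT * C0 * (CP + alpha * CP) + C0 * CP) * X) := by gcongr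
    _ = _ := by ring

/-- Combination of the bounds for the field energy. -/
lemma comb2 (C2 C0 CT CL CB CP X a t sc cut3 F1 F2 r1 r2 S : ℝ) (hC2 : 0 < C2) (hC0 : 0 < C0)
    (hCT : 0 < CT) (hCL : 0 < CL) (hCB : 0 ≤ CB) (hS : 0 ≤ S) (ha : 0 ≤ a * t)
    (hsc : sc ≤ 4 * CL * cut3) (q3 : a * t * cut3 ≤ CP * X) (hF1 : F1 ≤ 2 * CT * r1)
    (hF2 : F2 ≤ CB * r2) (q4 : (r1 + r2) * S ≤ CP * X) (hr1 : 0 ≤ r1) (hr2 : 0 ≤ r2) :
    C2 * C0 * (a * t * sc + (F1 + F2) * S) ≤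
      C2 * C0 * (4 * CL * CP + (2 * CT + CB) * CP) * X := by
  have e1 : a * t * sc ≤ 4 * CL * CP * X := by
    calc a * t * sc ≤ a * t * (4 * CL * cut3) := by gcongr
      _ = 4 * CL * (a * t * cut3) := by ring
      _ ≤ 4 * CL * (CP * X) := by gcongr
      _ = _ := by ring
  have e2 : (F1 + F2) * S ≤ (2 * CT + CB) * CP * X := by
    have h1 : F1 + F2 ≤ (2 * CT + CB) * (r1 + r2) := by
      have h3 : 0 ≤ CT * r2 := by positivity
      have h4 : 0 ≤ CB * r1 := by positivity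
      nlinarith
    calc (F1 + F2) * S ≤ (2 * CT + CB) * (r1 + r2) * S := by gcongr
      _ = (2 * CT + CB) * ((r1 + r2) * S) := by ring
      _ ≤ (2 * CT + CB) * (CP * X) := by gcongr
      _ = _ := by ring
  have e3 : a * t * sc + (F1 + F2) * S ≤ (4 * CL * CP + (2 * CT + CB) * CP) * X := by linarith
  calc _ ≤ C2 * C0 * ((4 * CL * CP + (2 * CT + CB) * CP) * X) := by gcongr
    _ = _ := by ring

theorem core (hGC : GaussChangeStatement) (hHalf : HalfStatement) (hLatt : LattStatement)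
    (hTR : TrapRiemannStatement) (hZS : ZScaleStatement) (hAs : AssembleStatement)
    (hKm : KmatStatement) (hC : ContStatement) (hTr : TrialStatement) (h1 : H1Statement)
    (h2 : H2Statement) (h3 : H3Statement) (hP : ParamStatement) :
    ∀ alpha : ℝ, 0 < alpha → ∃ C : ℝ, 0 < C ∧ ∀ cut L : ℝ, 1 ≤ cut → 1 ≤ L →
      ∀ (P : Polarization L) (D : Type) [NormedAddCommGroup D] [InnerProductSpace ℂ D]
        (F : Bosons (Mode cut L) D), ∃ psi : X3 → Fin 2 → D, IsState psi ∧ 0 < normSq psi ∧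
          energy alpha F P psi ≤ C * cut ^ ((46 / 31) : ℝ) * normSq psi := by
  intro alpha halpha
  obtain ⟨C1, hC1, H1⟩ := h1
  obtain ⟨C2, hC2, H2⟩ := h2
  obtain ⟨CK, hCK, HK⟩ := hKm
  obtain ⟨C0, hC0, HZ⟩ := hZS
  obtain ⟨CT, A, B, g, hCT, hg, hAe, hBo, hAt, hBt, hAB, hTrap⟩ := hTR
  obtain ⟨-, ⟨CL, hCL, hcard⟩, ⟨CG, hCG, hgauss⟩, -⟩ := hLatt
  obtain ⟨CP, hCP, HP⟩ := hP alpha halpha
  obtain ⟨M1, hM1⟩ : ∃ M1, M1 = C1 * (1 + CT * C0 * (CP + alpha * CP) + C0 * CP) := ⟨_, rfl⟩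
  obtain ⟨M2, hM2⟩ : ∃ M2, M2 = C2 * C0 * (4 * CL * CP + (2 * CT + CK * (32 * CL + 4 * CG)) * CP) :=
    ⟨_, rfl⟩
  have hM1p : 0 < M1 := by rw [hM1]; positivity
  have hM2p : 0 < M2 := by rw [hM2]; positivity
  refine ⟨16 * (M1 + M2), by positivity, fun cut L hcut hL P D _ _ F => ?_⟩
  obtain ⟨R, τ, t, κ, κ0, hR, hR1, hτ, hτt, htR, ht1, hκ, hκ0, hRc, hτc, q1, q2, q3, q4⟩ :=
    HP cut hcut
  have hL0 : 0 < L := by linarith
  obtain ⟨phi, hphi, hphic, z1, z2, z3, z4, z5⟩ := HZ R 1 hR one_pos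
  obtain ⟨ι, _, _, G, k, c, θ, hkc, hpot, hfe, hsum, hqq⟩ := hHalf cut L hL0 P D F
  have hsa : 0 < Real.sqrt alpha := Real.sqrt_pos.2 halpha
  obtain ⟨qq, hqA, hqS⟩ := hqq (fun q => (R ^ 2 / Real.sqrt alpha) • A (R • q))
    (fun q => (R ^ 2 / Real.sqrt alpha) • B (R • q)) (fun q => by simp only [smul_neg, hAe])
    (fun q => by simp only [smul_neg, hBo]) (transv_scale hAt hR _) (transv_scale hBt hR _)
  obtain ⟨p, hp⟩ : ∃ p : Par ι, p =
    { k := k, c := c, θ := θ, R := R, τ := τ, t := t, κ := κ, κ0 := κ0, a := alpha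
      g := fun x => g (R⁻¹ • x), phi := phi
      η := fun i => Real.sqrt (2 * Real.sqrt (sq (k i))) * qq i
      hk := fun i => (hkc i).1, hR := hR, hτ := hτ, hτt := hτt, htR := htR, hκ := hκ, hκ0 := hκ0
      ha := halpha.le, hg := hg.comp (contDiff_id.const_smul R⁻¹), hphi := hphi,
      hphic := hphic } := ⟨_, rfl⟩
  have pk : p.k = k := by rw [hp]
  have pc : p.c = c := by rw [hp]
  have pθ : p.θ = θ := by rw [hp]
  have pR : p.R = R := by rw [hp]
  have pτ : p.τ = τ := by rw [hp]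
  have pt : p.t = t := by rw [hp]
  have pκ : p.κ = κ := by rw [hp]
  have pκ0 : p.κ0 = κ0 := by rw [hp]
  have pa : p.a = alpha := by rw [hp]
  have pg : p.g = fun x => g (R⁻¹ • x) := by rw [hp]
  have pphi : p.phi = phi := by rw [hp]
  have pη : p.η = fun i => Real.sqrt (2 * Real.sqrt (sq (k i))) * qq i := by rw [hp]
  have pA : p.A = trapR R := by rw [Par.A, pR]
  clear hp
  obtain ⟨hKs, hKq, hW, hWl, hKr, hKd⟩ := HK ι p
  have hKpos : ∀ y, 0 ≤ quad p.K y := by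
    intro y
    rw [hKq]
    have := hW (qof p.k y)
    have := hWl (qof p.k y)
    have := p.hκ
    have := p.hκ0
    positivity
  obtain ⟨T, Z, hZ, hT, hG⟩ := hGC ι p.K p.η hKs hKpos
  have hchg : p.Chg T Z := ⟨hZ, hT, hG⟩
  have hgood : p.Good C0 1 := by
    refine ⟨?_, ?_, ?_, ?_⟩
    · simpa only [Par.w, Par.p0, pR, pphi] using z2
    · simpa only [Par.w, Par.p1, pR, pphi, pA] using z3
    · have : ∀ x, p.p2 x = ∑ l, ∑ j, nsq (cov (trapR R) l (cov (trapR R) j phi) x) := by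
        intro x
        rw [Par.p2, Finset.sum_comm, pA, pphi]
      simpa only [Par.w, this, pR] using z4
    · simpa only [Par.w, Par.pd, pR, pphi, pA] using z5
  -- the error field
  have hE : ∀ x, sq (p.E x) ≤ CT * (R ^ (-2 : ℤ) * (R * cut) ^ (-6 : ℤ) + 1) *
      (1 + sq x / p.R ^ 2) := by
    intro x
    rw [pR]
    refine le_trans (le_of_eq ?_) (hTrap R cut L hR hR1 hcut hRc hL x)
    rw [sq]
    refine Finset.sum_congr rfl fun j _ => ?_
    congr 1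
    have e1 : fA p.k p.c p.θ (qof p.k p.η) x j = ∑ i, qq i * Real.cos (dot (k i) x - θ i) * c i j := by
      rw [pk, pc, pθ, pη]
      exact E_eq_aux k c θ qq _ (fun i => (hkc i).1) (fun i => rfl) x j
    have e2 : fderiv ℝ p.g x (Pi.single j 1) = R⁻¹ * fderiv ℝ g (R⁻¹ • x) (Pi.single j 1) := by
      rw [pg]
      exact fderiv_scale g hg R x j
    have e3 : p.A x j = R⁻¹ * trapA (R⁻¹ • x) j := by
      rw [pA, trapR]
      simp
    rw [Par.E, e1, e2, e3, hqA x j, pa]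
    have e4 : Real.sqrt alpha * (1 / L ^ 3 * ∑ n ∈ momenta cut L,
        (((R ^ 2 / Real.sqrt alpha) • A (R • wave L n)) j * Real.cos (dot (wave L n) x) -
          ((R ^ 2 / Real.sqrt alpha) • B (R • wave L n)) j * Real.sin (dot (wave L n) x))) =
        1 / L ^ 3 * (∑ n ∈ momenta cut L, R ^ 2 *
          (A (R • wave L n) j * Real.cos (dot (wave L n) x) -
            B (R • wave L n) j * Real.sin (dot (wave L n) x))) := by
      rw [← mul_assoc, mul_comm (Real.sqrt alpha), mul_assoc, Finset.mul_sum]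
      congr 1
      refine Finset.sum_congr rfl fun n _ => ?_
      simp only [Pi.smul_apply, smul_eq_mul]
      field_simp
    rw [e4]
    ring
  have hd0 : 0 ≤ R ^ (-2 : ℤ) * (R * cut) ^ (-6 : ℤ) := by positivity
  have he' := bound_e' hC p C0 1 CT (R ^ (-2 : ℤ) * (R * cut) ^ (-6 : ℤ) + 1) hgood hCT.le
    (by positivity) hE
  obtain ⟨S, hS⟩ : ∃ S, S = 1 + p.bB + p.bD * p.R ^ (-2 : ℤ) := ⟨_, rfl⟩
  have hS' : S = 1 + alpha * κ⁻¹ * τ ^ (-(1 / 2) : ℝ) +
      alpha * κ⁻¹ * t ^ ((1 / 2) : ℝ) * R ^ (-2 : ℤ) := by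
    rw [hS, Par.bB, Par.bD, pa, pκ, pτ, pt, pR]
  have ht0 : 0 < t := lt_of_lt_of_le hτ hτt
  have hS1 : 1 ≤ S := by
    rw [hS']
    have h5 : 0 ≤ alpha * κ⁻¹ * τ ^ (-(1 / 2) : ℝ) := by positivity
    have h6 : 0 ≤ alpha * κ⁻¹ * t ^ ((1 / 2) : ℝ) * R ^ (-2 : ℤ) := by positivity
    linarith
  obtain ⟨X, hX⟩ : ∃ X, X = cut ^ ((46 / 31) : ℝ) := ⟨_, rfl⟩
  have hX1 : 1 ≤ X := by rw [hX]; exact Real.one_le_rpow hcut (by norm_num)
  rw [← hS', ← hX] at q1 q4
  rw [← hX] at q2 q3 ⊢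
  have hr2 : 0 ≤ R ^ 3 * (κ * cut ^ 3 + κ0 * t ^ (-(3 / 2) : ℝ)) := by positivity
  have hr1 : 0 ≤ R ^ 4 * cut ^ 5 / alpha := by positivity
  have hSX : S ≤ alpha * CP * X := by
    have h7 : 1 ≤ (R * cut) ^ 4 * cut := by
      have : 1 ≤ (R * cut) ^ 4 := one_le_pow₀ hRc
      nlinarith
    have h8 : 1 / alpha ≤ R ^ 4 * cut ^ 5 / alpha := by
      have : R ^ 4 * cut ^ 5 = (R * cut) ^ 4 * cut := by ring
      rw [this]
      gcongr
    have h9 : 1 / alpha * S ≤ CP * X := by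
      refine le_trans ?_ q4
      gcongr
      linarith
    have h10 : alpha * (1 / alpha * S) ≤ alpha * (CP * X) := by gcongr
    have h11 : alpha * (1 / alpha * S) = S := by field_simp
    linarith
  -- the three integrals
  have I1 := H1 ι p T Z C0 1 _ hchg hgood hC0.le he'
  have I2 := H2 ι p T Z C0 1 hchg hgood hC0.le
  have I3 := h3 ι p T Z hchg (by simpa only [Par.p0, pphi] using z1)
  obtain ⟨ct1, ct2, ct3, ct4, -, -, -, -⟩ := hTr ι p
  have hsb := sum_bounds p cut L CL CG CK hcut hL hCK.le (by rw [pk]; exact fun i => (hkc i).2)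
    (by rw [pk, pc]; exact hsum) (hcard cut L hcut hL)
    (by rw [pt]; exact hgauss cut L t hL ht0 ht1) (by rw [pτ]; exact hτc) hKd
  have hqS' : ∑ i, qq i ^ 2 ≤ R ^ 4 / alpha * (CT * cut ^ 3) := by
    rw [hqS]
    have h12 : (R ^ 2 / Real.sqrt alpha) ^ 2 = R ^ 4 / alpha := by
      rw [div_pow, Real.sq_sqrt halpha.le]
      ring
    have h13 : ∑ n ∈ momenta cut L, (sq ((R ^ 2 / Real.sqrt alpha) • A (R • wave L n)) +
        sq ((R ^ 2 / Real.sqrt alpha) • B (R • wave L n))) =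
        R ^ 4 / alpha * ∑ n ∈ momenta cut L, (sq (A (R • wave L n)) + sq (B (R • wave L n))) := by
      rw [Finset.mul_sum]
      refine Finset.sum_congr rfl fun n _ => ?_
      rw [sq_smul_v, sq_smul_v, h12]
      ring
    rw [h13]
    have h14 := hAB R cut L hR hcut hL
    calc 1 / L ^ 3 * (R ^ 4 / alpha * ∑ n ∈ momenta cut L,
          (sq (A (R • wave L n)) + sq (B (R • wave L n)))) =
        R ^ 4 / alpha * (1 / L ^ 3 * ∑ n ∈ momenta cut L,
          (sq (A (R • wave L n)) + sq (B (R • wave L n)))) := by ring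
      _ ≤ _ := by gcongr
  have hη : ∑ i, p.om i * p.η i ^ 2 ≤ 2 * CT * (R ^ 4 * cut ^ 5 / alpha) := by
    have := eta_bound k qq (fun i => Real.sqrt (2 * Real.sqrt (sq (k i))) * qq i) cut _
      (fun i => (hkc i).1) (fun i => (hkc i).2) (fun i => rfl) hqS'
    simp only [Par.om, pk, pη]
    refine this.trans (le_of_eq ?_)
    ring
  have B1 := comb1 C1 C0 CT CP alpha X (R ^ (-2 : ℤ) * (R * cut) ^ (-6 : ℤ)) S _ hC1 hC0 hCT
    hX1 q1 hSX q2
  have B2 := comb2 C2 C0 CT CL (CK * (32 * CL + 4 * CG)) CP X alpha t (∑ i, sq (p.c i)) (cut ^ 3)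
    (∑ i, p.om i * p.η i ^ 2) (∑ i, p.om i * p.K i i) (R ^ 4 * cut ^ 5 / alpha)
    (R ^ 3 * (κ * cut ^ 3 + κ0 * t ^ (-(3 / 2) : ℝ))) S hC2 hC0 hCT hCL (by positivity)
    (by linarith) (by positivity) hsb.1 q3 hη (by simpa only [pR, pκ, pκ0, pt] using hsb.2) q4
    hr1 hr2
  rw [← hM1] at B1
  rw [← hM2] at B2
  have hMX : 0 < (M1 + M2) * X := by positivity
  have J1 := I1.trans (ENNReal.ofReal_le_ofReal (q := (M1 + M2) * X * Z) (by
    rw [← hS, pa, pκ, pκ0, pt, pR, pτ]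
    calc _ ≤ Z * (M1 * X) := mul_le_mul_of_nonneg_left B1 hZ.le
      _ ≤ _ := by
        have : 0 ≤ M2 * X * Z := by positivity
        linarith))
  have J2 := I2.trans (ENNReal.ofReal_le_ofReal (q := (M1 + M2) * X * Z) (by
    rw [← hS, pa, pt]
    calc _ ≤ Z * (M2 * X) := mul_le_mul_of_nonneg_left B2 hZ.le
      _ ≤ _ := by
        have : 0 ≤ M1 * X * Z := by positivity
        linarith))
  obtain ⟨psi, s1, s2, s3⟩ := hAs cut L alpha hL0 halpha.le P D F ι G k c θ (fun i => (hkc i).1)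
    hpot hfe p.K p.η hKs hKpos p.u0 p.u ct1 ct2 ct3 ct4 ((M1 + M2) * X) Z hMX hZ
    (by simpa only [pk, pc, pθ, pa] using J1) (by simpa only [pk] using J2) I3
  exact ⟨psi, s1, s2, by rw [show 16 * (M1 + M2) * X = 16 * ((M1 + M2) * X) by ring]; exact s3⟩

end Pool.Agent.Helper49_Pauli
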