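import Pool.Agent.Helper49_Pauli.Defs

/-!
# Module interfaces for the upper bound on the self-energy of a Pauli electron

Every `XStatement` is proved in its own file.
-/

open MeasureTheory Complex

namespace Pool.Agent.Helper49_Pauli

/-! ## HEAT: weighted bounds for heat-smoothed trigonometric sums -/

/-- HEAT. `B(x) = sum b_i cos(k_i . x - theta_i)`; after smoothing with the heat kernel at time
`sigma` the value at `x` is bounded by a weighted `L^2` norm of `B`. -/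
def HeatStatement : Prop :=
  ∃ C : ℝ, 0 < C ∧ ∀ (ι : Type) [Fintype ι] (b θ : ι → ℝ) (k : ι → X3) (R σ : ℝ) (x : X3),
    0 < R → 0 < σ → σ ≤ 3 * R ^ 2 → ∀ W : ℝ,
    W = Real.sqrt (∫ y : X3, ((1 + sq y / R ^ 2)⁻¹) ^ 2 *
      (∑ i, b i * Real.cos (dot (k i) y - θ i)) ^ 2) →
    (|∑ i, b i * Real.exp (-(σ * sq (k i))) * Real.cos (dot (k i) x - θ i)| ≤
        C * σ ^ (-(3 / 4) : ℝ) * (1 + sq x / R ^ 2) * W) ∧
    (∀ p : Fin 3, |∑ i, b i * Real.exp (-(σ * sq (k i))) * k i p *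
        Real.sin (dot (k i) x - θ i)| ≤ C * σ ^ (-(5 / 4) : ℝ) * (1 + sq x / R ^ 2) * W) ∧
    (∀ p q : Fin 3, |∑ i, b i * Real.exp (-(σ * sq (k i))) * (k i p * k i q) *
        Real.cos (dot (k i) x - θ i)| ≤ C * σ ^ (-(7 / 4) : ℝ) * (1 + sq x / R ^ 2) * W)

/-! ## GAUSS: moments of the standard Gaussian and change of variables -/

open ProbabilityTheory in
/-- GAUSS, moments. -/
def GaussMomentStatement : Prop :=
  ∀ (ι : Type) [Fintype ι] (l₁ l₂ : EuclideanSpace ℝ ι →ₗ[ℝ] ℝ) (β₁ β₂ : ℝ),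
    0 ≤ β₁ → 0 ≤ β₂ → (∀ z, l₁ z ^ 2 ≤ β₁ * ‖z‖ ^ 2) → (∀ z, l₂ z ^ 2 ≤ β₂ * ‖z‖ ^ 2) →
    (∫ z, l₁ z ∂stdGaussian (EuclideanSpace ℝ ι) = 0) ∧
    (∫⁻ z, ENNReal.ofReal (l₁ z ^ 2) ∂stdGaussian (EuclideanSpace ℝ ι) ≤ ENNReal.ofReal β₁) ∧
    (∫⁻ z, ENNReal.ofReal (l₁ z ^ 2 * l₂ z ^ 2) ∂stdGaussian (EuclideanSpace ℝ ι) ≤
      ENNReal.ofReal (3 * β₁ * β₂))

/-- The quadratic form of a real matrix. -/
def quad {ι : Type} [Fintype ι] (K : ι → ι → ℝ) (y : ι → ℝ) : ℝ :=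
  ∑ i, ∑ j, K i j * y i * y j

/-- The (unnormalised) squeezed and displaced Gaussian relative to the vacuum. -/
noncomputable def squeezed {ι : Type} [Fintype ι] (K : ι → ι → ℝ) (η y : ι → ℝ) : ℝ :=
  Real.exp (-(quad K (fun i => y i - η i) / 4) + (∑ i, y i * η i) / 2)

open ProbabilityTheory in
/-- GAUSS, change of variables: the squeezed Gaussian is an affine image of the standard one. -/
def GaussChangeStatement : Prop :=
  ∀ (ι : Type) [Fintype ι] (K : ι → ι → ℝ) (η : ι → ℝ),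
    (∀ i j, K i j = K j i) → (∀ y, 0 ≤ quad K y) →
    ∃ (T : EuclideanSpace ℝ ι →ₗ[ℝ] EuclideanSpace ℝ ι) (Z : ℝ), 0 < Z ∧
      (∀ z, ‖T z‖ ^ 2 + quad K (fun i => T z i) = ‖z‖ ^ 2) ∧
      ∀ G : (ι → ℝ) → ENNReal, Measurable G →
        ∫⁻ y, ENNReal.ofReal (squeezed K η (fun i => y i) ^ 2) * G (fun i => y i)
            ∂stdGaussian (EuclideanSpace ℝ ι) =
          ENNReal.ofReal Z * ∫⁻ z, G (fun i => η i + T z i) ∂stdGaussian (EuclideanSpace ℝ ι)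

/-! ## POLY: polynomials are dense near squeezed Gaussians -/

open ProbabilityTheory in
/-- POLY. -/
def PolyStatement : Prop :=
  ∀ (ι : Type) [Fintype ι] [DecidableEq ι] (K : ι → ι → ℝ) (η : ι → ℝ) (J : ℕ) (ε : ℝ), 0 < ε →
    (∀ i j, K i j = K j i) → (∀ y, 0 ≤ quad K y) →
    ∃ p : MvPolynomial ι ℝ,
      ∫⁻ y, ENNReal.ofReal ((1 + ‖y‖ ^ 2) ^ J *
        ((MvPolynomial.eval (fun i => y i) p - squeezed K η (fun i => y i)) ^ 2 +
          ∑ i, (MvPolynomial.eval (fun i => y i) (MvPolynomial.pderiv i p) -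
            squeezed K η (fun i => y i) * (η i / 2 - (∑ j, K i j * (y j - η j)) / 2)) ^ 2))
        ∂stdGaussian (EuclideanSpace ℝ ι) < ENNReal.ofReal ε

/-! ## FOCK: polynomials in the field operators applied to the vacuum -/

open ProbabilityTheory in
/-- FOCK. -/
def FockStatement : Prop :=
  ∀ (ι : Type) [Fintype ι] [DecidableEq ι] (D : Type) [NormedAddCommGroup D]
    [InnerProductSpace ℂ D] (F : Bosons ι D),
    ∃ J : MvPolynomial ι ℂ →ₗ[ℂ] D,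
      J 1 = F.vac ∧
      (∀ i P, J (MvPolynomial.X i * P) = F.a i (J P) + F.ad i (J P)) ∧
      (∀ i P, F.a i (J P) = J (MvPolynomial.pderiv i P)) ∧
      (∀ P Q, inner ℂ (J P) (J Q) = ∫ y, (starRingEnd ℂ)
        (MvPolynomial.eval (fun i => ((y i : ℝ) : ℂ)) P) *
          MvPolynomial.eval (fun i => ((y i : ℝ) : ℂ)) Q ∂stdGaussian (EuclideanSpace ℝ ι))

/-! ## HALF: real modes -/

/-- HALF. Passing from the complex plane wave modes to real (cosine and sine) modes. -/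
def HalfStatement : Prop :=
  ∀ (cut L : ℝ), 0 < L → ∀ (P : Polarization L) (D : Type) [NormedAddCommGroup D]
    [InnerProductSpace ℂ D] (F : Bosons (Mode cut L) D),
    ∃ (ι : Type) (_ : Fintype ι) (_ : DecidableEq ι) (G : Bosons ι D) (k c : ι → X3) (θ : ι → ℝ),
      (∀ i, 0 < sq (k i) ∧ Real.sqrt (sq (k i)) < cut) ∧
      (∀ x j v, potential F P x j v = ∑ i,
        ((Real.cos (dot (k i) x - θ i) * c i j / Real.sqrt (2 * Real.sqrt (sq (k i))) : ℝ) : ℂ) •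
          (G.a i v + G.ad i v)) ∧
      (∀ v, fieldEnergy F v = ∑ i, (Real.sqrt (sq (k i)) : ℂ) • G.ad i (G.a i v)) ∧
      (∀ f : X3 → ℝ, (∀ q, f (-q) = f q) →
        ∑ i, sq (c i) * f (k i) = 4 / L ^ 3 * ∑ n ∈ momenta cut L, f (wave L n)) ∧
      (∀ A B : X3 → X3, (∀ q, A (-q) = A q) → (∀ q, B (-q) = -B q) →
        (∀ q, dot q (A q) = 0) → (∀ q, dot q (B q) = 0) →
        ∃ qq : ι → ℝ,
          (∀ x j, ∑ i, qq i * Real.cos (dot (k i) x - θ i) * c i j =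
            1 / L ^ 3 * ∑ n ∈ momenta cut L, (A (wave L n) j * Real.cos (dot (wave L n) x) -
              B (wave L n) j * Real.sin (dot (wave L n) x))) ∧
          ∑ i, qq i ^ 2 = 1 / L ^ 3 * ∑ n ∈ momenta cut L,
            (sq (A (wave L n)) + sq (B (wave L n))))

/-! ## SYMM: the energy as a sum of squares -/

/-- SYMM. -/
def SymmStatement : Prop :=
  ∀ (cut L : ℝ), 0 < L → ∀ (P : Polarization L) (alpha : ℝ), 0 ≤ alpha →
    ∀ (D : Type) [NormedAddCommGroup D] [InnerProductSpace ℂ D] (F : Bosons (Mode cut L) D)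
      (psi : X3 → Fin 2 → D), IsState psi →
    energy alpha F P psi = 1 / 2 * (∫ x, ∑ s, ‖dirac alpha F P psi x s‖ ^ 2) +
      ∫ x, ∑ s, (inner ℂ (psi x s) (fieldEnergy F (psi x s))).re

/-! ## LATT: lattice sums -/

/-- LATT. -/
def LattStatement : Prop :=
  (∀ cut L : ℝ, 0 < L → ∀ n, n ∈ momenta cut L ↔ n ≠ 0 ∧ freq L n < cut) ∧
  (∃ C : ℝ, 0 < C ∧ ∀ cut L : ℝ, 1 ≤ cut → 1 ≤ L →
    (momenta cut L).card / L ^ 3 ≤ C * cut ^ 3) ∧
  (∃ C : ℝ, 0 < C ∧ ∀ cut L t : ℝ, 1 ≤ L → 0 < t → t ≤ 1 →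
    1 / L ^ 3 * ∑ n ∈ momenta cut L, Real.exp (-(t * sq (wave L n))) ≤ C * t ^ (-(3 / 2) : ℝ)) ∧
  (∀ (f : X3 → ℝ) (B cut : ℝ), 0 < cut → (∀ q, |f q| ≤ B) → ContinuousOn f {q | q ≠ 0} →
    Filter.Tendsto (fun L : ℝ => 1 / L ^ 3 * ∑ n ∈ momenta cut L, f (wave L n)) Filter.atTop
      (nhds ((2 * Real.pi) ^ (-(3 : ℤ)) * ∫ q in {q : X3 | sq q < cut ^ 2}, f q)))

/-! ## TRAP: a zero mode with good decay, in Coulomb gauge -/

/-- Covariant derivative `pi_j phi = -i d_j phi + A_j phi`. -/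
noncomputable def cov (A : X3 → X3) (j : Fin 3) (phi : X3 → Fin 2 → ℂ) (x : X3) : Fin 2 → ℂ :=
  fun s => -I * fderiv ℝ (fun y => phi y s) x (Pi.single j 1) + (A x j : ℂ) * phi x s

/-- TRAP, part 1: the vector potential and its Coulomb gauge form.  `A1` is the explicit vector
potential (Loss-Yau type) `-11 (1+|x|^2)^(-2) ((1-|x|^2) e_3 + 2 x_3 x + 2 e_3 × x)`. -/
noncomputable def trapA (x : X3) : X3 := fun j =>
  -11 * (1 + sq x)⁻¹ ^ 2 * ((1 - sq x) * (![0, 0, 1] : X3) j + 2 * x 2 * x j +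
    2 * (![-x 1, x 0, 0] : X3) j)

/-- TRAP-FOURIER. The transversal amplitudes `A` (even, cosine part) and `B` (odd, sine part)
represent `trapA` up to a gradient. -/
def TrapFourierStatement : Prop :=
  ∃ (A B : X3 → X3) (g : X3 → ℝ) (C : ℝ),
    ContDiff ℝ (⊤ : ℕ∞) g ∧
    (∀ q, A (-q) = A q) ∧ (∀ q, B (-q) = -B q) ∧ (∀ q, dot q (A q) = 0) ∧
    (∀ q, dot q (B q) = 0) ∧ (∀ j, Measurable fun q => A q j) ∧ (∀ j, Measurable fun q => B q j) ∧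
    (∀ q j, |A q j| ≤ C) ∧ (∀ q j, |B q j| ≤ C) ∧
    (∀ j, ContinuousOn (fun q => A q j) {q | q ≠ 0}) ∧
    (∀ j, ContinuousOn (fun q => B q j) {q | q ≠ 0}) ∧
    (∀ j, Integrable fun q => A q j) ∧ (∀ j, Integrable fun q => B q j) ∧
    (∀ N : ℝ, 1 ≤ N → ∀ j, ∫ q in {q : X3 | N ^ 2 ≤ sq q}, (|A q j| + |B q j|) ≤ C * N ^ (-3 : ℤ)) ∧
    (∀ x j, trapA x j + fderiv ℝ g x (Pi.single j 1) =
      (2 * Real.pi) ^ (-(3 : ℤ)) * ∫ q, (A q j * Real.cos (dot q x) - B q j * Real.sin (dot q x)))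

/-- TRAP-ZERO. Compactly supported approximate zero modes of `sigma . (p + trapA)`. -/
def TrapZeroStatement : Prop :=
  ∃ C : ℝ, 0 < C ∧ ∀ e : ℝ, 0 < e → ∃ phi : X3 → Fin 2 → ℂ,
    (∀ s, ContDiff ℝ (⊤ : ℕ∞) fun x => phi x s) ∧ (∀ s, HasCompactSupport fun x => phi x s) ∧
    (1 ≤ ∫ x, ∑ s, ‖phi x s‖ ^ 2) ∧
    (∫ x, (1 + sq x) ^ 4 * ((∑ s, ‖phi x s‖ ^ 2) + (∑ j, ∑ s, ‖cov trapA j phi x s‖ ^ 2) +
      ∑ l, ∑ j, ∑ s, ‖cov trapA l (cov trapA j phi) x s‖ ^ 2) ≤ C) ∧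
    (∫ x, (1 + sq x) ^ 2 * ∑ s, ‖pauliDot (fun j => cov trapA j phi x) s‖ ^ 2 ≤ e)

end Pool.Agent.Helper49_Pauli
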