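import Pool.Agent.Helper49_Pauli.Bound

/-!
# Second batch of module interfaces
-/

open MeasureTheory Complex

namespace Pool.Agent.Helper49_Pauli

/-! ## KERN: consequences of HEAT for the dressing fields -/

/-- KERN.  `W` is the weighted `L^2` norm squared of the field with coefficients
`Q_i exp(tau |k_i|^2)`, `Wl` the one with coefficients `Q_i exp(-(t/2)|k_i|^2)`. -/
def KernStatement : Prop :=
  ∃ C : ℝ, 0 < C ∧ ∀ (ι : Type) [Fintype ι] (k c : ι → X3) (θ Q : ι → ℝ) (R τ t W Wl : ℝ) (x : X3),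
    0 < R → 0 < τ → τ ≤ t → t ≤ R ^ 2 → (∀ i, 0 < sq (k i)) →
    W = ∫ y : X3, ((1 + sq y / R ^ 2)⁻¹) ^ 2 *
      sq (fA k c θ (fun i => Q i * Real.exp (τ * sq (k i))) y) →
    Wl = ∫ y : X3, ((1 + sq y / R ^ 2)⁻¹) ^ 2 *
      sq (fA k c θ (fun i => Q i * Real.exp (-(t / 2 * sq (k i)))) y) →
    sA k c θ Q x ≤ C * τ ^ (-(3 / 2) : ℝ) * (1 + sq x / R ^ 2) ^ 2 * W ∧
    sB k c θ t Q x ≤ C * τ ^ (-(1 / 2) : ℝ) * (1 + sq x / R ^ 2) ^ 2 * W ∧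
    sD k c θ t Q x ≤ C * t ^ ((1 / 2) : ℝ) * (1 + sq x / R ^ 2) ^ 2 * W ∧
    sAl k c θ t Q x ≤ C * t ^ (-(3 / 2) : ℝ) * (1 + sq x / R ^ 2) ^ 2 * Wl ∧
    sBl k c θ t Q x ≤ C * t ^ (-(1 / 2) : ℝ) * (1 + sq x / R ^ 2) ^ 2 * Wl

/-! ## TRAPLIM: the photon cloud producing the trap -/

/-- TRAPLIM. -/
def TrapLimitStatement : Prop :=
  ∃ (C : ℝ) (A B : X3 → X3) (g : X3 → ℝ), 0 < C ∧ ContDiff ℝ (⊤ : ℕ∞) g ∧
    (∀ q, A (-q) = A q) ∧ (∀ q, B (-q) = -B q) ∧ (∀ q, dot q (A q) = 0) ∧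
    (∀ q, dot q (B q) = 0) ∧
    (∀ R cut L : ℝ, 0 < R → 1 ≤ cut → 1 ≤ L →
      1 / L ^ 3 * ∑ n ∈ momenta cut L, (sq (A (R • wave L n)) + sq (B (R • wave L n))) ≤
        C * cut ^ 3) ∧
    (∀ R cut : ℝ, 0 < R → 1 ≤ cut → 1 ≤ R * cut → ∀ rho : X3 → ℝ, Continuous rho →
      HasCompactSupport rho → (∀ x, 0 ≤ rho x) → ∃ L₀ : ℝ, 1 ≤ L₀ ∧ ∀ L : ℝ, L₀ ≤ L →
      ∫ x, rho x * ∑ j, (1 / L ^ 3 * (∑ n ∈ momenta cut L, R ^ 2 *
          (A (R • wave L n) j * Real.cos (dot (wave L n) x) -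
            B (R • wave L n) j * Real.sin (dot (wave L n) x))) -
          (R⁻¹ * trapA (R⁻¹ • x) j + R⁻¹ * fderiv ℝ g (R⁻¹ • x) (Pi.single j 1))) ^ 2 ≤
        C * (R ^ (-2 : ℤ) * (R * cut) ^ (-6 : ℤ)) * (∫ x, rho x) + 1)

/-! ## ZSCALE: the trap at scale `R` -/

/-- The vector potential of the trap at scale `R`. -/
noncomputable def trapR (R : ℝ) (x : X3) : X3 := R⁻¹ • trapA (R⁻¹ • x)

/-- ZSCALE. -/
def ZScaleStatement : Prop :=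
  ∃ C : ℝ, 0 < C ∧ ∀ R e : ℝ, 0 < R → 0 < e → ∃ phi : X3 → S2,
    ContDiff ℝ (⊤ : ℕ∞) phi ∧ HasCompactSupport phi ∧
    (1 ≤ ∫ x, nsq (phi x)) ∧
    (∫ x, (1 + sq x / R ^ 2) ^ 4 * nsq (phi x) ≤ C) ∧
    (∫ x, (1 + sq x / R ^ 2) ^ 4 * ∑ j, nsq (cov (trapR R) j phi x) ≤ C * R ^ (-2 : ℤ)) ∧
    (∫ x, (1 + sq x / R ^ 2) ^ 4 * ∑ l, ∑ j, nsq (cov (trapR R) l (cov (trapR R) j phi) x) ≤
      C * R ^ (-4 : ℤ)) ∧
    (∫ x, (1 + sq x / R ^ 2) ^ 2 * nsq (∑ j, sg j (cov (trapR R) j phi x)) ≤ e)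

/-! ## ASSEMBLE: from squeezed Gaussian wave functions to states in Fock space -/

section assemble

variable {ι : Type} [Fintype ι]

/-- The wave function `u(x, y) = u_0(x) + sum y_i u_i(x)`. -/
noncomputable def wf (u0 : X3 → S2) (u : ι → X3 → S2) (y : ι → ℝ) (x : X3) : S2 :=
  u0 x + ∑ i, (y i : ℂ) • u i x

/-- `sqrt(alpha)` times the vector potential at the field configuration `y`. -/
noncomputable def vp (alpha : ℝ) (k c : ι → X3) (θ : ι → ℝ) (y : ι → ℝ) (x : X3) : X3 :=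
  Real.sqrt alpha • fA k c θ (fun i => y i / Real.sqrt (2 * Real.sqrt (sq (k i)))) x

/-- The Dirac operator at the field configuration `y`. -/
noncomputable def dop (V : X3 → X3) (f : X3 → S2) (x : X3) : S2 := ∑ j, sg j (cov V j f x)

/-- The logarithmic derivative of `squeezed`. -/
noncomputable def ldq (K : ι → ι → ℝ) (η y : ι → ℝ) (i : ι) : ℝ :=
  η i / 2 - (∑ j, K i j * (y j - η j)) / 2

end assemble

open ProbabilityTheory in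
/-- ASSEMBLE.  `k, c, θ, G` are the real modes as in `HalfStatement`. -/
def AssembleStatement : Prop :=
  ∀ (cut L alpha : ℝ), 0 < L → 0 ≤ alpha → ∀ (P : Polarization L) (D : Type)
    [NormedAddCommGroup D] [InnerProductSpace ℂ D] (F : Bosons (Mode cut L) D)
    (ι : Type) [Fintype ι] [DecidableEq ι] (G : Bosons ι D) (k c : ι → X3) (θ : ι → ℝ),
    (∀ i, 0 < sq (k i)) →
    (∀ x j v, potential F P x j v = ∑ i,
        ((Real.cos (dot (k i) x - θ i) * c i j / Real.sqrt (2 * Real.sqrt (sq (k i))) : ℝ) : ℂ) •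
          (G.a i v + G.ad i v)) →
    (∀ v, fieldEnergy F v = ∑ i, (Real.sqrt (sq (k i)) : ℂ) • G.ad i (G.a i v)) →
    ∀ (K : ι → ι → ℝ) (η : ι → ℝ), (∀ i j, K i j = K j i) → (∀ y, 0 ≤ quad K y) →
    ∀ (u0 : X3 → S2) (u : ι → X3 → S2), ContDiff ℝ (⊤ : ℕ∞) u0 → HasCompactSupport u0 →
    (∀ i, ContDiff ℝ (⊤ : ℕ∞) (u i)) → (∀ i, HasCompactSupport (u i)) →
    ∀ M N : ℝ, 0 < M → 0 < N →
    (∫⁻ y, ∫⁻ x, ENNReal.ofReal (squeezed K η (fun i => y i) ^ 2 *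
        nsq (dop (vp alpha k c θ (fun i => y i)) (wf u0 u (fun i => y i)) x))
        ∂volume ∂stdGaussian (EuclideanSpace ℝ ι) ≤ ENNReal.ofReal (M * N)) →
    (∫⁻ y, ∫⁻ x, ENNReal.ofReal (squeezed K η (fun i => y i) ^ 2 *
        ∑ i, Real.sqrt (sq (k i)) *
          nsq (u i x + (ldq K η (fun i => y i) i : ℂ) • wf u0 u (fun i => y i) x))
        ∂volume ∂stdGaussian (EuclideanSpace ℝ ι) ≤ ENNReal.ofReal (M * N)) →
    (ENNReal.ofReal N ≤ ∫⁻ y, ∫⁻ x, ENNReal.ofReal (squeezed K η (fun i => y i) ^ 2 *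
        nsq (wf u0 u (fun i => y i) x)) ∂volume ∂stdGaussian (EuclideanSpace ℝ ι)) →
    ∃ psi : X3 → Fin 2 → D, IsState psi ∧ 0 < normSq psi ∧
      energy alpha F P psi ≤ 16 * M * normSq psi

end Pool.Agent.Helper49_Pauli
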