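import Pool.Agent.Helper49_Pauli.Bound2

/-!
# Third batch of module interfaces: the trial state and the energy estimates
-/

open MeasureTheory Complex

namespace Pool.Agent.Helper49_Pauli

/-- The coefficients of the vector potential at the field configuration `y`. -/
noncomputable def qof {ι : Type} (k : ι → X3) (y : ι → ℝ) (i : ι) : ℝ :=
  y i / Real.sqrt (2 * Real.sqrt (sq (k i)))

/-- The parameters of the trial state. -/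
structure Par (ι : Type) where
  /-- wave vectors -/
  k : ι → X3
  /-- amplitudes -/
  c : ι → X3
  /-- phases -/
  θ : ι → ℝ
  /-- trap scale -/
  R : ℝ
  /-- smoothing scale -/
  τ : ℝ
  /-- dressing scale -/
  t : ℝ
  /-- squeezing strength -/
  κ : ℝ
  /-- low frequency squeezing strength -/
  κ0 : ℝ
  /-- coupling constant -/
  a : ℝ
  /-- gauge function -/
  g : X3 → ℝ
  /-- the bare spinor field -/
  phi : X3 → S2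
  /-- displacement -/
  η : ι → ℝ
  hk : ∀ i, 0 < sq (k i)
  hR : 0 < R
  hτ : 0 < τ
  hτt : τ ≤ t
  htR : t ≤ R ^ 2
  hκ : 0 < κ
  hκ0 : 0 < κ0
  ha : 0 ≤ a
  hg : ContDiff ℝ (⊤ : ℕ∞) g
  hphi : ContDiff ℝ (⊤ : ℕ∞) phi
  hphic : HasCompactSupport phi

namespace Par

variable {ι : Type} [Fintype ι] (p : Par ι)

/-- `|k_i|`. -/
noncomputable def om (i : ι) : ℝ := Real.sqrt (sq (p.k i))

/-- The weight `1 + |x|^2 / R^2`. -/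
noncomputable def w (x : X3) : ℝ := 1 + sq x / p.R ^ 2

/-- The weighted inner product of two modes, with multipliers `m i`, `m j`. -/
noncomputable def G (m : ι → ℝ) (i j : ι) : ℝ :=
  ∫ y : X3, (p.w y)⁻¹ ^ 2 * (m i * Real.cos (ph p.k p.θ y i) * (m j * Real.cos (ph p.k p.θ y j)) *
    dot (p.c i) (p.c j))

/-- The squeezing matrix. -/
noncomputable def K (i j : ι) : ℝ :=
  (p.κ * p.G (fun i => Real.exp (p.τ * sq (p.k i))) i j +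
    p.κ0 * p.G (fun i => Real.exp (-(p.t / 2 * sq (p.k i)))) i j) /
      (Real.sqrt (2 * p.om i) * Real.sqrt (2 * p.om j))

/-- The weighted norm of the field with multiplier `exp(tau |k|^2)`. -/
noncomputable def W (Q : ι → ℝ) : ℝ := ∫ y : X3, ((1 + sq y / p.R ^ 2)⁻¹) ^ 2 *
      sq (fA p.k p.c p.θ (fun i => Q i * Real.exp (p.τ * sq (p.k i))) y)

/-- The weighted norm of the field with multiplier `exp(-(t/2) |k|^2)`. -/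
noncomputable def Wl (Q : ι → ℝ) : ℝ := ∫ y : X3, ((1 + sq y / p.R ^ 2)⁻¹) ^ 2 *
      sq (fA p.k p.c p.θ (fun i => Q i * Real.exp (-(p.t / 2 * sq (p.k i)))) y)

/-- The trap potential. -/
noncomputable def A : X3 → X3 := trapR p.R

/-- The dressing part of the field, linear in the field configuration `y`. -/
noncomputable def dl (y : ι → ℝ) (x : X3) : S2 :=
  -((Real.sqrt p.a : ℂ) • Th p.k p.c p.θ p.t (qof p.k y) x (p.phi x)) +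
    (Real.sqrt p.a : ℂ) • ∑ l, Th2 p.k p.c p.θ p.t (qof p.k y) x l (cov p.A l p.phi x)

/-- The gauge phase. -/
noncomputable def ex (x : X3) : ℂ := cexp (-(I * (p.g x : ℂ)))

/-- The coefficient of `y_i` in the trial function. -/
noncomputable def u [DecidableEq ι] (i : ι) (x : X3) : S2 := p.ex x • p.dl (Pi.single i 1) x

/-- The constant part of the trial function. -/
noncomputable def u0 [DecidableEq ι] (x : X3) : S2 :=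
  p.ex x • (p.phi x - ∑ i, (p.η i : ℂ) • p.dl (Pi.single i 1) x)

/-- `|phi|^2`. -/
noncomputable def p0 (x : X3) : ℝ := nsq (p.phi x)
/-- `|cov phi|^2`. -/
noncomputable def p1 (x : X3) : ℝ := ∑ l, nsq (cov p.A l p.phi x)
/-- `|cov cov phi|^2`. -/
noncomputable def p2 (x : X3) : ℝ := ∑ l, ∑ j, nsq (cov p.A j (cov p.A l p.phi) x)
/-- `|sigma . cov phi|^2`. -/
noncomputable def pd (x : X3) : ℝ := nsq (∑ j, sg j (cov p.A j p.phi x))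

/-- The error of the vector potential produced by the displacement. -/
noncomputable def E (x : X3) : X3 := fun j =>
  Real.sqrt p.a * fA p.k p.c p.θ (qof p.k p.η) x j - fderiv ℝ p.g x (Pi.single j 1) - p.A x j

/-- The fields at the displacement-free configuration `y`. -/
noncomputable def fsA (y : ι → ℝ) (x : X3) : ℝ := sA p.k p.c p.θ (qof p.k y) x
/-- The fields at the displacement-free configuration `y`. -/
noncomputable def fsAl (y : ι → ℝ) (x : X3) : ℝ := sAl p.k p.c p.θ p.t (qof p.k y) x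
/-- The fields at the displacement-free configuration `y`. -/
noncomputable def fsB (y : ι → ℝ) (x : X3) : ℝ := sB p.k p.c p.θ p.t (qof p.k y) x
/-- The fields at the displacement-free configuration `y`. -/
noncomputable def fsBl (y : ι → ℝ) (x : X3) : ℝ := sBl p.k p.c p.θ p.t (qof p.k y) x
/-- The fields at the displacement-free configuration `y`. -/
noncomputable def fsD (y : ι → ℝ) (x : X3) : ℝ := sD p.k p.c p.θ p.t (qof p.k y) x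

/-- The pointwise bound for the Dirac energy density. -/
noncomputable def bd (y : ι → ℝ) (x : X3) : ℝ :=
  20000 * (p.pd x + p.a * p.fsAl y x * p.p0 x + p.a * p.fsBl y x * p.p1 x +
      p.a * p.fsD y x * p.p2 x + p.a ^ 2 * (p.fsA y x * p.fsB y x) * p.p0 x +
      p.a ^ 2 * (p.fsA y x * p.fsD y x) * p.p1 x +
      sq (p.E x) * (p.p0 x + p.a * p.fsB y x * p.p0 x + p.a * p.fsD y x * p.p1 x))

/-- The relative size of the dressing: first order. -/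
noncomputable def bB : ℝ := p.a * p.κ⁻¹ * p.τ ^ (-(1 / 2) : ℝ)
/-- The relative size of the dressing: second order. -/
noncomputable def bD : ℝ := p.a * p.κ⁻¹ * p.t ^ ((1 / 2) : ℝ)

/-- The map `T` and the constant `Z` are as in `GaussChangeStatement`. -/
def Chg (T : EuclideanSpace ℝ ι →ₗ[ℝ] EuclideanSpace ℝ ι) (Z : ℝ) : Prop :=
  0 < Z ∧ (∀ z, ‖T z‖ ^ 2 + quad p.K (fun i => T z i) = ‖z‖ ^ 2) ∧
    ∀ G : (ι → ℝ) → ENNReal, Measurable G →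
      ∫⁻ y, ENNReal.ofReal (squeezed p.K p.η (fun i => y i) ^ 2) * G (fun i => y i)
          ∂ProbabilityTheory.stdGaussian (EuclideanSpace ℝ ι) =
        ENNReal.ofReal Z * ∫⁻ z, G (fun i => p.η i + T z i)
          ∂ProbabilityTheory.stdGaussian (EuclideanSpace ℝ ι)

/-- The bare spinor field is a good approximate zero mode. -/
def Good (C0 e : ℝ) : Prop :=
  (∫ x, p.w x ^ 4 * p.p0 x ≤ C0) ∧ (∫ x, p.w x ^ 4 * p.p1 x ≤ C0 * p.R ^ (-2 : ℤ)) ∧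
  (∫ x, p.w x ^ 4 * p.p2 x ≤ C0 * p.R ^ (-4 : ℤ)) ∧ (∫ x, p.w x ^ 2 * p.pd x ≤ e)

end Par

open ProbabilityTheory

/-! ## KMAT -/

/-- KMAT: the squeezing matrix. -/
def KmatStatement : Prop :=
  ∃ C : ℝ, 0 < C ∧ ∀ (ι : Type) [Fintype ι] (p : Par ι),
    (∀ i j, p.K i j = p.K j i) ∧
    (∀ y, quad p.K y = p.κ * p.W (qof p.k y) + p.κ0 * p.Wl (qof p.k y)) ∧
    (∀ Q, 0 ≤ p.W Q) ∧ (∀ Q, 0 ≤ p.Wl Q) ∧
    (∀ i y, (∑ j, p.K i j * y j) ^ 2 ≤ p.K i i * quad p.K y) ∧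
    (∀ i, p.om i * p.K i i ≤ C * p.R ^ 3 * (p.κ * Real.exp (2 * (p.τ * sq (p.k i))) +
      p.κ0 * Real.exp (-(p.t * sq (p.k i)))) * sq (p.c i))

/-! ## MOM -/

/-- MOM: moments of the fields; uses KMAT, KERN, GAUSS. -/
def MomStatement : Prop :=
  ∃ C : ℝ, 0 < C ∧ ∀ (ι : Type) [Fintype ι] (p : Par ι)
    (T : EuclideanSpace ℝ ι →ₗ[ℝ] EuclideanSpace ℝ ι),
    (∀ z, ‖T z‖ ^ 2 + quad p.K (fun i => T z i) = ‖z‖ ^ 2) → ∀ x : X3,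
    (∫⁻ z, ENNReal.ofReal (p.fsAl (fun i => T z i) x) ∂stdGaussian (EuclideanSpace ℝ ι) ≤
      ENNReal.ofReal (C * p.κ0⁻¹ * p.t ^ (-(3 / 2) : ℝ) * p.w x ^ 2)) ∧
    (∫⁻ z, ENNReal.ofReal (p.fsBl (fun i => T z i) x) ∂stdGaussian (EuclideanSpace ℝ ι) ≤
      ENNReal.ofReal (C * p.κ0⁻¹ * p.t ^ (-(1 / 2) : ℝ) * p.w x ^ 2)) ∧
    (∫⁻ z, ENNReal.ofReal (p.fsB (fun i => T z i) x) ∂stdGaussian (EuclideanSpace ℝ ι) ≤
      ENNReal.ofReal (C * p.κ⁻¹ * p.τ ^ (-(1 / 2) : ℝ) * p.w x ^ 2)) ∧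
    (∫⁻ z, ENNReal.ofReal (p.fsD (fun i => T z i) x) ∂stdGaussian (EuclideanSpace ℝ ι) ≤
      ENNReal.ofReal (C * p.κ⁻¹ * p.t ^ ((1 / 2) : ℝ) * p.w x ^ 2)) ∧
    (∫⁻ z, ENNReal.ofReal (p.fsA (fun i => T z i) x * p.fsB (fun i => T z i) x)
        ∂stdGaussian (EuclideanSpace ℝ ι) ≤
      ENNReal.ofReal (C * p.κ⁻¹ ^ 2 * p.τ ^ (-2 : ℝ) * p.w x ^ 4)) ∧
    (∫⁻ z, ENNReal.ofReal (p.fsA (fun i => T z i) x * p.fsD (fun i => T z i) x)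
        ∂stdGaussian (EuclideanSpace ℝ ι) ≤
      ENNReal.ofReal (C * p.κ⁻¹ ^ 2 * (p.τ ^ (-(3 / 2) : ℝ) * p.t ^ ((1 / 2) : ℝ)) * p.w x ^ 4)) ∧
    (∀ (l : EuclideanSpace ℝ ι →ₗ[ℝ] ℝ) (β : ℝ), 0 ≤ β → (∀ z, l z ^ 2 ≤ β * ‖z‖ ^ 2) →
      (∫⁻ z, ENNReal.ofReal (l z ^ 2 * p.fsB (fun i => T z i) x)
          ∂stdGaussian (EuclideanSpace ℝ ι) ≤
        ENNReal.ofReal (β * (C * p.κ⁻¹ * p.τ ^ (-(1 / 2) : ℝ) * p.w x ^ 2))) ∧
      (∫⁻ z, ENNReal.ofReal (l z ^ 2 * p.fsD (fun i => T z i) x)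
          ∂stdGaussian (EuclideanSpace ℝ ι) ≤
        ENNReal.ofReal (β * (C * p.κ⁻¹ * p.t ^ ((1 / 2) : ℝ) * p.w x ^ 2))))

/-! ## TRIAL -/

/-- TRIAL: the trial function. -/
def TrialStatement : Prop :=
  ∀ (ι : Type) [Fintype ι] [DecidableEq ι] (p : Par ι),
    ContDiff ℝ (⊤ : ℕ∞) p.u0 ∧ HasCompactSupport p.u0 ∧
    (∀ i, ContDiff ℝ (⊤ : ℕ∞) (p.u i)) ∧ (∀ i, HasCompactSupport (p.u i)) ∧
    (∀ y x, wf p.u0 p.u y x = p.ex x • (p.phi x + p.dl (fun i => y i - p.η i) x)) ∧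
    (∀ y x, nsq (dop (vp p.a p.k p.c p.θ y) (wf p.u0 p.u y) x) ≤
      p.bd (fun i => y i - p.η i) x) ∧
    (∀ y x, ‖p.dl y x‖ ^ 2 ≤ 18 * p.a * p.fsB y x * p.p0 x + 162 * p.a * p.fsD y x * p.p1 x) ∧
    (∀ x, ∑ i, p.om i * nsq (p.u i x) ≤
      200 * p.a * p.t * (∑ i, sq (p.c i)) * (p.p0 x + p.t * p.p1 x))

/-- CONT: joint continuity. -/
def ContStatement : Prop :=
  ∀ (ι : Type) [Fintype ι] (p : Par ι),
    (Continuous fun z : (ι → ℝ) × X3 => p.bd z.1 z.2) ∧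
    (Continuous fun z : (ι → ℝ) × X3 => p.dl z.1 z.2) ∧
    (Continuous fun z : (ι → ℝ) × X3 => p.fsB z.1 z.2) ∧
    (Continuous fun z : (ι → ℝ) × X3 => p.fsD z.1 z.2) ∧
    (Continuous fun z : (ι → ℝ) × X3 => p.fsBl z.1 z.2) ∧
    (Continuous fun z : (ι → ℝ) × X3 => p.fsAl z.1 z.2) ∧
    (Continuous fun z : (ι → ℝ) × X3 => p.fsA z.1 z.2) ∧
    Continuous p.w ∧ Continuous p.p0 ∧ Continuous p.p1 ∧ Continuous p.p2 ∧ Continuous p.pd ∧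
    (Continuous fun x => sq (p.E x)) ∧
    HasCompactSupport p.p0 ∧ HasCompactSupport p.p1 ∧ HasCompactSupport p.p2 ∧
    HasCompactSupport p.pd ∧
    (∀ x, p.dl (0 : ι → ℝ) x = 0) ∧
    (∀ y z x, p.dl (y + z) x = p.dl y x + p.dl z x) ∧
    (∀ (r : ℝ) y x, p.dl (r • y) x = (r : ℂ) • p.dl y x)

/-! ## H1, H2, H3 -/

/-- H1: the Dirac energy of the trial state. -/
def H1Statement : Prop :=
  ∃ C : ℝ, 0 < C ∧ ∀ (ι : Type) [Fintype ι] [DecidableEq ι] (p : Par ι)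
    (T : EuclideanSpace ℝ ι →ₗ[ℝ] EuclideanSpace ℝ ι) (Z C0 e e' : ℝ),
    p.Chg T Z → p.Good C0 e → 0 ≤ C0 →
    (∫ x, sq (p.E x) * (p.p0 x + p.bB * p.w x ^ 2 * p.p0 x + p.bD * p.w x ^ 2 * p.p1 x) ≤ e') →
    ∫⁻ y, ∫⁻ x, ENNReal.ofReal (squeezed p.K p.η (fun i => y i) ^ 2 *
        nsq (dop (vp p.a p.k p.c p.θ (fun i => y i)) (wf p.u0 p.u (fun i => y i)) x))
        ∂volume ∂stdGaussian (EuclideanSpace ℝ ι) ≤
      ENNReal.ofReal (Z * (C * (e + e' + C0 * (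
        p.a * p.κ0⁻¹ * p.t ^ (-(3 / 2) : ℝ) +
        p.a * p.κ0⁻¹ * p.t ^ (-(1 / 2) : ℝ) * p.R ^ (-2 : ℤ) +
        p.a * p.κ⁻¹ * p.t ^ ((1 / 2) : ℝ) * p.R ^ (-4 : ℤ) +
        p.a ^ 2 * p.κ⁻¹ ^ 2 * p.τ ^ (-2 : ℝ) +
        p.a ^ 2 * p.κ⁻¹ ^ 2 * (p.τ ^ (-(3 / 2) : ℝ) * p.t ^ ((1 / 2) : ℝ)) * p.R ^ (-2 : ℤ)))))

/-- H2: the field energy of the trial state. -/
def H2Statement : Prop :=
  ∃ C : ℝ, 0 < C ∧ ∀ (ι : Type) [Fintype ι] [DecidableEq ι] (p : Par ι)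
    (T : EuclideanSpace ℝ ι →ₗ[ℝ] EuclideanSpace ℝ ι) (Z C0 e : ℝ),
    p.Chg T Z → p.Good C0 e → 0 ≤ C0 →
    ∫⁻ y, ∫⁻ x, ENNReal.ofReal (squeezed p.K p.η (fun i => y i) ^ 2 *
        ∑ i, Real.sqrt (sq (p.k i)) *
          nsq (p.u i x + (ldq p.K p.η (fun i => y i) i : ℂ) • wf p.u0 p.u (fun i => y i) x))
        ∂volume ∂stdGaussian (EuclideanSpace ℝ ι) ≤
      ENNReal.ofReal (Z * (C * C0 * (p.a * p.t * (∑ i, sq (p.c i)) +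
        (∑ i, p.om i * p.η i ^ 2 + ∑ i, p.om i * p.K i i) *
          (1 + p.bB + p.bD * p.R ^ (-2 : ℤ)))))

/-- H3: the norm of the trial state. -/
def H3Statement : Prop :=
  ∀ (ι : Type) [Fintype ι] [DecidableEq ι] (p : Par ι)
    (T : EuclideanSpace ℝ ι →ₗ[ℝ] EuclideanSpace ℝ ι) (Z : ℝ),
    p.Chg T Z → 1 ≤ ∫ x, p.p0 x →
    ENNReal.ofReal Z ≤ ∫⁻ y, ∫⁻ x, ENNReal.ofReal (squeezed p.K p.η (fun i => y i) ^ 2 *
        nsq (wf p.u0 p.u (fun i => y i) x)) ∂volume ∂stdGaussian (EuclideanSpace ℝ ι)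

/-! ## PARAM -/

/-- PARAM: the choice of the parameters. -/
def ParamStatement : Prop :=
  ∀ a : ℝ, 0 < a → ∃ C : ℝ, 0 < C ∧ ∀ cut : ℝ, 1 ≤ cut → ∃ R τ t κ κ0 : ℝ,
    0 < R ∧ R ≤ 1 ∧ 0 < τ ∧ τ ≤ t ∧ t ≤ R ^ 2 ∧ t ≤ 1 ∧ 0 < κ ∧ 0 < κ0 ∧ 1 ≤ R * cut ∧
    τ * cut ^ 2 ≤ 1 ∧
    R ^ (-2 : ℤ) * (R * cut) ^ (-6 : ℤ) * (1 + a * κ⁻¹ * τ ^ (-(1 / 2) : ℝ) +
      a * κ⁻¹ * t ^ ((1 / 2) : ℝ) * R ^ (-2 : ℤ)) ≤ C * cut ^ ((46 / 31) : ℝ) ∧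
    (a * κ0⁻¹ * t ^ (-(3 / 2) : ℝ) + a * κ0⁻¹ * t ^ (-(1 / 2) : ℝ) * R ^ (-2 : ℤ) +
        a * κ⁻¹ * t ^ ((1 / 2) : ℝ) * R ^ (-4 : ℤ) + a ^ 2 * κ⁻¹ ^ 2 * τ ^ (-2 : ℝ) +
        a ^ 2 * κ⁻¹ ^ 2 * (τ ^ (-(3 / 2) : ℝ) * t ^ ((1 / 2) : ℝ)) * R ^ (-2 : ℤ)) ≤
      C * cut ^ ((46 / 31) : ℝ) ∧
    a * t * cut ^ 3 ≤ C * cut ^ ((46 / 31) : ℝ) ∧
    (R ^ 4 * cut ^ 5 / a + R ^ 3 * (κ * cut ^ 3 + κ0 * t ^ (-(3 / 2) : ℝ))) *
      (1 + a * κ⁻¹ * τ ^ (-(1 / 2) : ℝ) + a * κ⁻¹ * t ^ ((1 / 2) : ℝ) * R ^ (-2 : ℤ)) ≤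
        C * cut ^ ((46 / 31) : ℝ)

end Pool.Agent.Helper49_Pauli
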