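import Pool.Agent.Helper49_Pauli.Interface3

/-!
# Fourth batch of module interfaces: uniformity in the box, and existence of the representation
-/

open MeasureTheory Complex

namespace Pool.Agent.Helper49_Pauli

/-- TRAPRIEM: the quantitative version of TRAPLIM, for all boxes of side `L ≥ 1`. -/
def TrapRiemannStatement : Prop :=
  ∃ (C : ℝ) (A B : X3 → X3) (g : X3 → ℝ), 0 < C ∧ ContDiff ℝ (⊤ : ℕ∞) g ∧
    (∀ q, A (-q) = A q) ∧ (∀ q, B (-q) = -B q) ∧ (∀ q, dot q (A q) = 0) ∧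
    (∀ q, dot q (B q) = 0) ∧
    (∀ R cut L : ℝ, 0 < R → 1 ≤ cut → 1 ≤ L →
      1 / L ^ 3 * ∑ n ∈ momenta cut L, (sq (A (R • wave L n)) + sq (B (R • wave L n))) ≤
        C * cut ^ 3) ∧
    (∀ R cut L : ℝ, 0 < R → R ≤ 1 → 1 ≤ cut → 1 ≤ R * cut → 1 ≤ L → ∀ x : X3,
      ∑ j, (1 / L ^ 3 * (∑ n ∈ momenta cut L, R ^ 2 *
          (A (R • wave L n) j * Real.cos (dot (wave L n) x) -
            B (R • wave L n) j * Real.sin (dot (wave L n) x))) -
          (R⁻¹ * trapA (R⁻¹ • x) j + R⁻¹ * fderiv ℝ g (R⁻¹ • x) (Pi.single j 1))) ^ 2 ≤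
        C * (R ^ (-2 : ℤ) * (R * cut) ^ (-6 : ℤ) + 1) * (1 + sq x / R ^ 2))

/-- FOCKREP: existence of the Fock representation. -/
def FockRepStatement : Prop :=
  ∀ (M : Type) [Fintype M] [DecidableEq M], ∃ (D : Type) (_ : NormedAddCommGroup D)
    (_ : InnerProductSpace ℂ D) (F : Bosons M D), F.Cyclic

/-- POL: existence of polarization vectors. -/
def PolStatement : Prop := ∀ L : ℝ, 0 < L → Nonempty (Polarization L)

end Pool.Agent.Helper49_Pauli
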