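import Pool.Agent.Helper49_Pauli.Final
import Pool.Agent.Helper49_Pauli.SelfEn
import Pool.Agent.Helper49_Pauli.Cont
import Pool.Agent.Helper14_Pauli.Kmat
import Pool.Agent.Helper14_Pauli.Param
import Pool.Agent.Helper14_Pauli.TrapRiem
import Pool.Agent.Helper19_Pauli.ZScale
import Pool.Agent.Helper29_Pauli.TrapZero
import Pool.Agent.Helper36_Pauli.Mom
import Pool.Agent.Helper36_Pauli.H2
import Pool.Agent.Helper41_Pauli.Kern
import Pool.Agent.Helper41_Pauli.Latt
import Pool.Agent.Helper41_Pauli.Assemble
import Pool.Agent.Helper61_Pauli.GaussChange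
import Pool.Agent.Helper61_Pauli.GaussMoment
import Pool.Agent.Helper68_Pauli.H3
import Pool.Agent.Helper68_Pauli.Pol
import Pool.Agent.Helper68_Pauli.FockRep
import Pool.Agent.Helper75_Pauli.Half
import Pool.Agent.Helper83_Pauli.Symm
import Pool.Agent.Helper94_Pauli.H1

/-!
# The upper bound on the self-energy of the Pauli electron
-/

namespace Pool.Agent.Helper49_Pauli

theorem upper : UpperStatement (46 / 31) :=
  upper_of_core symm (core Pool.Agent.Helper61_Pauli.gaussChange Pool.Agent.Helper75_Pauli.Half.half latt H14.trapRiem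
    (zScale Pool.Agent.Helper29_Pauli.trapZero) assemble H14.kmat contS trial
    (h1 (mom H14.kmat kern Pool.Agent.Helper61_Pauli.gaussMoment) trial contS)
    (h2 H14.kmat (mom H14.kmat kern Pool.Agent.Helper61_Pauli.gaussMoment) contS
      Pool.Agent.Helper61_Pauli.gaussMoment) h3 Pool.Agent.Helper14_Pauli.param)

end Pool.Agent.Helper49_Pauli
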