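import Pool.Agent.Helper49_Pauli.Interface

/-!
# Pauli matrices on `Fin 2 → ℂ`
-/

open MeasureTheory Complex

namespace Pool.Agent.Helper49_Pauli

/-- Spinors. -/
abbrev S2 := Fin 2 → ℂ

/-- Linear maps on spinors. -/
abbrev EndS := S2 →ₗ[ℂ] S2

/-- The Pauli matrices as linear maps. -/
noncomputable def sg (j : Fin 3) : EndS where
  toFun u := (![![u 1, u 0], ![-I * u 1, I * u 0], ![u 0, -u 1]] : Fin 3 → S2) j
  map_add' u v := by
    fin_cases j <;> (ext s; fin_cases s <;> simp <;> ring)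
  map_smul' r u := by
    fin_cases j <;> (ext s; fin_cases s <;> simp <;> ring)

lemma sg_apply (j : Fin 3) (u : S2) :
    sg j u = (![![u 1, u 0], ![-I * u 1, I * u 0], ![u 0, -u 1]] : Fin 3 → S2) j := rfl

lemma sg_zero (u : S2) : sg 0 u = ![u 1, u 0] := rfl
lemma sg_one (u : S2) : sg 1 u = ![-I * u 1, I * u 0] := rfl
lemma sg_two (u : S2) : sg 2 u = ![u 0, -u 1] := rfl

lemma pauliDot_eq (w : Fin 3 → S2) : pauliDot w = ∑ j, sg j (w j) := by
  rw [Fin.sum_univ_three, sg_zero, sg_one, sg_two]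
  ext s
  fin_cases s <;> simp [pauliDot] <;> ring

lemma norm_S2 (v : S2) : ‖v‖ = max ‖v 0‖ ‖v 1‖ := by
  rw [Pi.norm_def]
  simp [Finset.univ_fin2]

lemma norm_sg_apply (j : Fin 3) (u : S2) : ‖sg j u‖ = ‖u‖ := by
  rw [norm_S2, norm_S2]
  fin_cases j <;> simp [sg_apply, max_comm]

/-- `sigma . v` for a real vector. -/
noncomputable def sl (v : X3) : EndS := ∑ j, (v j : ℂ) • sg j

lemma sl_apply (v : X3) (u : S2) : sl v u = ∑ j, (v j : ℂ) • sg j u := by
  simp [sl]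

lemma sl_sl (v : X3) (u : S2) : sl v (sl v u) = ((sq v : ℝ) : ℂ) • u := by
  ext s
  simp only [sl, Fin.sum_univ_three, sq]
  fin_cases s <;> simp [sg_apply] <;> ring_nf <;> simp [I_sq]

lemma sl_mul_self (v : X3) : sl v * sl v = ((sq v : ℝ) : ℂ) • (1 : EndS) := by
  ext1 u
  ext1
  simp [sl_sl]

lemma sl_add (v w : X3) : sl (v + w) = sl v + sl w := by
  rw [sl, sl, sl, ← Finset.sum_add_distrib]
  refine Finset.sum_congr rfl fun j _ => ?_
  rw [← add_smul, Pi.add_apply, Complex.ofReal_add]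

lemma sl_smul (r : ℝ) (v : X3) : sl (r • v) = (r : ℂ) • sl v := by
  rw [sl, sl, Finset.smul_sum]
  refine Finset.sum_congr rfl fun j _ => ?_
  rw [smul_smul, Pi.smul_apply, smul_eq_mul, Complex.ofReal_mul]

lemma sl_sum {ι : Type*} (s : Finset ι) (v : ι → X3) : sl (∑ i ∈ s, v i) = ∑ i ∈ s, sl (v i) := by
  classical
  induction s using Finset.induction_on with
  | empty => simp [sl]
  | insert a s ha ih => rw [Finset.sum_insert ha, Finset.sum_insert ha, sl_add, ih]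

lemma norm_sl_apply_le (v : X3) (u : S2) : ‖sl v u‖ ≤ (∑ j, |v j|) * ‖u‖ := by
  rw [sl_apply, Finset.sum_mul]
  refine (norm_sum_le _ _).trans (Finset.sum_le_sum fun j _ => ?_)
  rw [norm_smul, norm_sg_apply]
  simp

/-- The Euclidean square norm of a spinor. -/
noncomputable def nsq (u : S2) : ℝ := ∑ s, ‖u s‖ ^ 2

lemma nsq_nonneg (u : S2) : 0 ≤ nsq u := Finset.sum_nonneg fun _ _ => by positivity

lemma norm_sq_le_nsq (u : S2) : ‖u‖ ^ 2 ≤ nsq u := by
  rw [norm_S2, nsq, Fin.sum_univ_two]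
  rcases le_total ‖u 0‖ ‖u 1‖ with h | h
  · rw [max_eq_right h]; nlinarith [sq_nonneg ‖u 0‖]
  · rw [max_eq_left h]; nlinarith [sq_nonneg ‖u 1‖]

lemma nsq_le (u : S2) : nsq u ≤ 2 * ‖u‖ ^ 2 := by
  rw [nsq, Fin.sum_univ_two]
  have h0 := norm_le_pi_norm u 0
  have h1 := norm_le_pi_norm u 1
  nlinarith [norm_nonneg (u 0), norm_nonneg (u 1)]

end Pool.Agent.Helper49_Pauli
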